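import Pool.Agent.Y682.XT.Val1
import Pool.Agent.Y687.Lval2
import Pool.Agent.H385R2.Gauss

/-!
# The values of the twisted `L`-functions
-/

set_option autoImplicit false

open Finset NumberField IsCyclotomicExtension.Rat H300.HW

namespace Pool.Agent.Y682.XT

open scoped Classical

open Pool.Agent.W97.MT (ap E14 II II_conj II_add_one II_zero_im)

section

variable {f : ℕ} [NeZero f]

/-- Gauss sums of even characters -/
lemma gauss_inv {ρ : DirichletCharacter ℂ f} (he : ρ (-1) = 1) :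
    (starRingEnd ℂ) (gaussSum ρ (ZMod.stdAddChar (N := f))) =
      gaussSum ρ⁻¹ (ZMod.stdAddChar (N := f)) := by
  unfold gaussSum
  rw [map_sum]
  refine Fintype.sum_equiv (Equiv.neg (ZMod f)) _ _ fun u => ?_
  rw [map_mul, Equiv.neg_apply, AddChar.map_neg_eq_conj]
  congr 1
  have h1 : (starRingEnd ℂ) (ρ u) = ρ⁻¹ u := MulChar.star_apply' ρ u
  rw [h1, ← neg_one_mul, map_mul]
  have h2 : ρ⁻¹ (-1) = 1 := by
    rw [MulChar.inv_apply_eq_inv', he, inv_one]
  rw [h2, one_mul]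

lemma gauss_mul {ρ : DirichletCharacter ℂ f} (hp : ρ.IsPrimitive) (he : ρ (-1) = 1) :
    gaussSum ρ (ZMod.stdAddChar (N := f)) * gaussSum ρ⁻¹ (ZMod.stdAddChar (N := f)) = f := by
  rw [← gauss_inv he, Complex.mul_conj, Complex.normSq_eq_norm_sq,
    H385.GaussAux.norm_sq_gaussSum hp]
  push_cast
  rfl

/-- the real part of the integrals -/
lemma II_re {s : ℚ → ℤ} {Op : ℝ} (hv : ∀ r : ℚ, (3 : ℝ) * (II r).re = s r * Op) (r : ℚ) :
    ((II r).re : ℂ) = (s r : ℂ) * Op / 3 := by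
  have h := hv r
  have h2 : (II r).re = s r * Op / 3 := by linarith
  rw [h2]
  push_cast
  ring

lemma II_sum {s : ℚ → ℤ} {Op : ℝ} (hv : ∀ r : ℚ, (3 : ℝ) * (II r).re = s r * Op)
    (hf : Odd f) (h1 : 1 < f) {ρ : DirichletCharacter ℂ f} (he : ρ (-1) = 1) :
    ∑ u : (ZMod f)ˣ, ρ (u : ZMod f) * II (((u : ZMod f).val : ℚ) / f) =
      (2 * Op / 3) * ∑ u ∈ PU f, ρ (u : ZMod f) * ((s (((u : ZMod f).val : ℚ) / f) : ℤ) : ℂ) := by
  have hH := isH_PU hf h1
  have hf0 : (f : ℚ) ≠ 0 := by exact_mod_cast NeZero.ne f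
  have h2 : (univ : Finset (ZMod f)ˣ) = PU f ∪ (PU f).image (fun u => -u) := by
    ext u
    simp only [mem_univ, mem_union, mem_image, true_iff]
    rcases hH.mem u with h | h
    · exact Or.inl h
    · exact Or.inr ⟨-u, h, neg_neg u⟩
  have h3 : Disjoint (PU f) ((PU f).image (fun u => -u)) := by
    rw [disjoint_left]
    intro u hu hu'
    rw [mem_image] at hu'
    obtain ⟨v, hv, rfl⟩ := hu'
    exact hH.neg v hv hu
  rw [h2, sum_union h3, sum_image (fun a _ b _ h => neg_injective h), ← sum_add_distrib, mul_sum]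
  refine sum_congr rfl fun u _ => ?_
  have h4 : II ((((-u : (ZMod f)ˣ) : ZMod f).val : ℚ) / f) =
      (starRingEnd ℂ) (II (((u : ZMod f).val : ℚ) / f)) := by
    rw [val_neg_unit h1, ← II_conj, ← II_add_one (-(((u : ZMod f).val : ℚ) / f))]
    congr 1
    rw [Nat.cast_sub (ZMod.val_lt (u : ZMod f)).le]
    field_simp
    ring
  have h5 : ρ ((-u : (ZMod f)ˣ) : ZMod f) = ρ (u : ZMod f) := by
    rw [Units.val_neg, ← neg_one_mul, map_mul, he, one_mul]
  rw [h4, h5]
  have h6 : II (((u : ZMod f).val : ℚ) / f) + (starRingEnd ℂ) (II (((u : ZMod f).val : ℚ) / f)) =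
      2 * ((II (((u : ZMod f).val : ℚ) / f)).re : ℂ) := by
    rw [Complex.add_conj]
    push_cast
    ring
  rw [← mul_add, h6, II_re hv]
  ring

end

section

variable {q : ℕ} [NeZero q]

/-- the twisted `L`-functions -/
theorem exists_GG (hco : q.Coprime 14) : ∃ G : DirichletCharacter ℂ q → ℂ → ℂ,
    ∀ χ : DirichletCharacter ℂ q, Differentiable ℂ (G χ) ∧
      (∀ s : ℂ, 3 / 2 < s.re → HasProd (fun p : Nat.Primes =>
        (1 - (ap E14 p : ℂ) * χ.primitiveCharacter p * (p : ℂ) ^ (-s) +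
          (if (p : ℕ) ∣ 14 then 0 else (p : ℂ)) * (χ.primitiveCharacter p) ^ 2 *
            (p : ℂ) ^ (-2 * s))⁻¹) (G χ s)) ∧
      (haveI : NeZero χ.conductor := ⟨χ.conductor_ne_zero⟩
      gaussSum (χ.primitiveCharacter)⁻¹ (ZMod.stdAddChar (N := χ.conductor)) * G χ 1 =
        ∑ u : (ZMod χ.conductor)ˣ, (χ.primitiveCharacter)⁻¹ (u : ZMod χ.conductor) *
          II (((u : ZMod χ.conductor).val : ℚ) / χ.conductor)) := by
  have h : ∀ χ : DirichletCharacter ℂ q, ∃ g : ℂ → ℂ, Differentiable ℂ g ∧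
      (∀ s : ℂ, 3 / 2 < s.re → HasProd (fun p : Nat.Primes =>
        (1 - (ap E14 p : ℂ) * χ.primitiveCharacter p * (p : ℂ) ^ (-s) +
          (if (p : ℕ) ∣ 14 then 0 else (p : ℂ)) * (χ.primitiveCharacter p) ^ 2 *
            (p : ℂ) ^ (-2 * s))⁻¹) (g s)) ∧
      (haveI : NeZero χ.conductor := ⟨χ.conductor_ne_zero⟩
      gaussSum (χ.primitiveCharacter)⁻¹ (ZMod.stdAddChar (N := χ.conductor)) * g 1 =
        ∑ u : (ZMod χ.conductor)ˣ, (χ.primitiveCharacter)⁻¹ (u : ZMod χ.conductor) *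
          II (((u : ZMod χ.conductor).val : ℚ) / χ.conductor)) := by
    intro χ
    have : NeZero χ.conductor := ⟨χ.conductor_ne_zero⟩
    exact Pool.Agent.Y687.exists_L (Nat.Coprime.coprime_dvd_left χ.conductor_dvd_level hco)
      χ.primitiveCharacter χ.primitiveCharacter_isPrimitive
  choose G hG using h
  exact ⟨G, hG⟩

/-- the value for the trivial character -/
lemma triv_val {s : ℚ → ℤ} {Op : ℝ} (hv : ∀ r : ℚ, (3 : ℝ) * (II r).re = s r * Op)
    {f : ℕ} [NeZero f] (hf : f = 1) (ρ : DirichletCharacter ℂ f) :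
    gaussSum ρ (ZMod.stdAddChar (N := f)) = 1 ∧
    ∑ u : (ZMod f)ˣ, ρ (u : ZMod f) * II (((u : ZMod f).val : ℚ) / f) = s 0 * Op / 3 := by
  subst hf
  have h1 : ρ = 1 := ρ.level_one
  subst h1
  constructor
  · unfold gaussSum
    rw [Fintype.sum_eq_single (0 : ZMod 1) (fun x hx => absurd (Subsingleton.elim x 0) hx)]
    rw [AddChar.map_zero_eq_one, mul_one]
    have : (0 : ZMod 1) = 1 := Subsingleton.elim _ _
    rw [this, map_one]
  · rw [Fintype.sum_eq_single (1 : (ZMod 1)ˣ) (fun x hx => absurd (Subsingleton.elim x 1) hx)]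
    have h2 : (((1 : (ZMod 1)ˣ) : ZMod 1)).val = 0 := by
      have : ((1 : (ZMod 1)ˣ) : ZMod 1) = 0 := Subsingleton.elim _ _
      rw [this, ZMod.val_zero]
    rw [h2, Units.val_one, map_one, one_mul]
    have h3 : (((0 : ℕ) : ℚ) / ((1 : ℕ) : ℚ)) = 0 := by norm_num
    rw [h3]
    have h4 := II_re hv 0
    rw [← h4]
    exact Complex.ext rfl (by rw [II_zero_im]; rfl)

end

end Pool.Agent.Y682.XT
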