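import Pool.Agent.Y682.XT.Stm
import Pool.Agent.Y682.NCl

/-!
# The 2-part of the Birch and Swinnerton-Dyer conjecture for `X_0(14)` over odd degree subfields of
cyclotomic fields: statements of the independent parts, II
-/

set_option autoImplicit false

open NumberField IsDedekindDomain WithZero

namespace Pool.Agent.Y682.XT

open Pool.Agent.W97.MT (E14 ap)

open scoped Classical

/-- INERT: inert primes in a subfield of a cyclotomic field. -/
def S_INERT : Prop := ∀ (n : ℕ) [NeZero n] (L : Type) [Field L] [NumberField L]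
  [IsCyclotomicExtension {n} ℚ L] (F : IntermediateField ℚ L) (p : ℕ) (c : (ZMod n)ˣ),
  p.Prime → (c : ZMod n) = p →
  ((Ideal.span {(p : 𝓞 F)}).IsPrime ↔ ∀ x : (ZMod n)ˣ, ∃ i : ℕ,
    (IsCyclotomicExtension.Rat.galEquivZMod n L).symm (c ^ i * x⁻¹) ∈ F.fixingSubgroup)

/-- THREE: the signs of the cyclotomic units of level `3 ^ n`. -/
def S_THREE : Prop := ∀ (n : ℕ) (k : Type) [Field k] [CharP k 2] (ψ : (ZMod (3 ^ n))ˣ →* k),
  ψ (-1) = 1 → ψ ≠ 1 →
  ∑ z ∈ Finset.univ.filter (fun z : (ZMod (3 ^ n))ˣ => 2 * (z : ZMod (3 ^ n)).val < 3 ^ n),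
    ψ z * ((z : ZMod (3 ^ n)).val : k) ≠ 0

/-- TOR: the 2-part of the torsion of `X_0(14)` over a number field of odd degree. -/
def S_TOR : Prop := ∀ (K : Type) [Field K] [NumberField K], Odd (Module.finrank ℚ K) →
  Finite (E14.map (Int.castRingHom K)).toAffine.Point →
  padicValNat 2 (Nat.card (E14.map (Int.castRingHom K)).toAffine.Point) = 1

/-- MIN: the equation of `X_0(14)` is minimal at all the finite places of every number field. -/
def S_MINI : Prop := ∀ (K : Type) [Field K] [NumberField K] (v : HeightOneSpectrum (𝓞 K))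
  (C : WeierstrassCurve.VariableChange K),
  v.valuation K (C • E14.map (Int.castRingHom K)).a₁ ≤ 1 →
  v.valuation K (C • E14.map (Int.castRingHom K)).a₂ ≤ 1 →
  v.valuation K (C • E14.map (Int.castRingHom K)).a₃ ≤ 1 →
  v.valuation K (C • E14.map (Int.castRingHom K)).a₄ ≤ 1 →
  v.valuation K (C • E14.map (Int.castRingHom K)).a₆ ≤ 1 →
  v.valuation K (C • E14.map (Int.castRingHom K)).Δ ≤
    v.valuation K (E14.map (Int.castRingHom K)).Δ

/-- TAMK: the product of the Tamagawa numbers. -/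
def S_TAMK : Prop := ∀ (K : Type) [Field K] [NumberField K], Odd (Module.finrank ℚ K) →
  (Ideal.span {((2 : ℕ) : 𝓞 K)}).IsPrime → (Ideal.span {((7 : ℕ) : 𝓞 K)}).IsPrime →
  {v : HeightOneSpectrum (𝓞 K) | (E0 (v.adicCompletion K) Valued.v).index ≠ 1}.Finite ∧
  padicValNat 2 (∏ᶠ v : HeightOneSpectrum (𝓞 K), (E0 (v.adicCompletion K) Valued.v).index) = 1

/-- DSC: the descent. -/
def S_DSC : Prop := ∀ (K : Type) [Field K] [NumberField K], (∀ w : InfinitePlace K, w.IsReal) →
  Odd (Nat.card (Y682.NCl K)) →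
  (Ideal.span {((2 : ℕ) : 𝓞 K)}).IsPrime → (Ideal.span {((7 : ℕ) : 𝓞 K)}).IsPrime →
  Finite (E14.map (Int.castRingHom K)).toAffine.Point ∧
    ∀ x : Pool.Agent.TH841.NF.D.Sha (E14.map (Int.castRingHom K)), 2 • x = 0 → x = 0

end Pool.Agent.Y682.XT
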