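import Pool.Agent.Y682.XT.Stm2
import Pool.Agent.Y682.AMF
import Pool.Agent.Y682.Rk
import Pool.Agent.Y655.XT.Shavc

/-!
# The descent for `X_0(14)`
-/

set_option autoImplicit false

open NumberField IsDedekindDomain WithZero

namespace Pool.Agent.Y682.XT

open Pool.Agent.W97.MT (E14 ap)

open scoped Classical

section

variable {K : Type} [Field K] [NumberField K]

/-- the change of variables -/
noncomputable def CV (K : Type) [Field K] [NumberField K] : WeierstrassCurve.VariableChange K :=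
  ⟨Units.mk0 (1 / 2) (by norm_num), 1, -1 / 2, -1⟩

lemma cv_eq : CV K • E14.map (Int.castRingHom K) = Y682.wc 13 128 := by
  have hu : ((CV K).u⁻¹ : Kˣ) = Units.mk0 (2 : K) two_ne_zero := by
    unfold CV
    apply Units.ext
    simp
  unfold Y682.wc
  ext
  · rw [WeierstrassCurve.variableChange_a₁, hu]
    simp only [CV, E14, WeierstrassCurve.map, eq_intCast, Units.val_mk0]
    push_cast
    ring
  · rw [WeierstrassCurve.variableChange_a₂, hu]
    simp only [CV, E14, WeierstrassCurve.map, eq_intCast, Units.val_mk0]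
    push_cast
    ring
  · rw [WeierstrassCurve.variableChange_a₃, hu]
    simp only [CV, E14, WeierstrassCurve.map, eq_intCast, Units.val_mk0]
    push_cast
    ring
  · rw [WeierstrassCurve.variableChange_a₄, hu]
    simp only [CV, E14, WeierstrassCurve.map, eq_intCast, Units.val_mk0]
    push_cast
    ring
  · rw [WeierstrassCurve.variableChange_a₆, hu]
    simp only [CV, E14, WeierstrassCurve.map, eq_intCast, Units.val_mk0]
    push_cast
    ring

lemma disc_ne : (E14.map (Int.castRingHom K)).Δ ≠ 0 := by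
  have h : E14.Δ = -21952 := by
    simp only [E14, WeierstrassCurve.Δ, WeierstrassCurve.b₂, WeierstrassCurve.b₄,
      WeierstrassCurve.b₆, WeierstrassCurve.b₈]
    norm_num
  rw [WeierstrassCurve.map_Δ, h]
  push_cast
  norm_num

/-- a place above an inert prime -/
lemma place_unique {p : ℕ} (hp : p.Prime) (h : (Ideal.span {((p : ℕ) : 𝓞 K)}).IsPrime) :
    ∃ v : HeightOneSpectrum (𝓞 K), v.asIdeal = Ideal.span {((p : ℕ) : 𝓞 K)} ∧
      ∀ w : HeightOneSpectrum (𝓞 K), ((p : ℕ) : 𝓞 K) ∈ w.asIdeal ↔ w = v := by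
  have hne : (Ideal.span {((p : ℕ) : 𝓞 K)}) ≠ ⊥ := by
    rw [Ne, Ideal.span_singleton_eq_bot]
    exact_mod_cast hp.ne_zero
  refine ⟨⟨_, h, hne⟩, rfl, fun w => ⟨fun hw => ?_, fun hw => ?_⟩⟩
  · have hmax : (Ideal.span {((p : ℕ) : 𝓞 K)}).IsMaximal := h.isMaximal hne
    apply HeightOneSpectrum.ext
    exact (hmax.eq_of_le w.isPrime.ne_top ((Ideal.span_singleton_le_iff_mem _).2 hw)).symm
  · rw [hw]
    exact Ideal.mem_span_singleton_self _

theorem s_dsc : S_DSC := by
  intro K _ _ hre hN h2 h7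
  obtain ⟨v2, hv2, hu2⟩ := place_unique Nat.prime_two h2
  obtain ⟨v7, hv7, hu7⟩ := place_unique (by norm_num : Nat.Prime 7) h7
  have hne27 : ∀ w : HeightOneSpectrum (𝓞 K), ¬ (((2 : ℕ) : 𝓞 K) ∈ w.asIdeal ∧
      ((7 : ℕ) : 𝓞 K) ∈ w.asIdeal) := by
    rintro w ⟨a, b⟩
    apply w.isPrime.ne_top
    rw [Ideal.eq_top_iff_one]
    have : (1 : 𝓞 K) = ((7 : ℕ) : 𝓞 K) - 3 * ((2 : ℕ) : 𝓞 K) := by push_cast; norm_num
    rw [this]
    exact Ideal.sub_mem _ b (Ideal.mul_mem_left _ _ a)
  have hnr : InfinitePlace.nrComplexPlaces K = 0 := by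
    rw [InfinitePlace.nrComplexPlaces, Fintype.card_eq_zero_iff]
    exact ⟨fun w => InfinitePlace.not_isReal_iff_isComplex.2 w.2 (hre w.1)⟩
  have e8 : ((8 : 𝓞 K) : K) = 8 := map_ofNat (algebraMap (𝓞 K) K) 8
  have e13 : ((13 : 𝓞 K) : K) = 13 := map_ofNat (algebraMap (𝓞 K) K) 13
  have key := Y682.bound_final (K := K) 13 8 1 3 (by norm_num) (by norm_num) (by norm_num)
    (fun φ => by
      rw [e8, e13, map_ofNat, map_ofNat]
      exact ⟨by norm_num, Or.inr (by norm_num)⟩)
    {v2} {v7} ?_ ?_ ?_ (P := 13) (Q := 128) (Or.inl ⟨?_, ?_⟩)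
  · obtain ⟨hf, hb⟩ := key
    have hNC : Nat.card {g : Y682.NCl K // g ^ 2 = 1} = 1 := by
      rw [Nat.card_eq_one_iff_unique]
      refine ⟨⟨fun x y => ?_⟩, ⟨⟨1, one_pow 2⟩⟩⟩
      have hone : ∀ x : {g : Y682.NCl K // g ^ 2 = 1}, x.1 = 1 := by
        rintro ⟨g, hg⟩
        have h3 : orderOf g ∣ 2 := orderOf_dvd_of_pow_eq_one hg
        have h4 : orderOf g ∣ Nat.card (Y682.NCl K) := orderOf_dvd_natCard g
        rcases (Nat.dvd_prime Nat.prime_two).1 h3 with h5 | h5
        · exact orderOf_eq_one_iff.1 h5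
        · rw [h5] at h4
          exact absurd hN (by rw [Nat.not_odd_iff_even]; exact even_iff_two_dvd.2 h4)
      exact Subtype.ext ((hone x).trans (hone y).symm)
    rw [hnr, hNC, Finset.card_singleton, Finset.card_singleton] at hb
    set X := Nat.card {x : Pool.Agent.TH841.NF.D.Sha (Y682.wc (13 : K) 128) // 2 • x = 0} with hX
    set r := Pool.Agent.TH841.NF.D.rk (Y682.wc (13 : K) 128) with hr
    have hX0 : 0 < X := Nat.card_pos_iff.2 ⟨⟨⟨0, smul_zero 2⟩⟩, hf⟩
    have hb' : 2 ^ r * X ≤ 1 := by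
      have : 4 * (2 ^ r * X) ≤ 4 * 1 := by
        calc 4 * (2 ^ r * X) = 4 * 2 ^ r * X := by ring
          _ ≤ 2 ^ (0 + 1 + 1) * 1 ^ 2 := hb
          _ = 4 * 1 := by norm_num
      omega
    have h2r : 0 < 2 ^ r := by positivity
    have hX1 : X = 1 := by nlinarith
    have hr0 : r = 0 := by
      rw [hX1, mul_one] at hb'
      by_contra h0
      have : 2 ≤ 2 ^ r := by
        calc 2 = 2 ^ 1 := by norm_num
          _ ≤ 2 ^ r := Nat.pow_le_pow_right (by norm_num) (by omega)
      omega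
    obtain ⟨⟨e1⟩, ⟨e2⟩⟩ := Pool.Agent.Y655.XT.s_shavc K (E14.map (Int.castRingHom K))
      (Y682.wc 13 128) (CV K) disc_ne cv_eq
    constructor
    · -- finiteness
      have hfg := Y682.fg_MP (Y682.wc_isT (A := (13 : K)) (B := 128) (by norm_num) (by norm_num))
      have hfin : Finite (Y682.MP (Y682.wc (13 : K) 128)) := by
        refine Module.finite_of_fg_torsion _ ?_
        rw [← Module.finrank_eq_zero_iff_isTorsion]
        exact hr0
      have hfin' : Finite (Y682.wc (13 : K) 128).toAffine.Point := hfin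
      exact Finite.of_equiv _ e1.toEquiv.symm
    · intro x hx
      have h3 : ∀ y : Pool.Agent.TH841.NF.D.Sha (Y682.wc (13 : K) 128), 2 • y = 0 → y = 0 := by
        intro y hy
        have h4 := (Nat.card_eq_one_iff_unique.1 hX1).1
        exact congrArg Subtype.val (h4.elim ⟨y, hy⟩ ⟨0, smul_zero 2⟩)
      have h4 := h3 (e2 x) (by rw [← map_nsmul, hx, map_zero])
      exact (map_eq_zero_iff e2 e2.injective).1 h4
  · intro v hv
    left
    intro h8
    apply hv
    rw [Finset.mem_singleton, ← hu2]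
    have : (8 : 𝓞 K) = ((2 : ℕ) : 𝓞 K) ^ 3 := by push_cast; norm_num
    rw [this] at h8
    exact v.isPrime.mem_of_pow_mem 3 h8
  · intro v hv
    left
    intro h8
    apply hv
    rw [Finset.mem_singleton, ← hu7]
    have : (13 : 𝓞 K) ^ 2 - 64 * 8 = -((7 : ℕ) : 𝓞 K) ^ 3 := by push_cast; norm_num
    rw [this, neg_mem_iff] at h8
    exact v.isPrime.mem_of_pow_mem 3 h8
  · intro v hv h2v
    rw [Finset.mem_singleton] at hv
    exact hne27 v ⟨by exact_mod_cast h2v, (hu7 v).2 hv⟩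
  · rw [e13]
  · rw [e8]; norm_num

end

end Pool.Agent.Y682.XT
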