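import Pool.Agent.Y682.XT.Stm

/-!
# Distribution relations between the levels `f ∣ q` with the same prime divisors
-/

set_option autoImplicit false

open Finset

namespace Pool.Agent.Y682.XT

lemma prim_unit {n : ℕ} [NeZero n] (χ : DirichletCharacter ℂ n) (u : (ZMod n)ˣ) :
    χ (u : ZMod n) = χ.primitiveCharacter
      ((ZMod.unitsMap χ.conductor_dvd_level u : (ZMod χ.conductor)ˣ) : ZMod χ.conductor) := by
  conv_lhs => rw [← χ.changeLevel_primitiveCharacter]
  rw [DirichletCharacter.changeLevel_eq_cast_of_dvd, ZMod.unitsMap_val]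

section fib

variable {q f : ℕ} [NeZero q] [NeZero f] (hf : f ∣ q)
  (hs : ∀ p : ℕ, p.Prime → p ∣ q → p ∣ f)

lemma unitsMap_mod (b : (ZMod q)ˣ) :
    ((ZMod.unitsMap hf b : (ZMod f)ˣ) : ZMod f).val = (b : ZMod q).val % f := by
  rw [ZMod.unitsMap_val, ZMod.cast_eq_val, ZMod.val_natCast]

include hs in
/-- a sum over a fibre of the reduction -/
lemma fiber_sum {A : Type*} [AddCommMonoid A] (c : (ZMod f)ˣ) (F : ℕ → A) :
    ∑ b ∈ univ.filter (fun b : (ZMod q)ˣ => ZMod.unitsMap hf b = c), F (b : ZMod q).val =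
      ∑ k ∈ range (q / f), F ((c : ZMod f).val + k * f) := by
  classical
  have hq0 : 0 < q := Nat.pos_of_ne_zero (NeZero.ne q)
  have hf0 : 0 < f := Nat.pos_of_ne_zero (NeZero.ne f)
  have hqf : q / f * f = q := Nat.div_mul_cancel hf
  have hcop : ∀ k : ℕ, Nat.Coprime ((c : ZMod f).val + k * f) q := by
    intro k
    apply Nat.coprime_of_dvd
    intro p hp h1 h2
    have h3 := hs p hp h2
    have h4 : p ∣ (c : ZMod f).val := (Nat.dvd_add_left (Dvd.dvd.mul_left h3 k)).1 h1
    have h5 := ZMod.val_coe_unit_coprime c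
    exact hp.one_lt.ne' (Nat.dvd_one.1 (h5 ▸ Nat.dvd_gcd h4 h3))
  refine sum_bij' (fun b _ => (b : ZMod q).val / f)
    (fun k _ => ZMod.unitOfCoprime _ (hcop k)) ?_ ?_ ?_ ?_ ?_
  · intro b _
    rw [mem_range]
    exact (Nat.div_lt_iff_lt_mul hf0).2 (by rw [hqf]; exact ZMod.val_lt _)
  · intro k hk
    rw [mem_range] at hk
    rw [mem_filter]
    refine ⟨mem_univ _, ?_⟩
    apply Units.ext
    apply ZMod.val_injective
    rw [unitsMap_mod, ZMod.coe_unitOfCoprime, ZMod.val_natCast, Nat.mod_mod_of_dvd _ hf,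
      Nat.add_mul_mod_self_right, Nat.mod_eq_of_lt (ZMod.val_lt _)]
  · intro b hb
    rw [mem_filter] at hb
    apply Units.ext
    apply ZMod.val_injective
    rw [ZMod.coe_unitOfCoprime, ZMod.val_natCast]
    have h1 : (c : ZMod f).val = (b : ZMod q).val % f := by rw [← hb.2, unitsMap_mod]
    rw [h1, mul_comm, Nat.mod_add_div, Nat.mod_eq_of_lt (ZMod.val_lt _)]
  · intro k hk
    rw [mem_range] at hk
    simp only [ZMod.coe_unitOfCoprime, ZMod.val_natCast]
    have h1 : (c : ZMod f).val + k * f < q := by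
      have h2 := ZMod.val_lt (c : ZMod f)
      calc (c : ZMod f).val + k * f < f + k * f := by omega
        _ = (k + 1) * f := by ring
        _ ≤ q / f * f := Nat.mul_le_mul_right f hk
        _ = q := hqf
    rw [Nat.mod_eq_of_lt h1, Nat.add_mul_div_right _ _ hf0, Nat.div_eq_of_lt (ZMod.val_lt _),
      zero_add]
  · intro b hb
    rw [mem_filter] at hb
    have h1 : (c : ZMod f).val = (b : ZMod q).val % f := by rw [← hb.2, unitsMap_mod]
    rw [h1, mul_comm, Nat.mod_add_div]

include hs in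
/-- the distribution relation of the logarithms -/
lemma lg_dist (hf1 : 1 < f) (c : (ZMod f)ˣ) :
    ∑ b ∈ univ.filter (fun b : (ZMod q)ˣ => ZMod.unitsMap hf b = c), lg q (b : ZMod q) =
      lg f (c : ZMod f) := by
  classical
  have hq0 : 0 < q := Nat.pos_of_ne_zero (NeZero.ne q)
  have hf0 : 0 < f := by omega
  obtain ⟨r, hr⟩ := hf
  have hr0 : 0 < r := Nat.pos_of_ne_zero (by rintro rfl; omega)
  have : NeZero r := ⟨hr0.ne'⟩
  have hdiv : q / f = r := by rw [hr]; exact Nat.mul_div_cancel_left r hf0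
  have h1 := fiber_sum ⟨r, hr⟩ hs c
    (fun x => Real.log ‖1 - Complex.exp (2 * Real.pi * Complex.I * (x : ℂ) / q)‖)
  unfold lg
  rw [h1, hdiv]
  have hqC : (q : ℂ) ≠ 0 := by exact_mod_cast hq0.ne'
  have hfC : (f : ℂ) ≠ 0 := by exact_mod_cast hf0.ne'
  have hrC : (r : ℂ) ≠ 0 := by exact_mod_cast hr0.ne'
  have hqr : (q : ℂ) = f * r := by rw [hr]; push_cast; ring
  -- the primitive `r`-th root of unity
  set ω : ℂ := Complex.exp (2 * Real.pi * Complex.I / r) with hω
  have hωp : IsPrimitiveRoot ω r := Complex.isPrimitiveRoot_exp r hr0.ne'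
  set x : ℂ := Complex.exp (2 * Real.pi * Complex.I * ((c : ZMod f).val : ℂ) / q) with hx
  have hterm : ∀ k : ℕ, Complex.exp (2 * Real.pi * Complex.I *
      (((c : ZMod f).val + k * f : ℕ) : ℂ) / q) = ω ^ k * x := by
    intro k
    rw [hω, hx, ← Complex.exp_nat_mul, ← Complex.exp_add]
    congr 1
    push_cast
    rw [hqr]
    field_simp
    ring
  have hxr : x ^ r = Complex.exp (2 * Real.pi * Complex.I * ((c : ZMod f).val : ℂ) / f) := by
    rw [hx, ← Complex.exp_nat_mul]
    congr 1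
    rw [hqr]
    field_simp
  have hprod : ∏ k ∈ range r, (1 - ω ^ k * x) = 1 - x ^ r := by
    have h2 := hωp.pow_sub_pow_eq_prod_sub_mul 1 x hr0
    rw [one_pow] at h2
    rw [h2]
    have h3 : Polynomial.nthRootsFinset r (1 : ℂ) = (range r).image (fun k => ω ^ k) := by
      ext z
      rw [Polynomial.mem_nthRootsFinset hr0, mem_image]
      constructor
      · intro hz
        obtain ⟨i, hi, hiz⟩ := hωp.eq_pow_of_pow_eq_one hz
        exact ⟨i, mem_range.2 hi, hiz⟩
      · rintro ⟨k, _, rfl⟩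
        rw [← pow_mul, mul_comm, pow_mul, hωp.pow_eq_one, one_pow]
    rw [h3, prod_image]
    intro i hi j hj hij
    exact hωp.pow_inj (mem_range.1 hi) (mem_range.1 hj) hij
  have hne : x ^ r ≠ 1 := by
    rw [hxr]
    intro h
    rw [Complex.exp_eq_one_iff] at h
    obtain ⟨n, hn⟩ := h
    have h2 : ((c : ZMod f).val : ℂ) = n * f := by
      field_simp at hn
      linear_combination hn
    have h4 : (((c : ZMod f).val : ℤ)) = n * f := by exact_mod_cast h2
    have h5 : (f : ℤ) ∣ ((c : ZMod f).val : ℤ) := ⟨n, by rw [h4]; ring⟩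
    have h6 : f ∣ (c : ZMod f).val := by exact_mod_cast h5
    have h7 := ZMod.val_coe_unit_coprime c
    have h8 : f ∣ 1 := h7 ▸ Nat.dvd_gcd h6 (dvd_refl f)
    exact hf1.ne' (Nat.dvd_one.1 h8)
  rw [← hxr, ← hprod, norm_prod, Real.log_prod]
  · refine sum_congr rfl fun k _ => ?_
    rw [hterm]
  · intro k hk h0
    rw [norm_eq_zero] at h0
    apply hne
    have h2 : ∏ k ∈ range r, (1 - ω ^ k * x) = 0 := prod_eq_zero hk h0
    rw [hprod] at h2
    linear_combination -h2

end fib

/-- the character sums at the level of the conductor -/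
lemma char_lg {q : ℕ} [NeZero q] (χ : DirichletCharacter ℂ q) (hc : χ.conductor ≠ 1)
    (hs : ∀ p : ℕ, p.Prime → p ∣ q → p ∣ χ.conductor) :
    haveI : NeZero χ.conductor := ⟨χ.conductor_ne_zero⟩
    ∑ b : (ZMod q)ˣ, χ (b : ZMod q) * (lg q (b : ZMod q) : ℂ) =
      ∑ c : (ZMod χ.conductor)ˣ, χ.primitiveCharacter (c : ZMod χ.conductor) *
        (lg χ.conductor (c : ZMod χ.conductor) : ℂ) := by
  classical
  have : NeZero χ.conductor := ⟨χ.conductor_ne_zero⟩
  have hf := χ.conductor_dvd_level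
  have h1 : 1 < χ.conductor := by
    have := χ.conductor_ne_zero
    omega
  show _ = _
  rw [← sum_fiberwise univ (fun b : (ZMod q)ˣ => ZMod.unitsMap hf b)]
  refine sum_congr rfl fun c _ => ?_
  rw [← lg_dist hf hs h1 c]
  push_cast
  rw [mul_sum]
  refine sum_congr rfl fun b hb => ?_
  rw [mem_filter] at hb
  rw [prim_unit χ b, hb.2]

end Pool.Agent.Y682.XT
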