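import Pool.Agent.Y682.XT.Emb
import Pool.Agent.Y682.XT.Dst

/-!
# The class number formula for the cyclotomic units
-/

set_option autoImplicit false

open NumberField IsCyclotomicExtension.Rat H300.HW NumberField.InfinitePlace Finset

namespace Pool.Agent.Y682.XT

open scoped Classical

lemma log_th (q : ℕ) [NeZero q] (x : ZMod q) : Real.log |th q x| = lg q x := by
  unfold th lg
  congr 1
  rw [abs_mul, abs_pow, abs_neg, abs_one, one_pow, one_mul]
  have h := Complex.norm_exp_I_mul_ofReal_sub_one (2 * Real.pi * x.val / q)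
  rw [norm_sub_rev]
  have e1 : (2 * (Real.pi : ℂ) * Complex.I * (x.val : ℂ) / q) =
      Complex.I * ((2 * Real.pi * x.val / q : ℝ) : ℂ) := by push_cast; ring
  rw [e1, h, Real.norm_eq_abs]
  congr 3
  ring

lemma th_neg (q : ℕ) [NeZero q] (hq : Odd q) {x : ZMod q} (hx : x ≠ 0) : th q (-x) = -th q x := by
  unfold th
  have hv : (-x).val = q - x.val := by
    rw [ZMod.neg_val, if_neg hx]
  have hlt := ZMod.val_lt x
  have hq0 : (q : ℝ) ≠ 0 := by exact_mod_cast NeZero.ne q
  rw [hv, Nat.cast_sub hlt.le]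
  have h1 : Real.sin (Real.pi * ((q : ℝ) - x.val) / q) = Real.sin (Real.pi * x.val / q) := by
    rw [show Real.pi * ((q : ℝ) - x.val) / q = Real.pi - Real.pi * x.val / q by field_simp,
      Real.sin_pi_sub]
  rw [h1]
  have h2 : (-1 : ℝ) ^ (q - x.val) = -(-1) ^ x.val := by
    have h3 : (-1 : ℝ) ^ (q - x.val) * (-1) ^ x.val = -1 := by
      rw [← pow_add, Nat.sub_add_cancel hlt.le, hq.neg_one_pow]
    rcases neg_one_pow_eq_or ℝ x.val with h4 | h4 <;> rw [h4] at h3 ⊢ <;> linarith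
  rw [h2]
  ring

lemma lg_neg (q : ℕ) [NeZero q] (hq : Odd q) (x : ZMod q) : lg q (-x) = lg q x := by
  rcases eq_or_ne x 0 with rfl | hx
  · rw [neg_zero]
  · rw [← log_th, ← log_th, th_neg q hq hx, abs_neg]

section

variable {q : ℕ} [NeZero q] {L : Type} [Field L] [NumberField L] [IsCyclotomicExtension {q} ℚ L]
  {K : IntermediateField ℚ L} {φ : L →+* ℂ}

variable (q L K) in
/-- half the logarithm of the norm of `1 - ζ` -/
noncomputable def ff (g : GG q L K) : ℝ :=
  (∑ c ∈ univ.filter (fun c : (ZMod q)ˣ => (mkG q L K c) = g),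
    lg q (c : ZMod q)) / 2

variable (q L K) in
/-- `R` is a half system of `HH` -/
structure IsHalf (R : Finset (ZMod q)ˣ) : Prop where
  mem : ∀ a : (ZMod q)ˣ, (a ∈ R ∨ -a ∈ R) ↔ a ∈ HH q L K
  neg : ∀ a ∈ R, -a ∉ R

variable (q L K) in
lemma exists_half (hq : Odd q) (h1 : 1 < q) (hre : IsRe q L K) :
    ∃ R : Finset (ZMod q)ˣ, IsHalf q L K R := by
  refine ⟨univ.filter (fun a => a ∈ HH q L K ∧ 2 * (a : ZMod q).val < q), ?_, ?_⟩
  · intro a
    have hnegmem : ∀ a : (ZMod q)ˣ, -a ∈ HH q L K → a ∈ HH q L K := by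
      intro a ha
      have h2 := (HH q L K).mul_mem hre ha
      rwa [neg_one_mul, neg_neg] at h2
    have hne : (a : ZMod q) ≠ 0 := by
      have : Nontrivial (ZMod q) := by
        have : Fact (1 < q) := ⟨h1⟩
        infer_instance
      exact a.ne_zero
    have hv : ((-a : (ZMod q)ˣ) : ZMod q).val = q - (a : ZMod q).val := by
      rw [Units.val_neg, ZMod.neg_val, if_neg hne]
    simp only [mem_filter, mem_univ, true_and]
    constructor
    · rintro (h | h)
      · exact h.1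
      · exact hnegmem a h.1
    · intro h
      have hlt := ZMod.val_lt (a : ZMod q)
      obtain ⟨k, hk⟩ := hq
      by_cases h2 : 2 * (a : ZMod q).val < q
      · exact Or.inl ⟨h, h2⟩
      · right
        refine ⟨?_, ?_⟩
        · have h3 := (HH q L K).mul_mem hre h
          rwa [neg_one_mul] at h3
        · rw [hv]
          omega
  · intro a ha hna
    have hne : (a : ZMod q) ≠ 0 := by
      have : Nontrivial (ZMod q) := by
        have : Fact (1 < q) := ⟨h1⟩
        infer_instance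
      exact a.ne_zero
    have hv : ((-a : (ZMod q)ˣ) : ZMod q).val = q - (a : ZMod q).val := by
      rw [Units.val_neg, ZMod.neg_val, if_neg hne]
    simp only [mem_filter, mem_univ, true_and] at ha hna
    rw [hv] at hna
    have hlt := ZMod.val_lt (a : ZMod q)
    omega

/-- sums over a half system -/
lemma half_sum {R : Finset (ZMod q)ˣ} (hR : IsHalf q L K R) {A : Type*} [AddCommGroup A]
    (F : (ZMod q)ˣ → A) (hF : ∀ x, F (-x) = F x) (c : (ZMod q)ˣ) :
    ∑ b ∈ univ.filter (fun b : (ZMod q)ˣ => (mkG q L K b) = mkG q L K c),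
      F b = 2 • ∑ a ∈ R, F (c * a) := by
  have h1 : univ.filter (fun b : (ZMod q)ˣ => (mkG q L K b) =
      mkG q L K c) = R.image (fun a => c * a) ∪ R.image (fun a => -(c * a)) := by
    ext b
    simp only [mem_filter, mem_univ, true_and, mem_union, mem_image]
    rw [eq_comm, mkG_eq, ← hR.mem]
    constructor
    · rintro (h | h)
      · exact Or.inl ⟨_, h, by rw [mul_inv_cancel_left]⟩
      · exact Or.inr ⟨_, h, by rw [mul_neg, neg_neg, mul_inv_cancel_left]⟩
    · rintro (⟨a, ha, rfl⟩ | ⟨a, ha, rfl⟩)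
      · left; rwa [inv_mul_cancel_left]
      · right; rwa [mul_neg, neg_neg, inv_mul_cancel_left]
  rw [h1, sum_union, sum_image, sum_image, two_nsmul]
  · congr 1
    exact sum_congr rfl fun a _ => hF _
  · intro a _ b _ h
    exact mul_left_cancel (neg_injective h)
  · intro a _ b _ h
    exact mul_left_cancel h
  · rw [disjoint_left]
    intro b hb hb'
    rw [mem_image] at hb hb'
    obtain ⟨a, ha, rfl⟩ := hb
    obtain ⟨a', ha', h⟩ := hb'
    have h2 : a = -a' := by
      rw [← mul_neg] at h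
      exact (mul_left_cancel h).symm
    exact hR.neg a' ha' (h2 ▸ ha)

lemma ff_mk (hq : Odd q) {R : Finset (ZMod q)ˣ} (hR : IsHalf q L K R) (c : (ZMod q)ˣ) :
    ff q L K (mkG q L K c) = ∑ a ∈ R, lg q ((c * a : (ZMod q)ˣ) : ZMod q) := by
  unfold ff
  rw [half_sum hR (fun x => lg q (x : ZMod q)) (fun x => by rw [Units.val_neg, lg_neg q hq])]
  rw [two_nsmul]
  ring

/-- the conjugates of the cyclotomic units -/
def IsCyc (R : Finset (ZMod q)ˣ) (φ : L →+* ℂ) (U : (ZMod q)ˣ → (𝓞 K)ˣ) : Prop :=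
  ∀ b c : (ZMod q)ˣ, emb q L K φ c ((U b : 𝓞 K) : K) =
    ((∏ a ∈ R, th q ((c * b * a : (ZMod q)ˣ) : ZMod q) / th q ((c * a : (ZMod q)ˣ) : ZMod q) :
      ℝ) : ℂ)

lemma exists_cyc (hun : S_UNITS) (hq : Odd q) (h1 : 1 < q) (hre : IsRe q L K)
    (hφ : φ ((zz q L : 𝓞 L) : L) = Complex.exp (2 * Real.pi * Complex.I / q))
    {R : Finset (ZMod q)ˣ} (hR : IsHalf q L K R) : ∃ U : (ZMod q)ˣ → (𝓞 K)ˣ, IsCyc R φ U := by
  have h := hun q hq h1 L K φ hφ hre R hR.mem hR.neg
  choose U hU using h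
  exact ⟨U, fun b c => hU b c⟩

lemma th_ne (h1 : 1 < q) (c : (ZMod q)ˣ) : th q (c : ZMod q) ≠ 0 := by
  have hne : (c : ZMod q) ≠ 0 := by
    have : Nontrivial (ZMod q) := by
      have : Fact (1 < q) := ⟨h1⟩
      infer_instance
    exact c.ne_zero
  unfold th
  have hq0 : (0 : ℝ) < q := by exact_mod_cast (by omega : 0 < q)
  have hv : 0 < (c : ZMod q).val := Nat.pos_of_ne_zero (fun h => hne ((ZMod.val_eq_zero _).1 h))
  have hlt := ZMod.val_lt (c : ZMod q)
  have h2 : 0 < Real.sin (Real.pi * (c : ZMod q).val / q) := by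
    apply Real.sin_pos_of_pos_of_lt_pi
    · have : (0 : ℝ) < (c : ZMod q).val := by exact_mod_cast hv
      have := Real.pi_pos
      positivity
    · rw [div_lt_iff₀ hq0]
      have : ((c : ZMod q).val : ℝ) < q := by exact_mod_cast hlt
      exact mul_lt_mul_of_pos_left this Real.pi_pos
  exact mul_ne_zero (pow_ne_zero _ (by norm_num)) (by positivity)

lemma log_pl (hq : Odd q) (h1 : 1 < q) {R : Finset (ZMod q)ˣ} (hR : IsHalf q L K R)
    {U : (ZMod q)ˣ → (𝓞 K)ˣ} (hU : IsCyc R φ U) (b c : (ZMod q)ˣ) :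
    Real.log (pl q L K φ c ((U b : 𝓞 K) : K)) =
      ff q L K (mkG q L K (c * b)) - ff q L K (mkG q L K c) := by
  rw [pl_apply, hU b c, Complex.norm_real, Real.norm_eq_abs, Finset.abs_prod, Real.log_prod,
    ff_mk hq hR, ff_mk hq hR, ← sum_sub_distrib]
  · refine sum_congr rfl fun a _ => ?_
    rw [abs_div, Real.log_div (abs_ne_zero.2 (th_ne h1 _)) (abs_ne_zero.2 (th_ne h1 _)), log_th,
      log_th]
  · intro a _
    exact abs_ne_zero.2 (div_ne_zero (th_ne h1 _) (th_ne h1 _))

end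

end Pool.Agent.Y682.XT
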