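import Pool.Agent.Y682.XT.Val3
import Pool.Agent.Y682.XT.Stm2

/-!
# Prime power conductor
-/

set_option autoImplicit false

open NumberField IsCyclotomicExtension.Rat H300.HW NumberField.InfinitePlace Finset

namespace Pool.Agent.Y682.XT

open scoped Classical

section

variable {q : ℕ} [NeZero q] {L : Type} [Field L] [NumberField L] [IsCyclotomicExtension {q} ℚ L]
  {K : IntermediateField ℚ L}

/-- in a group of odd order every element is a power of its square -/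
lemma mem_sq {G : Type*} [Group G] (hG : Odd (Nat.card G)) (x : G) :
    x ∈ Subgroup.zpowers (x ^ 2) := by
  obtain ⟨j, hj⟩ := hG
  have h1 : x ^ (Nat.card G) = 1 := pow_card_eq_one'
  refine ⟨(j + 1 : ℕ), ?_⟩
  show (x ^ 2) ^ ((j + 1 : ℕ) : ℤ) = x
  rw [zpow_natCast, ← pow_mul, show 2 * (j + 1) = (2 * j + 1) + 1 by ring, ← hj, pow_succ, h1,
    one_mul]

lemma re_of_odd (hodd : Odd (Module.finrank ℚ K)) : IsRe q L K := by
  unfold IsRe
  rw [← mkG_one]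
  have hG : Odd (Nat.card (GG q L K)) := by rw [card_GG]; exact hodd
  have h1 := mem_sq hG (mkG q L K (-1))
  rw [← map_pow, neg_one_sq, map_one, Subgroup.zpowers_one_eq_bot, Subgroup.mem_bot] at h1
  exact h1

lemma same_pp (hq : IsPrimePow q) : SameP q L K := by
  intro χ _ hχ p hp hpq
  obtain ⟨l, n, hl, hn, rfl⟩ := hq
  have hl' : l.Prime := hl.nat_prime
  have h1 : p = l := (Nat.prime_dvd_prime_iff_eq hp hl').1 (hp.dvd_of_dvd_pow hpq)
  subst h1
  obtain ⟨j, -, hj⟩ := (Nat.dvd_prime_pow hp).1 χ.conductor_dvd_level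
  rw [hj]
  rcases Nat.eq_zero_or_pos j with rfl | hj0
  · exfalso
    apply hχ
    rw [DirichletCharacter.eq_one_iff_conductor_eq_one, hj, pow_zero]
  · exact dvd_pow_self p hj0.ne'

lemma gen_of_prime (hin : S_INERT) {p : ℕ} (hp : p.Prime) {c : (ZMod q)ˣ} (hc : (c : ZMod q) = p)
    (h : (Ideal.span {(p : 𝓞 K)}).IsPrime) (x : GG q L K) :
    x ∈ Subgroup.zpowers (mkG q L K c) := by
  obtain ⟨y, rfl⟩ := mkG_surj x
  obtain ⟨i, hi⟩ := (hin q L K p c hp hc).1 h y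
  have h1 : c ^ i * y⁻¹ ∈ HH q L K := hi
  refine ⟨(i : ℤ), ?_⟩
  show mkG q L K c ^ ((i : ℕ) : ℤ) = mkG q L K y
  rw [zpow_natCast, ← map_pow]
  rw [← mkG_one, map_mul, map_inv, mul_inv_eq_one] at h1
  exact h1

lemma prime_of_gen (hin : S_INERT) {p : ℕ} (hp : p.Prime) {c : (ZMod q)ˣ} (hc : (c : ZMod q) = p)
    (h : ∀ x : GG q L K, x ∈ Subgroup.zpowers (mkG q L K c)) :
    (Ideal.span {(p : 𝓞 K)}).IsPrime := by
  refine (hin q L K p c hp hc).2 fun x => ?_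
  have h1 := h (mkG q L K x)
  rw [← mem_powers_iff_mem_zpowers] at h1
  obtain ⟨i, hi⟩ := h1
  refine ⟨i, ?_⟩
  show c ^ i * x⁻¹ ∈ HH q L K
  rw [← mkG_one, map_mul, map_inv, mul_inv_eq_one, map_pow]
  exact hi

end

/-! ### The powers of three -/

/-- every square is a power of `1 + 3 a` -/
lemma sq_mem (n : ℕ) {c : (ZMod (3 ^ (n + 1)))ˣ} {a : ℤ} (ha : ¬ (3 : ℤ) ∣ a)
    (hc : (c : ZMod (3 ^ (n + 1))) = 1 + (3 : ℕ) * a) (x : (ZMod (3 ^ (n + 1)))ˣ) :
    x ^ 2 ∈ Subgroup.zpowers c := by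
  have h1 : orderOf c = 3 ^ n := by
    rw [← orderOf_units, hc]
    exact ZMod.orderOf_one_add_mul_prime Nat.prime_three (by norm_num) a ha n
  have hcard : Nat.card (ZMod (3 ^ (n + 1)))ˣ = 3 ^ n * 2 := by
    have : NeZero (3 ^ (n + 1)) := ⟨by positivity⟩
    rw [Nat.card_eq_fintype_card, ZMod.card_units_eq_totient,
      Nat.totient_prime_pow_succ Nat.prime_three]
  have h2 : (Subgroup.zpowers c).index = 2 := by
    have h3 := (Subgroup.zpowers c).card_mul_index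
    rw [Nat.card_zpowers, h1, hcard] at h3
    exact Nat.eq_of_mul_eq_mul_left (by positivity) h3
  have h4 := Subgroup.pow_index_mem (Subgroup.zpowers c) x
  rwa [h2] at h4

section three

variable {n : ℕ} {L : Type} [Field L] [NumberField L]
  [IsCyclotomicExtension {3 ^ (n + 1)} ℚ L] {K : IntermediateField ℚ L}

instance : NeZero (3 ^ (n + 1)) := ⟨by positivity⟩

lemma gen_three (hodd : Odd (Module.finrank ℚ K)) {c : (ZMod (3 ^ (n + 1)))ˣ} {a : ℤ}
    (ha : ¬ (3 : ℤ) ∣ a) (hc : (c : ZMod (3 ^ (n + 1))) = 1 + (3 : ℕ) * a)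
    (x : GG (3 ^ (n + 1)) L K) : x ∈ Subgroup.zpowers (mkG (3 ^ (n + 1)) L K c) := by
  have hG : Odd (Nat.card (GG (3 ^ (n + 1)) L K)) := by rw [card_GG]; exact hodd
  obtain ⟨y, rfl⟩ := mkG_surj x
  have h1 := sq_mem n ha hc y
  have h2 : (mkG (3 ^ (n + 1)) L K y) ^ 2 ∈ Subgroup.zpowers (mkG (3 ^ (n + 1)) L K c) := by
    obtain ⟨i, hi⟩ := h1
    refine ⟨i, ?_⟩
    show mkG (3 ^ (n + 1)) L K c ^ i = _
    rw [← map_zpow, ← map_pow]
    exact congrArg _ hi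
  exact (Subgroup.zpowers_le.2 h2) (mem_sq hG _)

/-- 7 -/
lemma gen_seven (hodd : Odd (Module.finrank ℚ K)) {c : (ZMod (3 ^ (n + 1)))ˣ}
    (hc : (c : ZMod (3 ^ (n + 1))) = 7)
    (x : GG (3 ^ (n + 1)) L K) : x ∈ Subgroup.zpowers (mkG (3 ^ (n + 1)) L K c) :=
  gen_three hodd (a := 2) (by norm_num) (by rw [hc]; push_cast; norm_num) x

/-- 2 -/
lemma gen_two (hodd : Odd (Module.finrank ℚ K)) {c : (ZMod (3 ^ (n + 1)))ˣ}
    (hc : (c : ZMod (3 ^ (n + 1))) = 2)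
    (x : GG (3 ^ (n + 1)) L K) : x ∈ Subgroup.zpowers (mkG (3 ^ (n + 1)) L K c) := by
  have h1 := gen_three (c := c ^ 2) hodd (a := 1) (by norm_num) (by
    rw [Units.val_pow_eq_pow_val, hc]; push_cast; norm_num) x
  rw [map_pow] at h1
  exact (Subgroup.zpowers_le.2 (Subgroup.npow_mem_zpowers _ 2)) h1

/-- the signs of the cyclotomic units -/
lemma sg_three (h3 : S_THREE) (hodd : Odd (Module.finrank ℚ K)) {R : Finset (ZMod (3 ^ (n + 1)))ˣ}
    (hR : IsHalf (3 ^ (n + 1)) L K R) : Sg (3 ^ (n + 1)) L K R := by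
  have hq : Odd (3 ^ (n + 1)) := Odd.pow (by decide)
  have h1 : 1 < 3 ^ (n + 1) := Nat.one_lt_pow (by omega) (by norm_num)
  have hre : IsRe (3 ^ (n + 1)) L K := re_of_odd hodd
  intro _ k _ _ ψ hψ
  have hcop : Nat.Coprime 2 (3 ^ (n + 1)) := by
    apply Nat.Coprime.pow_right
    norm_num
  set t : (ZMod (3 ^ (n + 1)))ˣ := ZMod.unitOfCoprime 2 hcop with ht
  have ht2 : (t : ZMod (3 ^ (n + 1))) = 2 := by
    rw [ht, ZMod.coe_unitOfCoprime]; push_cast; rfl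
  refine ⟨t, ?_⟩
  rw [sum_DD hq h1 hre hR, TT_two ht2]
  have h4 := h3 (n + 1) k (ψ.comp (mkG (3 ^ (n + 1)) L K)) (by
    rw [MonoidHom.comp_apply, mkG_one.2 hre, map_one]) (by
      intro h
      apply hψ
      refine MonoidHom.ext fun g => ?_
      obtain ⟨c, rfl⟩ := mkG_surj g
      exact DFunLike.congr_fun h c)
  have e : ∀ z : (ZMod (3 ^ (n + 1)))ˣ, c2 k (oo (z : ZMod (3 ^ (n + 1)))) =
      ((z : ZMod (3 ^ (n + 1))).val : k) := by
    intro z
    unfold oo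
    rw [map_natCast]
  simp only [e]
  unfold PU
  exact h4

end three

/-- the narrow class number is odd -/
theorem ncl_three (h3 : S_THREE) (hdet : S_DET) (hL1 : S_L1) (hRES : S_RES) (hun : S_UNITS)
    (n : ℕ) (L : Type) [Field L] [NumberField L] [IsCyclotomicExtension {3 ^ (n + 1)} ℚ L]
    (K : IntermediateField ℚ L) (hodd : Odd (Module.finrank ℚ K)) :
    Odd (Nat.card (Y682.NCl K)) := by
  have hq : Odd (3 ^ (n + 1)) := Odd.pow (by decide)
  have h1 : 1 < 3 ^ (n + 1) := Nat.one_lt_pow (by omega) (by norm_num)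
  have hre : IsRe (3 ^ (n + 1)) L K := re_of_odd hodd
  have hs : SameP (3 ^ (n + 1)) L K :=
    same_pp ⟨3, n + 1, Nat.prime_three.prime, by omega, rfl⟩
  obtain ⟨φ, hφ⟩ := exists_phi (3 ^ (n + 1)) L
  obtain ⟨R, hR⟩ := exists_half (3 ^ (n + 1)) L K hq h1 hre
  obtain ⟨U, hU⟩ := exists_cyc hun hq h1 hre hφ hR
  exact (narrow hdet hL1 hRES hq h1 hR hU hre hodd hs).1.2 (sg_three h3 hodd hR)

end Pool.Agent.Y682.XT
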