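import Pool.Agent.Y682.XT.Sig

/-!
# Sums over half systems in a field of characteristic two
-/

set_option autoImplicit false

open Finset

namespace Pool.Agent.Y682.XT

open scoped Classical

/-- independence of the half system -/
lemma hsum_gen {X : Type*} [InvolutiveNeg X] {A : Type*} [AddCommMonoid A]
    (P1 P2 : Finset X) (F : X → A)
    (h1 : ∀ x ∈ P1, x ∉ P2 → -x ∈ P2 ∧ F (-x) = F x)
    (h2 : ∀ x ∈ P2, x ∉ P1 → -x ∈ P1 ∧ F (-x) = F x)
    (h3 : ∀ x ∈ P1, -x ∉ P1) (h4 : ∀ x ∈ P2, -x ∉ P2) :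
    ∑ x ∈ P1, F x = ∑ x ∈ P2, F x := by
  refine sum_nbij' (fun x => if x ∈ P2 then x else -x) (fun x => if x ∈ P1 then x else -x)
    ?_ ?_ ?_ ?_ ?_
  · intro x hx
    show (if x ∈ P2 then x else -x) ∈ P2
    split_ifs with h
    · exact h
    · exact (h1 x hx h).1
  · intro x hx
    show (if x ∈ P1 then x else -x) ∈ P1
    split_ifs with h
    · exact h
    · exact (h2 x hx h).1
  · intro x hx
    show (if (if x ∈ P2 then x else -x) ∈ P1 then (if x ∈ P2 then x else -x)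
      else -(if x ∈ P2 then x else -x)) = x
    by_cases h : x ∈ P2
    · rw [if_pos h, if_pos hx]
    · rw [if_neg h, if_neg (h3 x hx), neg_neg]
  · intro x hx
    show (if (if x ∈ P1 then x else -x) ∈ P2 then (if x ∈ P1 then x else -x)
      else -(if x ∈ P1 then x else -x)) = x
    by_cases h : x ∈ P1
    · rw [if_pos h, if_pos hx]
    · rw [if_neg h, if_neg (h4 x hx), neg_neg]
  · intro x hx
    show F x = F (if x ∈ P2 then x else -x)
    split_ifs with h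
    · rfl
    · exact (h1 x hx h).2.symm

section

variable {M : ℕ} [NeZero M]

/-- a half system of units -/
structure IsH (P : Finset (ZMod M)ˣ) : Prop where
  mem : ∀ a : (ZMod M)ˣ, a ∈ P ∨ -a ∈ P
  neg : ∀ a ∈ P, -a ∉ P

lemma IsH.sum_eq {P P' : Finset (ZMod M)ˣ} (hP : IsH P) (hP' : IsH P') {A : Type*}
    [AddCommMonoid A] (F : (ZMod M)ˣ → A) (hF : ∀ x, F (-x) = F x) :
    ∑ a ∈ P, F a = ∑ a ∈ P', F a :=
  hsum_gen P P' F (fun x _ hx => ⟨(hP'.mem x).resolve_left hx, hF x⟩)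
    (fun x _ hx => ⟨(hP.mem x).resolve_left hx, hF x⟩) hP.neg hP'.neg

lemma IsH.image {P : Finset (ZMod M)ˣ} (hP : IsH P) (e : (ZMod M)ˣ ≃ (ZMod M)ˣ)
    (he : ∀ x, e (-x) = -e x) : IsH (P.image e) := by
  have he' : ∀ x, e.symm (-x) = -e.symm x := by
    intro x
    apply e.injective
    rw [e.apply_symm_apply, he, e.apply_symm_apply]
  have hm : ∀ a, a ∈ P.image e ↔ e.symm a ∈ P := by
    intro a
    rw [mem_image]
    constructor
    · rintro ⟨b, hb, rfl⟩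
      rwa [e.symm_apply_apply]
    · intro ha
      exact ⟨_, ha, e.apply_symm_apply _⟩
  constructor
  · intro a
    rw [hm, hm, he']
    exact hP.mem _
  · intro a ha
    rw [hm] at ha ⊢
    rw [he']
    exact hP.neg _ ha

/-- substitution in a sum over a half system -/
lemma IsH.sum_equiv {P : Finset (ZMod M)ˣ} (hP : IsH P) (e : (ZMod M)ˣ ≃ (ZMod M)ˣ)
    (he : ∀ x, e (-x) = -e x) {A : Type*} [AddCommMonoid A] (F : (ZMod M)ˣ → A)
    (hF : ∀ x, F (-x) = F x) : ∑ a ∈ P, F (e a) = ∑ a ∈ P, F a := by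
  rw [← sum_image (g := e) (f := F) (fun a _ b _ h => e.injective h)]
  exact (hP.image e he).sum_eq hP F hF

variable (M) in
/-- the standard half system -/
noncomputable def PU : Finset (ZMod M)ˣ := univ.filter fun z => 2 * (z : ZMod M).val < M

lemma mem_PU {z : (ZMod M)ˣ} : z ∈ PU M ↔ 2 * (z : ZMod M).val < M := by
  simp [PU]

lemma val_neg_unit (h1 : 1 < M) (a : (ZMod M)ˣ) :
    ((-a : (ZMod M)ˣ) : ZMod M).val = M - (a : ZMod M).val := by
  rw [Units.val_neg, ZMod.neg_val, if_neg (unit_ne h1 a)]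

lemma isH_PU (hM : Odd M) (h1 : 1 < M) : IsH (PU M) := by
  obtain ⟨k, hk⟩ := hM
  constructor
  · intro a
    rw [mem_PU, mem_PU, val_neg_unit h1]
    have := ZMod.val_lt (a : ZMod M)
    omega
  · intro a ha
    rw [mem_PU] at ha ⊢
    rw [val_neg_unit h1]
    have := ZMod.val_lt (a : ZMod M)
    omega

variable {k : Type} [Field k] [CharP k 2]

lemma c2_add_self (x : ZMod 2) : c2 k x + c2 k x = 0 := by
  rw [← map_add, CharTwo.add_self_eq_zero, map_zero]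

/-- even functions -/
lemma evF (hM : Odd M) (h1 : 1 < M) (x y : (ZMod M)ˣ) :
    oo ((-x : (ZMod M)ˣ) : ZMod M) + oo ((-y : (ZMod M)ˣ) : ZMod M) =
      oo (x : ZMod M) + oo (y : ZMod M) := by
  rw [oo_unit_neg hM h1, oo_unit_neg hM h1]
  have : (1 : ZMod 2) + 1 = 0 := by decide
  linear_combination this

/-- the twisted sums of the signs -/
noncomputable def TT (ψ : (ZMod M)ˣ →* k) (b : (ZMod M)ˣ) : k :=
  ∑ z ∈ PU M, ψ z * c2 k (oo ((z * b : (ZMod M)ˣ) : ZMod M) + oo (z : ZMod M))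

lemma TT_eq (hM : Odd M) (h1 : 1 < M) {ψ : (ZMod M)ˣ →* k} (hψ : ∀ x, ψ (-x) = ψ x)
    (b : (ZMod M)ˣ) {P : Finset (ZMod M)ˣ} (hP : IsH P) :
    ∑ z ∈ P, ψ z * c2 k (oo ((z * b : (ZMod M)ˣ) : ZMod M) + oo (z : ZMod M)) = TT ψ b := by
  refine hP.sum_eq (isH_PU hM h1) _ fun x => ?_
  rw [hψ, neg_mul, evF hM h1]

lemma TT_mul (hM : Odd M) (h1 : 1 < M) {ψ : (ZMod M)ˣ →* k} (hψ : ∀ x, ψ (-x) = ψ x)
    (b c : (ZMod M)ˣ) : TT ψ (b * c) = ψ b⁻¹ * TT ψ c + TT ψ b := by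
  have h2 : ψ b⁻¹ * TT ψ c = ∑ z ∈ PU M, ψ z * c2 k (oo ((z * (b * c) : (ZMod M)ˣ) : ZMod M) +
      oo ((z * b : (ZMod M)ˣ) : ZMod M)) := by
    unfold TT
    rw [mul_sum, ← (isH_PU hM h1).sum_equiv (Equiv.mulRight b) (fun x => neg_mul x b)]
    · refine sum_congr rfl fun z _ => ?_
      show ψ b⁻¹ * (ψ (z * b) * c2 k (oo ((z * b * c : (ZMod M)ˣ) : ZMod M) +
        oo ((z * b : (ZMod M)ˣ) : ZMod M))) = _
      rw [mul_assoc z b c, ← mul_assoc, ← map_mul, mul_comm b⁻¹, mul_inv_cancel_right]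
    · intro x
      rw [hψ, neg_mul, evF hM h1]
  rw [h2]
  unfold TT
  rw [← sum_add_distrib]
  refine sum_congr rfl fun z _ => ?_
  rw [← mul_add, ← map_add]
  congr 2
  have : oo ((z * b : (ZMod M)ˣ) : ZMod M) + oo ((z * b : (ZMod M)ˣ) : ZMod M) = 0 :=
    CharTwo.add_self_eq_zero _
  linear_combination -this

lemma TT_rel (hM : Odd M) (h1 : 1 < M) {ψ : (ZMod M)ˣ →* k} (hψ : ∀ x, ψ (-x) = ψ x)
    (b c : (ZMod M)ˣ) : (ψ b⁻¹ - 1) * TT ψ c = (ψ c⁻¹ - 1) * TT ψ b := by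
  have h2 := TT_mul hM h1 hψ b c
  have h3 := TT_mul hM h1 hψ c b
  rw [mul_comm c b, h2] at h3
  linear_combination h3

lemma TT_ne (hM : Odd M) (h1 : 1 < M) {ψ : (ZMod M)ˣ →* k} (hψ : ∀ x, ψ (-x) = ψ x)
    {b : (ZMod M)ˣ} (hb : TT ψ b ≠ 0) {c : (ZMod M)ˣ} (hc : ψ c ≠ 1) : TT ψ c ≠ 0 := by
  intro h0
  have h2 := TT_rel hM h1 hψ b c
  rw [h0, mul_zero] at h2
  have h3 : ψ c⁻¹ - 1 ≠ 0 := by
    intro h4
    apply hc
    have h5 : ψ c * ψ c⁻¹ = 1 := by rw [← map_mul, mul_inv_cancel, map_one]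
    rw [sub_eq_zero.1 h4, mul_one] at h5
    exact h5
  exact mul_ne_zero h3 hb h2.symm

/-- sums of nontrivial characters over the half system -/
lemma psi_sum (hM : Odd M) (h1 : 1 < M) {ψ : (ZMod M)ˣ →* k} (hψ : ∀ x, ψ (-x) = ψ x)
    {a : (ZMod M)ˣ} (ha : ψ a ≠ 1) : ∑ u ∈ PU M, ψ u = 0 := by
  have h2 := (isH_PU hM h1).sum_equiv (Equiv.mulLeft a) (fun x => mul_neg a x) (fun z => ψ z) hψ
  simp only [Equiv.coe_mulLeft, map_mul] at h2
  rw [← mul_sum] at h2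
  have h3 : (ψ a - 1) * ∑ u ∈ PU M, ψ u = 0 := by rw [sub_mul, h2, one_mul, sub_self]
  exact (mul_eq_zero.1 h3).resolve_left (sub_ne_zero.2 ha)

lemma oo_two {z : (ZMod M)ˣ} (hz : z ∈ PU M) {t : (ZMod M)ˣ} (ht : (t : ZMod M) = 2) :
    oo ((z * t : (ZMod M)ˣ) : ZMod M) = 0 := by
  rw [mem_PU] at hz
  have h1 : ((z * t : (ZMod M)ˣ) : ZMod M) = ((2 * (z : ZMod M).val : ℕ) : ZMod M) := by
    rw [Units.val_mul, ht]
    push_cast
    rw [ZMod.natCast_zmod_val]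
    ring
  unfold oo
  rw [h1, ZMod.val_natCast, Nat.mod_eq_of_lt hz]
  push_cast
  have h20 : (2 : ZMod 2) = 0 := by decide
  rw [h20, zero_mul]

lemma TT_two {ψ : (ZMod M)ˣ →* k} {t : (ZMod M)ˣ} (ht : (t : ZMod M) = 2) :
    TT ψ t = ∑ z ∈ PU M, ψ z * c2 k (oo (z : ZMod M)) := by
  unfold TT
  refine sum_congr rfl fun z hz => ?_
  rw [oo_two hz ht, zero_add]

end

/-! ### Change of the level -/

section level

variable {q f : ℕ} [NeZero q] [NeZero f] (hf : f ∣ q)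
  (hs : ∀ p : ℕ, p.Prime → p ∣ q → p ∣ f)

include hs in
lemma fiber_oo (hq : Odd q) (c : (ZMod f)ˣ) :
    ∑ b ∈ univ.filter (fun b : (ZMod q)ˣ => ZMod.unitsMap hf b = c), oo (b : ZMod q) =
      oo (c : ZMod f) + ∑ k ∈ range (q / f), (k : ZMod 2) := by
  have h1 := fiber_sum hf hs c (fun x => (x : ZMod 2))
  unfold oo
  rw [h1]
  push_cast
  rw [sum_add_distrib, sum_const, card_range, ← sum_mul]
  have hq' : Odd (q / f) := Odd.of_dvd_nat hq (Nat.div_dvd_of_dvd hf)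
  have hf' : Odd f := Odd.of_dvd_nat hq hf
  have e1 : ((q / f : ℕ) : ZMod 2) = 1 := (ZMod.natCast_eq_one_iff_odd).2 hq'
  have e2 : ((f : ℕ) : ZMod 2) = 1 := (ZMod.natCast_eq_one_iff_odd).2 hf'
  rw [nsmul_eq_mul, e1, e2, one_mul, mul_one]

include hs in
lemma TT_level (hq : Odd q) (hf1 : 1 < f) {k : Type} [Field k] [CharP k 2] (ψ : (ZMod f)ˣ →* k)
    (hψ : ∀ x, ψ (-x) = ψ x) (b : (ZMod q)ˣ) :
    TT (ψ.comp (ZMod.unitsMap hf)) b = TT ψ (ZMod.unitsMap hf b) := by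
  have hq1 : 1 < q := lt_of_lt_of_le hf1 (Nat.le_of_dvd (Nat.pos_of_ne_zero (NeZero.ne q)) hf)
  have hfo : Odd f := Odd.of_dvd_nat hq hf
  have hneg : ∀ x : (ZMod q)ˣ, ZMod.unitsMap hf (-x) = -ZMod.unitsMap hf x := by
    intro x
    apply Units.ext
    rw [ZMod.unitsMap_val, Units.val_neg, Units.val_neg, ZMod.cast_neg hf, ZMod.unitsMap_val]
  have hP : IsH (univ.filter (fun z : (ZMod q)ˣ => ZMod.unitsMap hf z ∈ PU f)) := by
    constructor
    · intro a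
      simp only [mem_filter, mem_univ, true_and, hneg]
      exact (isH_PU hfo hf1).mem _
    · intro a ha
      simp only [mem_filter, mem_univ, true_and, hneg] at ha ⊢
      exact (isH_PU hfo hf1).neg _ ha
  rw [← TT_eq hq hq1 (ψ := ψ.comp (ZMod.unitsMap hf))
    (fun x => by rw [MonoidHom.comp_apply, hneg, hψ, MonoidHom.comp_apply]) b hP]
  rw [← sum_fiberwise_of_maps_to (g := fun z => ZMod.unitsMap hf z) (t := PU f)
    (fun z hz => (mem_filter.1 hz).2)]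
  unfold TT
  refine sum_congr rfl fun c hc => ?_
  have hset : (univ.filter (fun z : (ZMod q)ˣ => ZMod.unitsMap hf z ∈ PU f)).filter
      (fun z => ZMod.unitsMap hf z = c) = univ.filter (fun z => ZMod.unitsMap hf z = c) := by
    ext z
    simp only [mem_filter, mem_univ, true_and]
    exact ⟨fun h => h.2, fun h => ⟨by rw [h]; exact hc, h⟩⟩
  rw [hset]
  have h1 : ∑ z ∈ univ.filter (fun z : (ZMod q)ˣ => ZMod.unitsMap hf z = c),
      (ψ.comp (ZMod.unitsMap hf)) z * c2 k (oo ((z * b : (ZMod q)ˣ) : ZMod q) + oo (z : ZMod q)) =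
      ψ c * c2 k (∑ z ∈ univ.filter (fun z : (ZMod q)ˣ => ZMod.unitsMap hf z = c),
        (oo ((z * b : (ZMod q)ˣ) : ZMod q) + oo (z : ZMod q))) := by
    rw [map_sum, mul_sum]
    refine sum_congr rfl fun z hz => ?_
    rw [MonoidHom.comp_apply, (mem_filter.1 hz).2]
  rw [h1, sum_add_distrib]
  have h2 : ∑ z ∈ univ.filter (fun z : (ZMod q)ˣ => ZMod.unitsMap hf z = c),
      oo ((z * b : (ZMod q)ˣ) : ZMod q) = ∑ z ∈ univ.filter (fun z : (ZMod q)ˣ =>
        ZMod.unitsMap hf z = c * ZMod.unitsMap hf b), oo (z : ZMod q) := by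
    refine sum_bij' (fun z _ => z * b) (fun z _ => z * b⁻¹) ?_ ?_ ?_ ?_ ?_
    · intro z hz
      simp only [mem_filter, mem_univ, true_and] at hz ⊢
      rw [map_mul, hz]
    · intro z hz
      simp only [mem_filter, mem_univ, true_and] at hz ⊢
      rw [map_mul, hz, map_inv, mul_inv_cancel_right]
    · intro z _
      exact mul_inv_cancel_right z b
    · intro z _
      exact inv_mul_cancel_right z b
    · intro z _
      rfl
  rw [h2, fiber_oo hf hs hq, fiber_oo hf hs hq]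
  congr 2
  have : ∑ k ∈ range (q / f), (k : ZMod 2) + ∑ k ∈ range (q / f), (k : ZMod 2) = 0 :=
    CharTwo.add_self_eq_zero _
  linear_combination this

end level

end Pool.Agent.Y682.XT
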