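import Mathlib

/-!
# A product of conjugate character sums is an odd integer
-/

set_option autoImplicit false

open Polynomial Finset

namespace Pool.Agent.Y682.XT

/-- an integral polynomial with the same value at all the primitive roots of unity of order `m` -/
theorem same_value {m : ℕ} (hm : 0 < m) {ζ : ℂ} (hζ : IsPrimitiveRoot ζ m) (P : ℤ[X])
    (h : ∀ a : ℕ, a.Coprime m → aeval (ζ ^ a) P = aeval ζ P) :
    ∃ N : ℤ, aeval ζ P = (N : ℂ) ∧ ∀ (k : Type) [Field k] (ω : k),
      aeval ω (cyclotomic m ℤ) = 0 → aeval ω P = (N : k) := by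
  have : NeZero m := ⟨hm.ne'⟩
  set Φ := cyclotomic m ℤ with hΦ
  have hmon : Φ.Monic := cyclotomic.monic _ _
  set Q := P %ₘ Φ with hQ
  set S := P /ₘ Φ with hS
  have hdiv : Q + Φ * S = P := modByMonic_add_div P Φ
  have hroot : ∀ μ ∈ primitiveRoots m ℂ, aeval μ Φ = 0 := by
    intro μ hμ
    rw [hΦ, aeval_def, eval₂_eq_eval_map, map_cyclotomic]
    exact (isRoot_cyclotomic_iff (n := m)).2 ((mem_primitiveRoots hm).1 hμ)
  have hval : ∀ μ ∈ primitiveRoots m ℂ, aeval μ Q = aeval ζ P := by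
    intro μ hμ
    have h1 : aeval μ P = aeval ζ P := by
      obtain ⟨i, hi, hco, rfl⟩ := (hζ.isPrimitiveRoot_iff).1 ((mem_primitiveRoots hm).1 hμ)
      exact h i hco
    rw [← h1, ← hdiv, map_add, map_mul, hroot μ hμ, zero_mul, add_zero]
  have hdeg : natDegree (Q.map (algebraMap ℤ ℂ) - C (aeval ζ P)) < (primitiveRoots m ℂ).card := by
    rw [hζ.card_primitiveRoots]
    have h1 : natDegree Q < Nat.totient m := by
      rw [← natDegree_cyclotomic m ℤ]
      refine natDegree_modByMonic_lt P hmon ?_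
      intro h1
      have := degree_cyclotomic m ℤ
      rw [← hΦ, h1, degree_one] at this
      have h2 := Nat.totient_pos.2 hm
      have h3 : Nat.totient m = 0 := by exact_mod_cast this.symm
      omega
    rw [natDegree_sub_C]
    exact lt_of_le_of_lt (natDegree_map_le) h1
  have hzero : Q.map (algebraMap ℤ ℂ) - C (aeval ζ P) = 0 := by
    refine eq_zero_of_natDegree_lt_card_of_eval_eq_zero' _ (primitiveRoots m ℂ) ?_ hdeg
    intro μ hμ
    rw [eval_sub, eval_C, eval_map_algebraMap, hval μ hμ, sub_self]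
  have hQ0 : aeval ζ P = ((Q.coeff 0 : ℤ) : ℂ) := by
    have h1 := congrArg (fun R : ℂ[X] => R.coeff 0) hzero
    simp only [coeff_sub, coeff_map, coeff_C_zero, coeff_zero] at h1
    rw [sub_eq_zero] at h1
    rw [← h1]
    simp
  refine ⟨Q.coeff 0, hQ0, ?_⟩
  have hQC : Q = C (Q.coeff 0) := by
    have hinj : Function.Injective (algebraMap ℤ ℂ) := (algebraMap ℤ ℂ).injective_int
    apply map_injective _ hinj
    rw [sub_eq_zero] at hzero
    rw [hzero, hQ0, map_C]
    simp
  intro k _ ω hω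
  rw [← hdiv, map_add, map_mul, hω, zero_mul, add_zero]
  conv_lhs => rw [hQC]
  rw [aeval_C]
  simp

section

variable {G : Type} [CommGroup G] [Fintype G]

theorem unitG (hodd : Odd (Fintype.card G)) (S : Finset (G →* ℂˣ)) (hS : ∀ χ, χ ∈ S)
    (w : (G →* ℂˣ) → G → ℤ)
    (hw : ∀ χ (a : ℕ), a.Coprime (Fintype.card G) → w (χ ^ a) = w χ)
    (h2 : ∀ (k : Type) [Field k] [CharP k 2] (χ : G →* ℂˣ) (ψ : G →* k), χ ≠ 1 →
      (∀ g, ψ g = 1 ↔ χ g = 1) → ∑ g, ψ g * (w χ g : k) ≠ 0) [DecidableEq (G →* ℂˣ)] :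
    ∃ N : ℤ, Odd N ∧ ∏ χ ∈ S.erase 1, ∑ g, ((χ g : ℂˣ) : ℂ) * (w χ g : ℂ) = N := by
  set m := Fintype.card G with hm
  have hpos : 0 < m := Fintype.card_pos
  have hne : NeZero m := ⟨hpos.ne'⟩
  have : Fintype (G →* ℂˣ) := ⟨S, hS⟩
  have hcard : Nat.card (G →* ℂˣ) = m := by
    rw [CommGroup.card_monoidHom_of_hasEnoughRootsOfUnity, Nat.card_eq_fintype_card]
  obtain ⟨ζ, hζ⟩ : ∃ ζ : ℂ, IsPrimitiveRoot ζ m := ⟨_, Complex.isPrimitiveRoot_exp _ hpos.ne'⟩
  have hex : ∀ (χ : G →* ℂˣ) (g : G), ∃ e : ℕ, ζ ^ e = ((χ g : ℂˣ) : ℂ) := by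
    intro χ g
    have h3 : ((χ g : ℂˣ) : ℂ) ^ m = 1 := by
      rw [← Units.val_pow_eq_pow_val, ← map_pow, hm, pow_card_eq_one, map_one, Units.val_one]
    obtain ⟨i, _, hi⟩ := hζ.eq_pow_of_pow_eq_one h3
    exact ⟨i, hi⟩
  choose e he using hex
  set P : ℤ[X] := ∏ χ ∈ S.erase 1, ∑ g, C (w χ g) * X ^ (e χ g) with hP
  set F : (G →* ℂˣ) → ℂ := fun χ => if χ = 1 then 1 else ∑ g, ((χ g : ℂˣ) : ℂ) * (w χ g : ℂ) with hF
  have hprod : ∏ χ ∈ S.erase 1, ∑ g, ((χ g : ℂˣ) : ℂ) * (w χ g : ℂ) = ∏ χ, F χ := by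
    have h3 : (univ : Finset (G →* ℂˣ)) = S := by ext χ; simp [hS]
    rw [h3, ← mul_prod_erase S F (hS 1)]
    rw [show F 1 = 1 from if_pos rfl, one_mul]
    refine prod_congr rfl fun χ hχ => ?_
    rw [hF]
    exact (if_neg (mem_erase.1 hχ).1).symm
  have hev : ∀ a : ℕ, a.Coprime m → aeval (ζ ^ a) P = ∏ χ, F χ := by
    intro a ha
    have hco : (Nat.card (G →* ℂˣ)).Coprime a := by rw [hcard]; exact ha.symm
    rw [← Fintype.prod_equiv (powCoprime hco) (fun χ => F (χ ^ a)) F (fun χ => rfl), hP,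
      map_prod]
    have h3 : (univ : Finset (G →* ℂˣ)) = S := by ext χ; simp [hS]
    rw [h3, ← mul_prod_erase S _ (hS 1)]
    have h1a : ((1 : G →* ℂˣ) ^ a) = 1 :=
      MonoidHom.ext fun g => by rw [MonoidHom.pow_apply, MonoidHom.one_apply, one_pow]
    have h4 : F (1 ^ a) = 1 := by rw [h1a]; exact if_pos rfl
    rw [h4, one_mul]
    refine prod_congr rfl fun χ hχ => ?_
    have h5 : χ ^ a ≠ 1 := by
      intro h6
      apply (mem_erase.1 hχ).1
      apply (powCoprime hco).injective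
      show χ ^ a = 1 ^ a
      rw [h6, h1a]
    rw [hF]
    show _ = if χ ^ a = 1 then (1 : ℂ) else _
    rw [if_neg h5, map_sum]
    refine sum_congr rfl fun g _ => ?_
    rw [map_mul, map_pow, aeval_X, aeval_C, hw χ a ha, ← pow_mul, mul_comm a, pow_mul, he χ g]
    simp only [algebraMap_int_eq, eq_intCast, MonoidHom.pow_apply, Units.val_pow_eq_pow_val]
    ring
  have hev1 := hev 1 (Nat.coprime_one_left m)
  rw [pow_one] at hev1
  obtain ⟨N, hN1, hN2⟩ := same_value hpos hζ P (fun a ha => by rw [hev a ha, hev1])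
  refine ⟨N, ?_, ?_⟩
  · have main : ∀ (k : Type) [Field k] [CharP k 2] (ω : k), (cyclotomic m k).IsRoot ω → Odd N := by
      intro k _ _ ω hω
      have hmk : ((m : ℕ) : k) ≠ 0 := by
        intro h
        rw [CharP.cast_eq_zero_iff k 2] at h
        exact (Nat.not_even_iff_odd.2 hodd) (even_iff_two_dvd.2 h)
      have hmn : NeZero ((m : ℕ) : k) := ⟨hmk⟩
      have hωp : IsPrimitiveRoot ω m := (isRoot_cyclotomic_iff (n := m)).1 hω
      have hω0 : aeval ω (cyclotomic m ℤ) = 0 := by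
        rw [aeval_def, eval₂_eq_eval_map, map_cyclotomic]
        exact hω
      have h3 := hN2 _ ω hω0
      have h4 : aeval ω P ≠ 0 := by
        rw [hP, map_prod]
        refine prod_ne_zero_iff.2 fun χ hχ => ?_
        have key : ∀ i j : ℕ, ζ ^ i = ζ ^ j → ω ^ i = ω ^ j := by
          intro i j hij
          rw [(hζ.isOfFinOrder hpos.ne').pow_eq_pow_iff_modEq, ← hζ.eq_orderOf] at hij
          rw [(hωp.isOfFinOrder hpos.ne').pow_eq_pow_iff_modEq, ← hωp.eq_orderOf]
          exact hij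
        set ψ : G →* k :=
          { toFun := fun g => ω ^ e χ g
            map_one' := by
              show ω ^ e χ 1 = 1
              rw [← pow_zero ω]
              apply key
              rw [he, map_one, Units.val_one, pow_zero]
            map_mul' := by
              intro g h
              show ω ^ e χ (g * h) = ω ^ e χ g * ω ^ e χ h
              rw [← pow_add]
              apply key
              rw [he, map_mul, Units.val_mul, pow_add, he, he] } with hψ
        have h5 := h2 _ χ ψ (mem_erase.1 hχ).1 (by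
          intro g
          show ω ^ e χ g = 1 ↔ _
          rw [hωp.pow_eq_one_iff_dvd, ← hζ.pow_eq_one_iff_dvd, he, Units.val_eq_one])
        intro h6
        apply h5
        rw [← h6, map_sum]
        refine sum_congr rfl fun g _ => ?_
        rw [map_mul, map_pow, aeval_X, aeval_C]
        simp only [algebraMap_int_eq, eq_intCast]
        show ω ^ e χ g * _ = _
        ring
      rw [← Int.not_even_iff_odd]
      intro h5
      apply h4
      rw [h3]
      exact (CharP.intCast_eq_zero_iff k 2 N).2 (even_iff_two_dvd.1 h5)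
    have hk2 : CharP (AlgebraicClosure (ZMod 2)) 2 :=
      charP_of_injective_algebraMap (algebraMap (ZMod 2) (AlgebraicClosure (ZMod 2))).injective 2
    obtain ⟨ω, hω⟩ := IsAlgClosed.exists_root (cyclotomic m (AlgebraicClosure (ZMod 2)))
      (by
        rw [degree_cyclotomic]
        have := Nat.totient_pos.2 hpos
        exact_mod_cast this.ne')
    exact main _ ω hω
  · rw [hprod, ← hev1, hN1]

end

end Pool.Agent.Y682.XT
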