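import Pool.Agent.Y682.XT.Sym2
import Pool.Agent.Y682.XT.UnitG

/-!
# The product of the twisted sums of the symbols is an odd integer
-/

set_option autoImplicit false

open Finset NumberField IsCyclotomicExtension.Rat H300.HW

namespace Pool.Agent.Y682.XT

open scoped Classical

open Pool.Agent.Y687 (Symb2)

/-- a section of the restriction of the units -/
noncomputable def sect {f q : ℕ} [NeZero q] (h : f ∣ q) : (ZMod f)ˣ → (ZMod q)ˣ :=
  Function.surjInv (ZMod.unitsMap_surjective h)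

lemma map_sect {f q : ℕ} [NeZero q] (h : f ∣ q) (t : (ZMod f)ˣ) :
    ZMod.unitsMap h (sect h t) = t := Function.surjInv_eq _ t

lemma unitsMap_neg {f q : ℕ} (h : f ∣ q) (x : (ZMod q)ˣ) :
    ZMod.unitsMap h (-x) = -ZMod.unitsMap h x := by
  apply Units.ext
  rw [ZMod.unitsMap_val, Units.val_neg, Units.val_neg, ZMod.cast_neg h, ZMod.unitsMap_val]

section

variable {q : ℕ} [NeZero q] {L : Type} [Field L] [NumberField L] [IsCyclotomicExtension {q} ℚ L]
  {K : IntermediateField ℚ L}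

variable (L K) in
/-- the weights on the Galois group -/
noncomputable def wf (s : ℚ → ℤ) {f : ℕ} [NeZero f] (h : f ∣ q) (g : GG q L K) : ℤ :=
  ∑ u ∈ (PU f).filter (fun u => mkG q L K (sect h u) = g), s (((u : ZMod f).val : ℚ) / f)

lemma sum_wf (s : ℚ → ℤ) {f : ℕ} [NeZero f] (h : f ∣ q) [Fintype (GG q L K)] {A : Type*}
    [CommRing A] (F : GG q L K → A) :
    ∑ g, F g * (wf L K s h g : A) =
      ∑ u ∈ PU f, F (mkG q L K (sect h u)) * ((s (((u : ZMod f).val : ℚ) / f) : ℤ) : A) := by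
  rw [← sum_fiberwise (PU f) (fun u => mkG q L K (sect h u))]
  refine sum_congr rfl fun g _ => ?_
  unfold wf
  push_cast
  rw [mul_sum]
  refine sum_congr rfl fun u hu => ?_
  rw [(mem_filter.1 hu).2]

lemma wf_congr (s : ℚ → ℤ) {f f' : ℕ} [NeZero f] [NeZero f'] (h : f ∣ q) (h' : f' ∣ q)
    (he : f = f') : wf L K s h = wf L K s h' := by
  subst he
  rfl

/-- the half system of the products -/
lemma isH_prod (hre : IsRe q L K)
    {R : Finset (ZMod q)ˣ} (hR : IsHalf q L K R) [Fintype (GG q L K)] {A : Type*}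
    [AddCommMonoid A] {P : Finset (ZMod q)ˣ} (hP : IsH P) (F : (ZMod q)ˣ → A)
    (hF : ∀ x, F (-x) = F x) :
    ∑ g : GG q L K, ∑ a ∈ R, F (outG q L K g * a) = ∑ z ∈ P, F z := by
  have hneg : ∀ x : (ZMod q)ˣ, mkG q L K (-x) = mkG q L K x := by
    intro x
    rw [← neg_one_mul, map_mul, mkG_one.2 hre, one_mul]
  have hmem : ∀ a ∈ R, mkG q L K a = 1 := fun a ha => mkG_one.2 ((hR.mem a).1 (Or.inl ha))
  rw [← sum_product']
  have hinj : ∀ x ∈ (univ : Finset (GG q L K)) ×ˢ R, ∀ y ∈ (univ : Finset (GG q L K)) ×ˢ R,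
      outG q L K x.1 * x.2 = outG q L K y.1 * y.2 → x = y := by
    intro x hx y hy h
    rw [mem_product] at hx hy
    have h1 := congrArg (mkG q L K) h
    rw [map_mul, map_mul, hmem _ hx.2, hmem _ hy.2, mul_one, mul_one, mkG_outG, mkG_outG] at h1
    rw [h1] at h
    exact Prod.ext h1 (mul_left_cancel h)
  have h2 : ∑ x ∈ (univ : Finset (GG q L K)) ×ˢ R, F (outG q L K x.1 * x.2) =
      ∑ z ∈ ((univ : Finset (GG q L K)) ×ˢ R).image (fun x => outG q L K x.1 * x.2), F z :=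
    (sum_image (fun x hx y hy h => hinj x hx y hy h)).symm
  rw [h2]
  have hm : ∀ z : (ZMod q)ˣ, z ∈ ((univ : Finset (GG q L K)) ×ˢ R).image
      (fun x => outG q L K x.1 * x.2) ↔ (outG q L K (mkG q L K z))⁻¹ * z ∈ R := by
    intro z
    rw [mem_image]
    constructor
    · rintro ⟨x, hx, rfl⟩
      rw [mem_product] at hx
      rw [map_mul, hmem _ hx.2, mul_one, mkG_outG, inv_mul_cancel_left]
      exact hx.2
    · intro h
      exact ⟨(mkG q L K z, _), mem_product.2 ⟨mem_univ _, h⟩, mul_inv_cancel_left _ _⟩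
  refine IsH.sum_eq ⟨?_, ?_⟩ hP F hF
  · intro z
    rw [hm, hm, hneg, mul_neg, hR.mem]
    rw [← mkG_eq, mkG_outG]
  · intro z hz
    rw [hm] at hz ⊢
    rw [hneg, mul_neg]
    exact hR.neg _ hz

variable {k : Type} [Field k] [CharP k 2]

/-- the sums over the Galois group -/
lemma sum_DD (hq : Odd q) (h1 : 1 < q) (hre : IsRe q L K)
    {R : Finset (ZMod q)ˣ} (hR : IsHalf q L K R) [Fintype (GG q L K)] (ψ : GG q L K →* k)
    (b : (ZMod q)ˣ) :
    ∑ g, ψ g * c2 k (DD R b (outG q L K g)) = TT (ψ.comp (mkG q L K)) b := by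
  have hneg : ∀ x : (ZMod q)ˣ, mkG q L K (-x) = mkG q L K x := by
    intro x
    rw [← neg_one_mul, map_mul, mkG_one.2 hre, one_mul]
  have hmem : ∀ a ∈ R, mkG q L K a = 1 := fun a ha => mkG_one.2 ((hR.mem a).1 (Or.inl ha))
  unfold TT
  rw [← isH_prod hre hR (isH_PU hq h1) _ (fun x => by
    rw [MonoidHom.comp_apply, MonoidHom.comp_apply, hneg, neg_mul, evF hq h1])]
  refine sum_congr rfl fun g _ => ?_
  unfold DD
  rw [map_sum, mul_sum]
  refine sum_congr rfl fun a ha => ?_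
  rw [MonoidHom.comp_apply, map_mul (mkG q L K), hmem a ha, mul_one, mkG_outG]
  congr 3
  rw [mul_right_comm]

/-- the character at the level of the conductor -/
lemma exists_psif {f : ℕ} [NeZero f] (hf : f ∣ q) (ψ : GG q L K →* k)
    (hk : ∀ c : (ZMod q)ˣ, ZMod.unitsMap hf c = 1 → ψ (mkG q L K c) = 1) :
    ∃ ψf : (ZMod f)ˣ →* k, ψ.comp (mkG q L K) = ψf.comp (ZMod.unitsMap hf) ∧
      ∀ u, ψf u = ψ (mkG q L K (sect hf u)) := by
  have key : ∀ c c' : (ZMod q)ˣ, ZMod.unitsMap hf c = ZMod.unitsMap hf c' →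
      ψ (mkG q L K c) = ψ (mkG q L K c') := by
    intro c c' h
    have h2 := hk (c * c'⁻¹) (by rw [map_mul, map_inv, h, mul_inv_cancel])
    have h3 : ψ (mkG q L K c) = ψ (mkG q L K (c * c'⁻¹)) * ψ (mkG q L K c') := by
      rw [← map_mul, ← map_mul, inv_mul_cancel_right]
    rw [h3, h2, one_mul]
  refine ⟨{ toFun := fun u => ψ (mkG q L K (sect hf u)), map_one' := ?_, map_mul' := ?_ },
    MonoidHom.ext fun c => ?_, fun u => rfl⟩
  · apply hk
    rw [map_sect]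
  · intro u v
    rw [← map_mul, ← map_mul]
    apply key
    rw [map_mul, map_sect, map_sect, map_sect]
  · show ψ (mkG q L K c) = ψ (mkG q L K (sect hf (ZMod.unitsMap hf c)))
    apply key
    rw [map_sect]

/-- the symbols twisted by a character modulo two -/
theorem wf_ne' {s : ℚ → ℤ} {a : ℕ → ℤ} (H : Symb2 s a) (hq : Odd q) (h1 : 1 < q)
    (hco : q.Coprime 14) (hre : IsRe q L K)
    {R : Finset (ZMod q)ˣ} (hR : IsHalf q L K R) (hSg : Sg q L K R)
    {t2 t7 : (ZMod q)ˣ} (ht2 : (t2 : ZMod q) = 2) (ht7 : (t7 : ZMod q) = 7)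
    (hg2 : ∀ x : GG q L K, x ∈ Subgroup.zpowers (mkG q L K t2))
    (hg7 : ∀ x : GG q L K, x ∈ Subgroup.zpowers (mkG q L K t7))
    [Fintype (GG q L K)] (χ : GG q L K →* ℂˣ) (hχ : χ ≠ 1) (ψ : GG q L K →* k)
    (hker : ∀ g, ψ g = 1 ↔ χ g = 1) {f : ℕ} [NeZero f] (hfq : f ∣ q) (hf1 : 1 < f)
    (hsame : ∀ p : ℕ, p.Prime → p ∣ q → p ∣ f) (χp : DirichletCharacter ℂ f)
    (hprim' : ∀ c : (ZMod q)ˣ, ((χ (mkG q L K c) : ℂˣ) : ℂ) =
      χp ((ZMod.unitsMap hfq c : (ZMod f)ˣ) : ZMod f)) (hP : χp.IsPrimitive) :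
    ∑ g, ψ g * (wf L K s hfq g : k) ≠ 0 := by
  have hfo : Odd f := Odd.of_dvd_nat hq hfq
  have hfco : f.Coprime 14 := Nat.Coprime.coprime_dvd_left hfq hco
  -- nontriviality
  have hψne : ψ ≠ 1 := by
    intro h
    apply hχ
    refine MonoidHom.ext fun g => ?_
    exact (hker g).1 (by rw [h]; rfl)
  have hgen : ∀ {t : (ZMod q)ˣ} (ρ : GG q L K →* k), ρ ≠ 1 →
      (∀ x : GG q L K, x ∈ Subgroup.zpowers (mkG q L K t)) → ρ (mkG q L K t) ≠ 1 := by
    intro t ρ hρ hg h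
    apply hρ
    refine MonoidHom.ext fun g => ?_
    obtain ⟨n, rfl⟩ := hg g
    obtain ⟨m, hm⟩ : ∃ m : ℕ, mkG q L K t ^ n = mkG q L K t ^ m := by
      have h3 : mkG q L K t ^ n ∈ Submonoid.powers (mkG q L K t) := by
        rw [mem_powers_iff_mem_zpowers]
        exact ⟨n, rfl⟩
      obtain ⟨m, hm⟩ := h3
      exact ⟨m, hm.symm⟩
    show ρ (mkG q L K t ^ n) = 1
    rw [hm, map_pow, h, one_pow]
  -- the inverse character
  obtain ⟨ψi, hψi⟩ : ∃ ψi : GG q L K →* k, ∀ g, ψi g = ψ g⁻¹ :=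
    ⟨ψ.comp (invMonoidHom : GG q L K →* GG q L K), fun g => rfl⟩
  have hkf : ∀ c : (ZMod q)ˣ, ZMod.unitsMap hfq c = 1 → ψ (mkG q L K c) = 1 := by
    intro c hc
    rw [hker]
    apply Units.ext
    rw [hprim', hc, Units.val_one, map_one, Units.val_one]
  obtain ⟨ψf, hψf, hψf'⟩ := exists_psif hfq ψ hkf
  have hkf' : ∀ c : (ZMod q)ˣ, ZMod.unitsMap hfq c = 1 → ψi (mkG q L K c) = 1 := by
    intro c hc
    rw [hψi, ← map_inv]
    apply hkf
    rw [map_inv, hc, inv_one]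
  obtain ⟨ψg, hψg, hψg'⟩ := exists_psif hfq ψi hkf'
  have hcomp : ∀ c, ψf (ZMod.unitsMap hfq c) = ψ (mkG q L K c) := fun c =>
    (DFunLike.congr_fun hψf c).symm
  have hcomp' : ∀ c, ψg (ZMod.unitsMap hfq c) = ψi (mkG q L K c) := fun c =>
    (DFunLike.congr_fun hψg c).symm
  have hneg : ∀ x : (ZMod q)ˣ, mkG q L K (-x) = mkG q L K x := by
    intro x
    rw [← neg_one_mul, map_mul, mkG_one.2 hre, one_mul]
  have hev : ∀ x, ψf (-x) = ψf x := by
    intro x
    obtain ⟨c, rfl⟩ := ZMod.unitsMap_surjective hfq x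
    rw [← unitsMap_neg, hcomp, hcomp, hneg]
  have hev' : ∀ x, ψg (-x) = ψg x := by
    intro x
    obtain ⟨c, rfl⟩ := ZMod.unitsMap_surjective hfq x
    rw [← unitsMap_neg, hcomp', hcomp', hneg]
  have hinv : ∀ x, ψg x = ψf x⁻¹ := by
    intro x
    obtain ⟨c, rfl⟩ := ZMod.unitsMap_surjective hfq x
    rw [hcomp', hψi, ← map_inv (mkG q L K), ← map_inv (ZMod.unitsMap hfq), hcomp]
  have hψine : ψi ≠ 1 := by
    intro h
    apply hψne
    refine MonoidHom.ext fun g => ?_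
    have h2 := DFunLike.congr_fun h g⁻¹
    rw [hψi, inv_inv] at h2
    rw [h2]; rfl
  -- primitivity
  have hPrm : Prm ψf := by
    intro f' h' hne'
    by_contra hcon
    push Not at hcon
    apply hne'
    have h2 : χp.FactorsThrough f' := by
      rw [DirichletCharacter.factorsThrough_iff_ker_unitsMap h']
      intro κ hκ
      rw [MonoidHom.mem_ker] at hκ ⊢
      obtain ⟨c, rfl⟩ := ZMod.unitsMap_surjective hfq κ
      have h3 := hcon _ hκ
      rw [hcomp, hker] at h3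
      apply Units.ext
      rw [MulChar.coe_toUnitHom, ← hprim', h3]
    have h3 := χp.conductor_dvd_of_mem_conductorSet ((DirichletCharacter.mem_conductorSet_iff χp).2 h2)
    rw [(DirichletCharacter.isPrimitive_def χp).1 hP] at h3
    exact Nat.dvd_antisymm h' h3
  rw [sum_wf]
  have h5 : ∀ u : (ZMod f)ˣ, ψ (mkG q L K (sect hfq u)) = ψf u := fun u => (hψf' u).symm
  simp_rw [h5]
  have htt : ∀ {t : (ZMod q)ˣ} {n : ℕ}, (t : ZMod q) = n → ((ZMod.unitsMap hfq t : (ZMod f)ˣ) :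
      ZMod f) = n := by
    intro t n h
    rw [ZMod.unitsMap_val, h, ZMod.cast_natCast hfq]
  have hTT : ∀ (ρ : GG q L K →* k) (ρf : (ZMod f)ˣ →* k), ρ ≠ 1 → (∀ x, ρf (-x) = ρf x) →
      ρ.comp (mkG q L K) = ρf.comp (ZMod.unitsMap hfq) → ∃ b, TT ρf b ≠ 0 := by
    intro ρ ρf hρ hρe hρf
    obtain ⟨b, hb⟩ := hSg inferInstance k ρ hρ
    rw [sum_DD hq h1 hre hR, hρf, TT_level hfq hsame hq hf1 ρf hρe] at hb
    exact ⟨_, hb⟩
  refine symb_ne H hfo hf1 hfco hev hPrm hinv (t2 := ZMod.unitsMap hfq t2)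
    (t7 := ZMod.unitsMap hfq t7) (by exact_mod_cast htt (n := 2) (by exact_mod_cast ht2))
    (by exact_mod_cast htt (n := 7) (by exact_mod_cast ht7)) ?_ ?_
    (hTT ψ ψf hψne hev hψf) (hTT ψi ψg hψine hev' hψg)
  · rw [hcomp]
    exact hgen ψ hψne hg2
  · rw [hcomp]
    exact hgen ψ hψne hg7

/-- the symbols twisted by a character modulo two -/
theorem wf_ne {s : ℚ → ℤ} {a : ℕ → ℤ} (H : Symb2 s a) (hq : Odd q) (h1 : 1 < q)
    (hco : q.Coprime 14) (hre : IsRe q L K)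
    (hs : SameP q L K) {R : Finset (ZMod q)ˣ} (hR : IsHalf q L K R) (hSg : Sg q L K R)
    {t2 t7 : (ZMod q)ˣ} (ht2 : (t2 : ZMod q) = 2) (ht7 : (t7 : ZMod q) = 7)
    (hg2 : ∀ x : GG q L K, x ∈ Subgroup.zpowers (mkG q L K t2))
    (hg7 : ∀ x : GG q L K, x ∈ Subgroup.zpowers (mkG q L K t7))
    [Fintype (GG q L K)] (χ : GG q L K →* ℂˣ) (hχ : χ ≠ 1) (ψ : GG q L K →* k)
    (hker : ∀ g, ψ g = 1 ↔ χ g = 1) :
    haveI : NeZero (cf q L K χ).conductor := ⟨(cf q L K χ).conductor_ne_zero⟩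
    ∑ g, ψ g * (wf L K s (cf q L K χ).conductor_dvd_level g : k) ≠ 0 := by
  have hnz : NeZero (cf q L K χ).conductor := ⟨(cf q L K χ).conductor_ne_zero⟩
  have hcne : cf q L K χ ≠ 1 := fun h => hχ (cf_inj (h.trans cf_one.symm))
  have hf1 : 1 < (cf q L K χ).conductor := by
    have h2 : (cf q L K χ).conductor ≠ 1 := fun h =>
      hcne (((cf q L K χ).eq_one_iff_conductor_eq_one).2 h)
    have := (cf q L K χ).conductor_ne_zero
    omega
  exact wf_ne' H hq h1 hco hre hR hSg ht2 ht7 hg2 hg7 χ hχ ψ hker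
    (cf q L K χ).conductor_dvd_level hf1 (hs _ (cf_mem χ) hcne)
    (cf q L K χ).primitiveCharacter (fun c => by rw [← cf_apply, prim_unit])
    (cf q L K χ).primitiveCharacter_isPrimitive

lemma cf_pow (χ : GG q L K →* ℂˣ) (a : ℕ) : cf q L K (χ ^ a) = cf q L K χ ^ a := by
  apply MulChar.ext
  intro c
  rw [cf_apply, MulChar.pow_apply_coe, cf_apply, MonoidHom.pow_apply, Units.val_pow_eq_pow_val]

lemma cond_pow [Fintype (GG q L K)] (χ : GG q L K →* ℂˣ) {a : ℕ}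
    (ha : a.Coprime (Fintype.card (GG q L K))) :
    (cf q L K (χ ^ a)).conductor = (cf q L K χ).conductor := by
  have h1 : χ ^ Fintype.card (GG q L K) = 1 := by
    refine MonoidHom.ext fun g => ?_
    rw [MonoidHom.pow_apply, ← map_pow, pow_card_eq_one, map_one]
    rfl
  have h2 : orderOf χ ∣ Fintype.card (GG q L K) := orderOf_dvd_of_pow_eq_one h1
  obtain ⟨b, hb⟩ := exists_pow_eq_self_of_coprime (Nat.Coprime.coprime_dvd_right h2 ha)
  apply Nat.dvd_antisymm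
  · rw [cf_pow]
    exact DirichletCharacter.conductor_pow_dvd _ _
  · conv_lhs => rw [← hb, cf_pow]
    exact DirichletCharacter.conductor_pow_dvd _ _

/-- the product of the twisted sums is an odd integer -/
theorem prod_wf {s : ℚ → ℤ} {a : ℕ → ℤ} (H : Symb2 s a) (hq : Odd q) (h1 : 1 < q)
    (hco : q.Coprime 14) (hodd : Odd (Module.finrank ℚ K)) (hre : IsRe q L K)
    (hs : SameP q L K) {R : Finset (ZMod q)ˣ} (hR : IsHalf q L K R) (hSg : Sg q L K R)
    {t2 t7 : (ZMod q)ˣ} (ht2 : (t2 : ZMod q) = 2) (ht7 : (t7 : ZMod q) = 7)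
    (hg2 : ∀ x : GG q L K, x ∈ Subgroup.zpowers (mkG q L K t2))
    (hg7 : ∀ x : GG q L K, x ∈ Subgroup.zpowers (mkG q L K t7))
    [Fintype (GG q L K)] (S : Finset (GG q L K →* ℂˣ)) (hS : ∀ χ, χ ∈ S) :
    ∃ N : ℤ, Odd N ∧ ∏ χ ∈ S.erase 1,
      (haveI : NeZero (cf q L K χ).conductor := ⟨(cf q L K χ).conductor_ne_zero⟩
      ∑ g, ((χ g : ℂˣ) : ℂ) * (wf L K s (cf q L K χ).conductor_dvd_level g : ℂ)) = N := by
  refine unitG (card_odd hodd) S hS (fun χ =>
    haveI : NeZero (cf q L K χ).conductor := ⟨(cf q L K χ).conductor_ne_zero⟩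
    wf L K s (cf q L K χ).conductor_dvd_level) ?_ ?_
  · intro χ a ha
    have : NeZero (cf q L K χ).conductor := ⟨(cf q L K χ).conductor_ne_zero⟩
    have : NeZero (cf q L K (χ ^ a)).conductor := ⟨(cf q L K (χ ^ a)).conductor_ne_zero⟩
    apply wf_congr
    exact cond_pow χ ha
  · intro k _ _ χ ψ hχ hker
    exact wf_ne H hq h1 hco hre hs hR hSg ht2 ht7 hg2 hg7 χ hχ ψ hker

end

end Pool.Agent.Y682.XT
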