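import Pool.Agent.Y682.XT.Sig

/-!
# The parity of the narrow class number and the signatures of the cyclotomic units
-/

set_option autoImplicit false

open NumberField IsCyclotomicExtension.Rat H300.HW NumberField.InfinitePlace Finset
  NumberField.Units

namespace Pool.Agent.Y682.XT

open scoped Classical

lemma discr_odd {q : ℕ} [NeZero q] (hq : Odd q) (L : Type) [Field L] [NumberField L]
    [IsCyclotomicExtension {q} ℚ L] (K : IntermediateField ℚ L) : Odd (discr K).natAbs := by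
  have h1 : (discr K).natAbs ∣ (discr L).natAbs := Int.natAbs_dvd_natAbs.2 (discr_dvd_discr K L)
  have h2 : (discr L).natAbs ∣ q ^ q.totient := by
    rw [IsCyclotomicExtension.Rat.natAbs_discr q L]
    exact Nat.div_dvd_of_dvd (Nat.prod_primeFactors_pow_totient_ediv_dvd (NeZero.pos _))
  exact Odd.of_dvd_nat hq.pow (h1.trans h2)

/-- the narrow class number -/
lemma card_NCl (K : Type) [Field K] [NumberField K] :
    Nat.card (Y682.NCl K) = (Y682.sgU K).range.index * classNumber K := by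
  have h1 := Subgroup.relIndex_mul_index (Y682.nPrin_le (K := K))
  rw [Y682.relIndex_nPrin] at h1
  have h2 : (Y682.prin K).index = classNumber K := by
    rw [Subgroup.index]
    have h3 := Nat.card_congr (ClassGroup.equiv (R := 𝓞 K) K).toEquiv
    rw [Nat.card_eq_fintype_card] at h3
    exact h3.symm
  rw [h2] at h1
  rw [h1]
  rfl

lemma odd_NCl_iff (K : Type) [Field K] [NumberField K] :
    Odd (Nat.card (Y682.NCl K)) ↔ Odd (classNumber K) ∧ (Y682.sgU K).range = ⊤ := by
  rw [card_NCl, Nat.odd_mul, and_comm]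
  refine and_congr_right fun _ => ⟨fun h => ?_, fun h => ?_⟩
  · have h1 := Y682.card_signs (K := K)
    have h2 : (Y682.sgU K).range.index ∣ 2 ^ nrRealPlaces K := Dvd.intro_left _ h1
    obtain ⟨i, -, hi⟩ := (Nat.dvd_prime_pow Nat.prime_two).1 h2
    rw [← Subgroup.index_eq_one, hi]
    rcases Nat.eq_zero_or_pos i with rfl | hi0
    · rfl
    · exfalso
      rw [hi] at h
      exact (Nat.not_even_iff_odd.2 h) ((Nat.even_pow).2 ⟨even_two, hi0.ne'⟩)
  · rw [h, Subgroup.index_top]
    exact odd_one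

section

variable {q : ℕ} [NeZero q] {L : Type} [Field L] [NumberField L] [IsCyclotomicExtension {q} ℚ L]
  {K : IntermediateField ℚ L} {φ : L →+* ℂ}

lemma sgU_sig (hre : IsRe q L K) (u : (𝓞 K)ˣ) (g : GG q L K) :
    Y682.sgU K u (rE φ hre g) = 1 ↔ sig φ hre u g = 0 := by
  rw [Y682.sgU_apply]
  unfold sig
  rw [s2_eq_zero]

lemma sig_eq_iff (hre : IsRe q L K) (u v : (𝓞 K)ˣ) :
    Y682.sgU K u = Y682.sgU K v ↔ sig φ hre u = sig φ hre v := by
  have key : ∀ x : ZMod 2, x = 0 ∨ x = 1 := by decide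
  constructor
  · intro h
    funext g
    have h1 := sgU_sig (φ := φ) hre u g
    have h2 := sgU_sig (φ := φ) hre v g
    rw [h] at h1
    rcases key (sig φ hre v g) with h3 | h3
    · rw [h3, h1.1 (h2.2 h3)]
    · rcases key (sig φ hre u g) with h4 | h4
      · rw [h2.1 (h1.2 h4)] at h3
        exact absurd h3 (by decide)
      · rw [h3, h4]
  · intro h
    funext r
    obtain ⟨g, rfl⟩ := (rE_bij (φ := φ) hre).2 r
    have h1 := sgU_sig (φ := φ) hre u g
    have h2 := sgU_sig (φ := φ) hre v g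
    rw [h] at h1
    rcases Int.units_eq_one_or (Y682.sgU K v (rE φ hre g)) with h3 | h3
    · rw [h3, h1.2 (h2.1 h3)]
    · rcases Int.units_eq_one_or (Y682.sgU K u (rE φ hre g)) with h4 | h4
      · rw [h2.2 (h1.1 h4)] at h3
        exact absurd h3 (by decide)
      · rw [h3, h4]

lemma surj_iff (hre : IsRe q L K) :
    (Y682.sgU K).range = ⊤ ↔ ∀ w : GG q L K → ZMod 2, ∃ u, sig φ hre u = w := by
  have key : ∀ x : ZMod 2, x = 0 ∨ x = 1 := by decide
  rw [MonoidHom.range_eq_top]
  constructor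
  · intro h w
    set e := Equiv.ofBijective _ (rE_bij (φ := φ) hre) with he
    obtain ⟨u, hu⟩ := h (fun r => if w (e.symm r) = 0 then 1 else -1)
    refine ⟨u, funext fun g => ?_⟩
    have h1 := sgU_sig (φ := φ) hre u g
    rw [hu] at h1
    have h2 : e.symm (rE φ hre g) = g := e.symm_apply_apply g
    simp only [h2] at h1
    rcases key (w g) with h3 | h3
    · rw [if_pos h3] at h1
      rw [h3, h1.1 rfl]
    · rw [if_neg (by rw [h3]; decide)] at h1
      rw [h3]
      refine (key _).resolve_left fun h4 => ?_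
      exact absurd (h1.2 h4) (by decide)
  · intro h ε
    obtain ⟨u, hu⟩ := h (fun g => if ε (rE φ hre g) = 1 then 0 else 1)
    refine ⟨u, funext fun r => ?_⟩
    obtain ⟨g, rfl⟩ := (rE_bij (φ := φ) hre).2 r
    have h1 := sgU_sig (φ := φ) hre u g
    rw [hu] at h1
    beta_reduce at h1
    rcases Int.units_eq_one_or (ε (rE φ hre g)) with h3 | h3
    · rw [if_pos h3] at h1
      rw [h3, h1.2 rfl]
    · rw [if_neg (by rw [h3]; decide)] at h1
      rw [h3]
      refine (Int.units_eq_one_or _).resolve_left fun h4 => ?_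
      exact absurd (h1.1 h4) (by decide)

include φ in
lemma nr_real (hre : IsRe q L K) : nrComplexPlaces K = 0 := by
  rw [nrComplexPlaces, Fintype.card_eq_zero_iff]
  refine ⟨fun w => ?_⟩
  exact not_isReal_iff_isComplex.2 w.2 (real_place (φ := φ) hre w.1)

include φ in
/-- totally positive units are squares if all the signatures occur -/
lemma ker_le (hre : IsRe q L K) (h : (Y682.sgU K).range = ⊤) :
    (Y682.sgU K).ker ≤ Y682.Esq K := by
  have h1 := Y682.card_units (K := K)
  have h2 := Y682.card_signs (K := K)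
  rw [h, Subgroup.index_top, mul_one] at h2
  rw [h, h2, nr_real (φ := φ) hre, add_zero] at h1
  rw [← Subgroup.relIndex_eq_one]
  exact Nat.eq_of_mul_eq_mul_right (by positivity) (h1.trans (one_mul _).symm)

theorem claimB (hre : IsRe q L K) {U : (ZMod q)ˣ → (𝓞 K)ˣ} (hW : WW φ hre U = ⊤)
    (hfin : (CU U).index ≠ 0) : (Y682.sgU K).range = ⊤ ∧ Odd (CU U).index := by
  have hsurj : ∀ w : GG q L K → ZMod 2, ∃ u ∈ CU U, sig φ hre u = w := by
    intro w
    have : w ∈ WW φ hre U := by rw [hW]; trivial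
    exact this
  have h1 : (Y682.sgU K).range = ⊤ := (surj_iff (φ := φ) hre).2 fun w => by
    obtain ⟨u, -, hu⟩ := hsurj w
    exact ⟨u, hu⟩
  refine ⟨h1, ?_⟩
  have h2 := ker_le (φ := φ) hre h1
  have : (CU U).FiniteIndex := ⟨hfin⟩
  have hQ : Finite ((𝓞 K)ˣ ⧸ CU U) := Subgroup.finite_quotient_of_finiteIndex
  have hsq : Function.Surjective (fun x : (𝓞 K)ˣ ⧸ CU U => x ^ 2) := by
    intro x
    obtain ⟨u, rfl⟩ := QuotientGroup.mk_surjective x
    obtain ⟨c, hc, hcu⟩ := hsurj (sig φ hre u)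
    have h3 : u / c ∈ (Y682.sgU K).ker := by
      rw [MonoidHom.mem_ker, map_div, (sig_eq_iff (φ := φ) hre c u).2 hcu, div_self']
    obtain ⟨w, hw⟩ := h2 h3
    refine ⟨QuotientGroup.mk w, ?_⟩
    show ((w : (𝓞 K)ˣ ⧸ CU U)) ^ 2 = u
    rw [← QuotientGroup.mk_pow, show w ^ 2 = u / c from hw, QuotientGroup.eq]
    have h4 : (u / c)⁻¹ * u = c := by rw [inv_div, div_mul_cancel]
    rw [h4]; exact hc
  have hinj := (Finite.injective_iff_surjective).2 hsq
  rw [← Nat.not_even_iff_odd, even_iff_two_dvd]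
  intro hdvd
  rw [Subgroup.index] at hdvd
  have : Fact (Nat.Prime 2) := ⟨Nat.prime_two⟩
  obtain ⟨x, hx⟩ := exists_prime_orderOf_dvd_card' 2 hdvd
  have h5 : x ^ 2 = 1 := by rw [← hx]; exact pow_orderOf_eq_one x
  have h6 : x = 1 := hinj (by show x ^ 2 = 1 ^ 2; rw [h5, one_pow])
  rw [h6, orderOf_one] at hx
  exact absurd hx (by norm_num)

theorem claimA (hre : IsRe q L K) {U : (ZMod q)ˣ → (𝓞 K)ˣ} (h : (Y682.sgU K).range = ⊤)
    (hidx : Odd (CU U).index) : WW φ hre U = ⊤ := by
  rw [eq_top_iff]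
  intro w _
  obtain ⟨u, hu⟩ := (surj_iff (φ := φ) hre).1 h w
  refine ⟨u ^ (CU U).index, Subgroup.pow_index_mem _ _, ?_⟩
  have h1 : ∀ n : ℕ, Odd n → sig φ hre (u ^ n) = sig φ hre u := by
    rintro n ⟨k, rfl⟩
    have h2 : sig φ hre (u ^ (2 * k)) = 0 := by
      rw [two_mul, pow_add, sig_mul]
      funext g
      exact CharTwo.add_self_eq_zero _
    rw [pow_succ, sig_mul, h2, zero_add]
  rw [h1 _ hidx, hu]

/-- the parity of the narrow class number -/
theorem narrow (hdet : S_DET) (hL1 : S_L1) (hRES : S_RES) (hq : Odd q) (h1 : 1 < q)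
    {R : Finset (ZMod q)ˣ} (hR : IsHalf q L K R)
    {U : (ZMod q)ˣ → (𝓞 K)ˣ} (hU : IsCyc R φ U) (hre : IsRe q L K)
    (hodd : Odd (Module.finrank ℚ K)) (hs : SameP q L K) :
    (Odd (Nat.card (Y682.NCl K)) ↔ Sg q L K R) ∧ (Odd (Nat.card (Y682.NCl K)) →
      Odd (CU U).index) := by
  have : Fintype (GG q L K) := Fintype.ofFinite _
  have : Finite (GG q L K →* ℂˣ) := Finite.of_injective (cf q L K) cf_inj
  have : Fintype (GG q L K →* ℂˣ) := Fintype.ofFinite _
  have hc := cnf_nat hdet hL1 hRES hq h1 hR hU hre hodd hs univ (fun χ => mem_univ χ)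
  have hD := discr_odd hq L K
  have hF : Odd (∏ ψ ∈ univ.erase (1 : GG q L K →* ℂˣ), (cf q L K ψ).conductor) :=
    prod_induction _ Odd (fun a b ha hb => ha.mul hb) odd_one
      (fun ψ _ => Odd.of_dvd_nat hq (cf q L K ψ).conductor_dvd_level)
  have hpar : Odd (classNumber K) ↔ Odd (CU U).index := by
    constructor
    · intro h
      have h2 := (h.pow (n := 2)).mul hF
      rw [hc, Nat.odd_mul] at h2
      exact (Nat.odd_pow_iff two_ne_zero).1 h2.1
    · intro h
      have h2 := (h.pow (n := 2)).mul hD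
      rw [← hc, Nat.odd_mul] at h2
      exact (Nat.odd_pow_iff two_ne_zero).1 h2.1
  have hfin : (CU U).index ≠ 0 := by
    intro h0
    rw [h0] at hc
    have h2 : classNumber K ≠ 0 := (classNumber_pos K).ne'
    have h3 : ∏ ψ ∈ univ.erase (1 : GG q L K →* ℂˣ), (cf q L K ψ).conductor ≠ 0 := by
      rintro h; rw [h] at hF; exact absurd hF (by decide)
    apply mul_ne_zero (pow_ne_zero 2 h2) h3
    rw [hc]; ring
  have hA : Odd (Nat.card (Y682.NCl K)) → Odd (CU U).index := fun h =>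
    hpar.1 ((odd_NCl_iff K).1 h).1
  refine ⟨⟨fun h => ?_, fun h => ?_⟩, hA⟩
  · exact of_WW_top h1 hodd hre hU (claimA (φ := φ) hre ((odd_NCl_iff K).1 h).2 (hA h))
  · obtain ⟨h2, h3⟩ := claimB (φ := φ) hre (WW_top_of h1 hodd hre hU h) hfin
    exact (odd_NCl_iff K).2 ⟨hpar.2 h3, h2⟩

end

end Pool.Agent.Y682.XT
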