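import Pool.Agent.Y682.XT.Val2
import Pool.Agent.Y682.XT.SigB

/-!
# The central value of the `L`-function over the field
-/

set_option autoImplicit false

open Finset NumberField IsCyclotomicExtension.Rat H300.HW

namespace Pool.Agent.Y682.XT

open scoped Classical

open Pool.Agent.W97.MT (ap E14 II II_conj II_add_one II_zero_im)
open Pool.Agent.Y687 (Symb2)

/-- the 2-adic valuation of the ratio -/
lemma padic_half {A B : ℤ} (hA : Odd A) (hB : Odd B) {ε : ℚ} (hε : ε = 1 ∨ ε = -1) :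
    padicValRat 2 (ε * (A / (2 * B))) = -1 ∧ ε * (A / (2 * B)) ≠ 0 := by
  have : Fact (Nat.Prime 2) := ⟨Nat.prime_two⟩
  have hA0 : (A : ℚ) ≠ 0 := by
    rintro h
    have : A = 0 := by exact_mod_cast h
    rw [this] at hA
    exact absurd hA (by decide)
  have hB0 : (B : ℚ) ≠ 0 := by
    rintro h
    have : B = 0 := by exact_mod_cast h
    rw [this] at hB
    exact absurd hB (by decide)
  have key : ∀ {C : ℤ}, Odd C → padicValRat 2 (C : ℚ) = 0 := by
    intro C hC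
    rw [padicValRat.of_int]
    have : ¬ (2 : ℤ) ∣ C := by
      intro h
      exact (Int.not_even_iff_odd.2 hC) (even_iff_two_dvd.2 h)
    rw [padicValInt.eq_zero_of_not_dvd (by exact_mod_cast this)]
    rfl
  have h2 : padicValRat 2 (2 : ℚ) = 1 := by
    have := padicValRat.self (p := 2) (by norm_num)
    exact_mod_cast this
  have h3 : padicValRat 2 ((A : ℚ) / (2 * B)) = -1 := by
    rw [padicValRat.div hA0 (mul_ne_zero two_ne_zero hB0),
      padicValRat.mul two_ne_zero hB0, key hA, key hB, h2]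
    norm_num
  constructor
  · rcases hε with rfl | rfl
    · rw [one_mul]; exact h3
    · rw [neg_one_mul, padicValRat.neg]; exact h3
  · refine mul_ne_zero ?_ (div_ne_zero hA0 (mul_ne_zero two_ne_zero hB0))
    rcases hε with rfl | rfl <;> norm_num

lemma gauss_congr {q : ℕ} [NeZero q] {f f' : ℕ} [NeZero f] [NeZero f'] (hf : f ∣ q) (hf' : f' ∣ q)
    {ρ : DirichletCharacter ℂ f} {ρ' : DirichletCharacter ℂ f'} (he : f = f')
    (h : DirichletCharacter.changeLevel hf ρ = DirichletCharacter.changeLevel hf' ρ') :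
    gaussSum ρ (ZMod.stdAddChar (N := f)) = gaussSum ρ' (ZMod.stdAddChar (N := f')) := by
  subst he
  rw [DirichletCharacter.changeLevel_injective hf h]

section

variable {q : ℕ} [NeZero q]

/-- the Gauss sum of the primitive character -/
noncomputable def gs (χ : DirichletCharacter ℂ q) : ℂ :=
  haveI : NeZero χ.conductor := ⟨χ.conductor_ne_zero⟩
  gaussSum χ.primitiveCharacter (ZMod.stdAddChar (N := χ.conductor))

/-- the Gauss sum of the inverse of the primitive character -/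
noncomputable def gsi (χ : DirichletCharacter ℂ q) : ℂ :=
  haveI : NeZero χ.conductor := ⟨χ.conductor_ne_zero⟩
  gaussSum (χ.primitiveCharacter)⁻¹ (ZMod.stdAddChar (N := χ.conductor))

lemma gsi_eq (χ : DirichletCharacter ℂ q) : gsi χ = gs χ⁻¹ := by
  have : NeZero χ.conductor := ⟨χ.conductor_ne_zero⟩
  have : NeZero (χ⁻¹).conductor := ⟨(χ⁻¹).conductor_ne_zero⟩
  refine gauss_congr χ.conductor_dvd_level (χ⁻¹).conductor_dvd_level
    (DirichletCharacter.conductor_inv χ).symm ?_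
  rw [map_inv, DirichletCharacter.changeLevel_primitiveCharacter,
    DirichletCharacter.changeLevel_primitiveCharacter]

lemma gs_mul {χ : DirichletCharacter ℂ q} (he : χ (-1) = 1) : gs χ * gsi χ = χ.conductor := by
  have : NeZero χ.conductor := ⟨χ.conductor_ne_zero⟩
  exact gauss_mul χ.primitiveCharacter_isPrimitive (prim_even χ he)

variable {L : Type} [Field L] [NumberField L] [IsCyclotomicExtension {q} ℚ L]
  {K : IntermediateField ℚ L}

lemma cf_inv (ψ : GG q L K →* ℂˣ) : cf q L K ψ⁻¹ = (cf q L K ψ)⁻¹ := by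
  apply MulChar.ext
  intro c
  rw [cf_apply, MulChar.inv_apply_eq_inv', cf_apply, MonoidHom.inv_apply,
    Units.val_inv_eq_inv_val]

lemma inv_ne {ψ : GG q L K →* ℂˣ} (h : ψ ≠ 1) : ψ⁻¹ ≠ 1 := fun h' =>
  h (MonoidHom.ext fun g => by
    have h2 := DFunLike.congr_fun h' g
    rw [MonoidHom.inv_apply, MonoidHom.one_apply] at h2
    exact inv_eq_one.1 h2)

lemma inv_inv' (ψ : GG q L K →* ℂˣ) : ψ⁻¹⁻¹ = ψ :=
  MonoidHom.ext fun g => inv_inv _

lemma prod_inv [DecidableEq (GG q L K →* ℂˣ)] {A : Type*} [CommMonoid A] (S : Finset (GG q L K →* ℂˣ)) (hS : ∀ χ, χ ∈ S)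
    (F : (GG q L K →* ℂˣ) → A) : ∏ ψ ∈ S.erase 1, F ψ⁻¹ = ∏ ψ ∈ S.erase 1, F ψ := by
  refine prod_bij' (fun ψ _ => ψ⁻¹) (fun ψ _ => ψ⁻¹) ?_ ?_ ?_ ?_ ?_
  · intro ψ hψ
    exact mem_erase.2 ⟨inv_ne (mem_erase.1 hψ).1, hS _⟩
  · intro ψ hψ
    exact mem_erase.2 ⟨inv_ne (mem_erase.1 hψ).1, hS _⟩
  · intro ψ _
    exact inv_inv' ψ
  · intro ψ _
    exact inv_inv' ψ
  · intro ψ _
    rfl

/-- the square of the product of the Gauss sums -/
lemma prod_gs_sq [DecidableEq (GG q L K →* ℂˣ)] (hre : IsRe q L K) (S : Finset (GG q L K →* ℂˣ)) (hS : ∀ χ, χ ∈ S) :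
    (∏ ψ ∈ S.erase 1, gsi (cf q L K ψ)) ^ 2 =
      ((∏ ψ ∈ S.erase 1, (cf q L K ψ).conductor : ℕ) : ℂ) := by
  have h1 : ∏ ψ ∈ S.erase 1, gsi (cf q L K ψ) = ∏ ψ ∈ S.erase 1, gs (cf q L K ψ) := by
    rw [← prod_inv S hS (fun ψ => gs (cf q L K ψ))]
    refine prod_congr rfl fun ψ _ => ?_
    rw [gsi_eq, cf_inv]
  rw [pow_two]
  conv_lhs => rw [h1]
  rw [← h1]
  conv_lhs => rw [h1]
  rw [show (∏ ψ ∈ S.erase 1, gs (cf q L K ψ)) * (∏ ψ ∈ S.erase 1, gs (cf q L K ψ)) =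
    (∏ ψ ∈ S.erase 1, gs (cf q L K ψ)) * (∏ ψ ∈ S.erase 1, gsi (cf q L K ψ)) by rw [h1],
    ← prod_mul_distrib, Nat.cast_prod]
  exact prod_congr rfl fun ψ _ => gs_mul (even_cf hre ψ)

/-- the twisted sums of the symbols -/
lemma twist_sum (s : ℚ → ℤ) [Fintype (GG q L K)] (ψ : GG q L K →* ℂˣ) :
    haveI : NeZero (cf q L K ψ).conductor := ⟨(cf q L K ψ).conductor_ne_zero⟩
    haveI : NeZero (cf q L K ψ⁻¹).conductor := ⟨(cf q L K ψ⁻¹).conductor_ne_zero⟩
    ∑ u ∈ PU (cf q L K ψ).conductor, ((cf q L K ψ).primitiveCharacter)⁻¹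
        (u : ZMod (cf q L K ψ).conductor) *
        ((s (((u : ZMod (cf q L K ψ).conductor).val : ℚ) / (cf q L K ψ).conductor) : ℤ) : ℂ) =
      ∑ g, (((ψ⁻¹) g : ℂˣ) : ℂ) * (wf L K s (cf q L K ψ⁻¹).conductor_dvd_level g : ℂ) := by
  have : NeZero (cf q L K ψ).conductor := ⟨(cf q L K ψ).conductor_ne_zero⟩
  have : NeZero (cf q L K ψ⁻¹).conductor := ⟨(cf q L K ψ⁻¹).conductor_ne_zero⟩
  have h1 : wf L K s (cf q L K ψ⁻¹).conductor_dvd_level =
      wf L K s (cf q L K ψ).conductor_dvd_level := by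
    apply wf_congr
    rw [cf_inv, DirichletCharacter.conductor_inv]
  show _ = ∑ g, (((ψ⁻¹) g : ℂˣ) : ℂ) * (wf L K s (cf q L K ψ⁻¹).conductor_dvd_level g : ℂ)
  rw [h1, sum_wf]
  refine sum_congr rfl fun u _ => ?_
  congr 1
  rw [MulChar.inv_apply_eq_inv', MonoidHom.inv_apply, Units.val_inv_eq_inv_val, ← cf_apply,
    prim_unit (cf q L K ψ) (sect _ u), map_sect]

variable {φ : L →+* ℂ}

/-- the product of the twisted values -/
theorem main_val {s : ℚ → ℤ} {Op : ℝ} (H : Symb2 s (fun l => ap E14 l))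
    (hv : ∀ r : ℚ, (3 : ℝ) * (II r).re = s r * Op)
    (hlk : S_LK) (hdet : S_DET) (hL1 : S_L1) (hRES : S_RES) (hun : S_UNITS)
    (hq : Odd q) (h1 : 1 < q) (hco : q.Coprime 14) (hodd : Odd (Module.finrank ℚ K))
    (hre : IsRe q L K) (hs : SameP q L K) (hN : Odd (Nat.card (Y682.NCl K)))
    {t2 t7 : (ZMod q)ˣ} (ht2 : (t2 : ZMod q) = 2) (ht7 : (t7 : ZMod q) = 7)
    (hg2 : ∀ x : GG q L K, x ∈ Subgroup.zpowers (mkG q L K t2))
    (hg7 : ∀ x : GG q L K, x ∈ Subgroup.zpowers (mkG q L K t7)) :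
    ∃ G : ℂ → ℂ, Differentiable ℂ G ∧
      (∀ z : ℂ, 3 / 2 < z.re → HasProd (fE (K := K) z) (G z)) ∧
      ∃ r : ℚ, G 1 * ((√|(discr K : ℝ)| : ℝ) : ℂ) =
        (r : ℂ) * (((2 * Op) ^ (Module.finrank ℚ K) : ℝ) : ℂ) ∧ r ≠ 0 ∧
        padicValRat 2 r = -1 := by
  have hfG : Fintype (GG q L K) := Fintype.ofFinite _
  have : Finite (GG q L K →* ℂˣ) := Finite.of_injective (cf q L K) cf_inj
  have hfC : Fintype (GG q L K →* ℂˣ) := Fintype.ofFinite _
  obtain ⟨S, hS⟩ : ∃ S : Finset (GG q L K →* ℂˣ), ∀ χ, χ ∈ S := ⟨univ, fun χ => mem_univ χ⟩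
  obtain ⟨φ, hφ⟩ := exists_phi q L
  obtain ⟨R, hR⟩ := exists_half q L K hq h1 hre
  obtain ⟨U, hU⟩ := exists_cyc hun hq h1 hre hφ hR
  obtain ⟨hnar, hidx⟩ := narrow hdet hL1 hRES hq h1 hR hU hre hodd hs
  have hSg : Sg q L K R := hnar.1 hN
  have hI := hidx hN
  have hcl : Odd (classNumber K) := ((odd_NCl_iff K).1 hN).1
  have hcnf := cnf hdet hL1 hRES hq h1 hR hU hre hodd hs S hS
  obtain ⟨N, hNodd, hprod⟩ := prod_wf H hq h1 hco hodd hre hs hR hSg ht2 ht7 hg2 hg7 S hS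
  obtain ⟨G, hG⟩ := exists_GG hco
  -- the function
  have hfY : Fintype (YY q L K) := Fintype.ofFinite _
  refine ⟨fun z => ∏ χ : YY q L K, G χ z, Differentiable.fun_finsetProd fun χ _ => (hG χ).1, ?_, ?_⟩
  · intro z hz
    have h2 := hlk q hco L K G z hz (fun χ _ => (hG χ).2.1 z hz)
    rwa [finprod_eq_prod_of_fintype] at h2
  -- the value
  have hval : ∏ χ : YY q L K, G χ 1 = ∏ ψ ∈ S, G (cf q L K ψ) 1 := by
    symm
    refine prod_bij (fun ψ _ => (⟨cf q L K ψ, cf_mem ψ⟩ : YY q L K)) ?_ ?_ ?_ ?_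
    · intro ψ _; exact mem_univ _
    · intro ψ _ ψ' _ h
      exact cf_inj (congrArg Subtype.val h)
    · rintro ⟨χ, hχ⟩ _
      obtain ⟨ψ, rfl⟩ := cf_surj hχ
      exact ⟨ψ, hS ψ, rfl⟩
    · intro ψ _; rfl
  show ∃ r : ℚ, (∏ χ : YY q L K, G χ 1) * ((√|(discr K : ℝ)| : ℝ) : ℂ) =
        (r : ℂ) * (((2 * Op) ^ (Module.finrank ℚ K) : ℝ) : ℂ) ∧ r ≠ 0 ∧ padicValRat 2 r = -1
  rw [hval, ← mul_prod_erase S _ (hS 1)]
  -- the trivial character
  have htriv : G (cf q L K 1) 1 = s 0 * Op / 3 := by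
    have : NeZero (cf q L K 1).conductor := ⟨(cf q L K 1).conductor_ne_zero⟩
    have hc1 : (cf q L K 1).conductor = 1 := by
      rw [← DirichletCharacter.eq_one_iff_conductor_eq_one]
      exact cf_one
    have h2 := (hG (cf q L K 1)).2.2
    have h3 := triv_val hv hc1 ((cf q L K 1).primitiveCharacter)⁻¹
    rw [h3.1, h3.2, one_mul] at h2
    exact h2
  -- the other characters
  have hother : ∀ ψ ∈ S.erase 1, gsi (cf q L K ψ) * G (cf q L K ψ) 1 = (2 * Op / 3) *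
      (haveI : NeZero (cf q L K ψ⁻¹).conductor := ⟨(cf q L K ψ⁻¹).conductor_ne_zero⟩
      ∑ g, (((ψ⁻¹) g : ℂˣ) : ℂ) * (wf L K s (cf q L K ψ⁻¹).conductor_dvd_level g : ℂ)) := by
    intro ψ hψ
    have : NeZero (cf q L K ψ).conductor := ⟨(cf q L K ψ).conductor_ne_zero⟩
    have hne : cf q L K ψ ≠ 1 := fun h => (mem_erase.1 hψ).1 (cf_inj (h.trans cf_one.symm))
    have hf1 : 1 < (cf q L K ψ).conductor := by
      have h2 : (cf q L K ψ).conductor ≠ 1 := fun h =>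
        hne (((cf q L K ψ).eq_one_iff_conductor_eq_one).2 h)
      have := (cf q L K ψ).conductor_ne_zero
      omega
    have hfo : Odd (cf q L K ψ).conductor := Odd.of_dvd_nat hq (cf q L K ψ).conductor_dvd_level
    have he : ((cf q L K ψ).primitiveCharacter)⁻¹ (-1) = 1 := by
      rw [MulChar.inv_apply_eq_inv', prim_even _ (even_cf hre ψ), inv_one]
    have h2 := (hG (cf q L K ψ)).2.2
    rw [II_sum hv hfo hf1 he] at h2
    rw [← twist_sum s ψ]
    exact h2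
  have hT : (∏ ψ ∈ S.erase 1, gsi (cf q L K ψ)) * ∏ ψ ∈ S.erase 1, G (cf q L K ψ) 1 =
      (2 * Op / 3) ^ (S.erase 1).card * N := by
    rw [← prod_mul_distrib, prod_congr rfl hother, prod_mul_distrib, prod_const]
    congr 1
    rw [← hprod]
    exact prod_inv S hS (fun ψ =>
      haveI : NeZero (cf q L K ψ).conductor := ⟨(cf q L K ψ).conductor_ne_zero⟩
      ∑ g, ((ψ g : ℂˣ) : ℂ) * (wf L K s (cf q L K ψ).conductor_dvd_level g : ℂ))
  have hT2 := prod_gs_sq hre S hS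
  set T : ℂ := ∏ ψ ∈ S.erase 1, gsi (cf q L K ψ) with hTdef
  set PG : ℂ := ∏ ψ ∈ S.erase 1, G (cf q L K ψ) 1 with hPG
  set F : ℕ := ∏ ψ ∈ S.erase 1, (cf q L K ψ).conductor with hF
  have hF0 : F ≠ 0 := prod_ne_zero_iff.2 fun ψ _ => (cf q L K ψ).conductor_ne_zero
  have hsF : ((Real.sqrt F : ℝ) : ℂ) ^ 2 = (F : ℂ) := by
    rw [← Complex.ofReal_pow, Real.sq_sqrt (Nat.cast_nonneg _)]
    push_cast
    rfl
  have hsF0 : Real.sqrt F ≠ 0 := by
    rw [Real.sqrt_ne_zero (Nat.cast_nonneg _)]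
    exact_mod_cast hF0
  obtain ⟨ε, hε, hTε⟩ : ∃ ε : ℚ, (ε = 1 ∨ ε = -1) ∧ T = (ε : ℂ) * ((Real.sqrt F : ℝ) : ℂ) := by
    have h2 : (T - ((Real.sqrt F : ℝ) : ℂ)) * (T + ((Real.sqrt F : ℝ) : ℂ)) = 0 := by
      linear_combination hT2 - hsF
    rcases mul_eq_zero.1 h2 with h3 | h3
    · exact ⟨1, Or.inl rfl, by push_cast; linear_combination h3⟩
    · exact ⟨-1, Or.inr rfl, by push_cast; linear_combination h3⟩
  have hcard := card_erase S hS
  set d := (S.erase 1).card with hd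
  set h := classNumber K with hh
  set I := (CU U).index with hIdef
  -- the ratio
  have hcnf' : (h : ℂ) * ((Real.sqrt F : ℝ) : ℂ) = (I : ℂ) * ((√|(discr K : ℝ)| : ℝ) : ℂ) := by
    have h2 := congrArg (fun x : ℝ => (x : ℂ)) hcnf
    push_cast at h2
    exact_mod_cast hcnf
  have hs0 : Odd (s 0) := H.odd0
  have hI0 : (I : ℂ) ≠ 0 := by
    have : I ≠ 0 := by
      intro h0; rw [h0] at hI; exact absurd hI (by decide)
    exact_mod_cast this
  have hε2 : (ε : ℂ) * ε = 1 := by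
    rcases hε with rfl | rfl <;> norm_num
  have hA : Odd (s 0 * N * h) := (hs0.mul hNodd).mul (by exact_mod_cast hcl)
  have hB : Odd ((I : ℤ) * 3 ^ (d + 1)) :=
    Odd.mul (by exact_mod_cast hI) (Odd.pow (by decide))
  obtain ⟨hp1, hp2⟩ := padic_half hA hB hε
  refine ⟨_, ?_, hp2, hp1⟩
  rw [htriv, ← hcard]
  have hT0 : ((Real.sqrt F : ℝ) : ℂ) ≠ 0 := by exact_mod_cast hsF0
  have hPG' : PG * ((Real.sqrt F : ℝ) : ℂ) = ε * ((2 * Op / 3) ^ d * N) := by
    rw [hTε] at hT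
    linear_combination (ε : ℂ) * hT - ((Real.sqrt F : ℝ) : ℂ) * PG * hε2
  have key : (s 0 * Op / 3 * PG * ((√|(discr K : ℝ)| : ℝ) : ℂ)) * I =
      ε * (s 0 * N * h) * (Op / 3) * (2 * Op / 3) ^ d := by
    linear_combination (-(s 0 * Op / 3 * PG)) * hcnf' + (s 0 * Op / 3 * h) * hPG'
  apply mul_right_cancel₀ hI0
  rw [key]
  push_cast
  rw [div_pow, mul_pow, pow_succ, mul_pow]
  field_simp
  ring

end

end Pool.Agent.Y682.XT
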