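import Pool.Agent.Y682.XT.Cnf

/-!
# The class number formula for the cyclotomic units, II
-/

set_option autoImplicit false

open NumberField IsCyclotomicExtension.Rat H300.HW NumberField.InfinitePlace Finset

namespace Pool.Agent.Y682.XT

open scoped Classical

section

variable {q : ℕ} [NeZero q] {L : Type} [Field L] [NumberField L] [IsCyclotomicExtension {q} ℚ L]
  {K : IntermediateField ℚ L} {φ : L →+* ℂ}

variable (q L K) in
/-- the Dirichlet character of a character of the Galois group -/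
noncomputable def cf (ψ : GG q L K →* ℂˣ) : DirichletCharacter ℂ q :=
  MulChar.ofUnitHom (ψ.comp (mkG q L K))

lemma cf_apply (ψ : GG q L K →* ℂˣ) (c : (ZMod q)ˣ) :
    cf q L K ψ (c : ZMod q) = ((ψ (mkG q L K c) : ℂˣ) : ℂ) := by
  unfold cf
  rw [MulChar.ofUnitHom_coe]
  rfl

lemma cf_inj : Function.Injective (cf q L K) := by
  intro ψ ψ' h
  refine MonoidHom.ext fun x => Units.ext ?_
  obtain ⟨c, rfl⟩ := mkG_surj x
  rw [← cf_apply, ← cf_apply, h]

lemma cf_one : cf q L K 1 = 1 := by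
  apply MulChar.ext
  intro a
  rw [cf_apply]
  simp

lemma cf_mem (ψ : GG q L K →* ℂˣ) : cf q L K ψ ∈ YY q L K := by
  rw [mem_YY]
  intro σ hσ
  have h1 : galEquivZMod q L σ ∈ HH q L K := by
    rw [mem_HH, MulEquiv.symm_apply_apply]
    exact hσ
  have h2 := cf_apply ψ (galEquivZMod q L σ)
  rw [h2, mkG_one.2 h1, map_one, Units.val_one]

lemma cf_surj {χ : DirichletCharacter ℂ q} (hχ : χ ∈ YY q L K) : ∃ ψ, cf q L K ψ = χ := by
  rw [mem_YY] at hχ
  obtain ⟨ψ, hψ⟩ : ∃ ψ : GG q L K →* ℂˣ, ∀ c, ψ (mkG q L K c) = χ.toUnitHom c := by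
    refine ⟨QuotientGroup.lift (HH q L K) χ.toUnitHom ?_, fun c => rfl⟩
    intro c hc
    rw [mem_HH] at hc
    have h1 := hχ _ hc
    rw [MulEquiv.apply_symm_apply] at h1
    rw [MonoidHom.mem_ker]
    apply Units.ext
    rw [MulChar.coe_toUnitHom, h1, Units.val_one]
  refine ⟨ψ, ?_⟩
  apply MulChar.ext
  intro a
  rw [cf_apply, hψ, MulChar.coe_toUnitHom]

variable (q L K) in
/-- nontrivial characters -/
noncomputable def cfe : {ψ : GG q L K →* ℂˣ // ψ ≠ 1} ≃
    {χ : DirichletCharacter ℂ q // χ ∈ YY q L K ∧ χ ≠ 1} :=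
  Equiv.ofBijective (fun ψ => ⟨cf q L K ψ.1, cf_mem ψ.1, fun h => ψ.2 (cf_inj (h.trans cf_one.symm))⟩)
    (by
      constructor
      · intro ψ ψ' h
        apply Subtype.ext
        apply cf_inj
        exact congrArg Subtype.val h
      · rintro ⟨χ, hχ, h1⟩
        obtain ⟨ψ, rfl⟩ := cf_surj hχ
        exact ⟨⟨ψ, fun h => h1 (by rw [h, cf_one])⟩, rfl⟩)

lemma sum_cf [Fintype (GG q L K)] (ψ : GG q L K →* ℂˣ) :
    ∑ g, ((ψ g : ℂˣ) : ℂ) * (ff q L K g : ℂ) =
      (∑ b : (ZMod q)ˣ, cf q L K ψ (b : ZMod q) * (lg q (b : ZMod q) : ℂ)) / 2 := by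
  rw [← sum_fiberwise univ (fun b : (ZMod q)ˣ => (mkG q L K b)), sum_div]
  refine sum_congr rfl fun g _ => ?_
  unfold ff
  push_cast
  rw [mul_div_assoc', mul_sum]
  congr 1
  refine sum_congr rfl fun b hb => ?_
  rw [mem_filter] at hb
  rw [cf_apply, hb.2]

lemma even_cf (hre : IsRe q L K) (ψ : GG q L K →* ℂˣ) : cf q L K ψ (-1) = 1 := by
  have h1 := cf_apply ψ (-1)
  rw [Units.val_neg, Units.val_one] at h1
  rw [h1, mkG_one.2 hre, map_one, Units.val_one]

lemma prim_even (χ : DirichletCharacter ℂ q) (h : χ (-1) = 1) : χ.primitiveCharacter (-1) = 1 := by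
  have h1 := prim_unit χ (-1)
  rw [Units.val_neg, Units.val_one, h] at h1
  rw [h1, ZMod.unitsMap_val, Units.val_neg, Units.val_one, ZMod.cast_neg χ.conductor_dvd_level,
    ZMod.cast_one χ.conductor_dvd_level]

variable (q L K) in
/-- the prime divisors of `q` divide the nontrivial conductors -/
def SameP : Prop := ∀ χ : DirichletCharacter ℂ q, χ ∈ YY q L K → χ ≠ 1 →
  ∀ p : ℕ, p.Prime → p ∣ q → p ∣ χ.conductor

lemma norm_Lone (hL1 : S_L1) (hre : IsRe q L K) (hs : SameP q L K) [Fintype (GG q L K)]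
    {ψ : GG q L K →* ℂˣ} (hψ : ψ ≠ 1) :
    ‖Lone (cf q L K ψ)‖ * Real.sqrt (cf q L K ψ).conductor =
      2 * ‖∑ g, ((ψ g : ℂˣ) : ℂ) * (ff q L K g : ℂ)‖ := by
  set χ := cf q L K ψ with hχ
  have hne : χ ≠ 1 := fun h => hψ (cf_inj (h.trans cf_one.symm))
  have : NeZero χ.conductor := ⟨χ.conductor_ne_zero⟩
  have h1 := hL1 χ.conductor χ.primitiveCharacter χ.primitiveCharacter_isPrimitive
    (by
      intro h
      apply hne
      rw [← χ.changeLevel_primitiveCharacter, h, map_one])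
    (prim_even χ (even_cf hre ψ))
  have hc : χ.conductor ≠ 1 := fun h => hne ((χ.eq_one_iff_conductor_eq_one).2 h)
  have h2 := char_lg χ hc (hs χ (cf_mem ψ) hne)
  rw [sum_cf, ← hχ, h2, norm_div, Complex.norm_ofNat, mul_div_cancel₀ _ (two_ne_zero)]
  exact h1

/-- the product of the values of the `L`-functions at `1` -/
lemma prod_Lone (hL1 : S_L1) (hRES : S_RES) (hre : IsRe q L K) (hs : SameP q L K)
    [Fintype (GG q L K)] (S : Finset (GG q L K →* ℂˣ)) (hS : ∀ χ, χ ∈ S) :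
    dedekindZeta_residue K * Real.sqrt (∏ ψ ∈ S.erase 1, (cf q L K ψ).conductor : ℕ) =
      2 ^ (S.erase 1).card * ∏ ψ ∈ S.erase 1, ‖∑ g, ((ψ g : ℂˣ) : ℂ) * (ff q L K g : ℂ)‖ := by
  have h1 := hRES q L K
  have : Fintype {ψ : GG q L K →* ℂˣ // ψ ≠ 1} := by
    have : Finite (GG q L K →* ℂˣ) := Finite.of_injective (fun x => (⟨x, hS x⟩ : S)) (by
      intro x y h
      exact congrArg (fun z => z.1) h)
    exact Fintype.ofFinite _
  rw [← finprod_eq_of_bijective (cfe q L K) (cfe q L K).bijective (fun x => rfl),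
    finprod_eq_prod_of_fintype] at h1
  have h2 : ∏ ψ : {ψ : GG q L K →* ℂˣ // ψ ≠ 1}, Lone (cfe q L K ψ).1 =
      ∏ ψ ∈ S.erase 1, Lone (cf q L K ψ) := by
    refine prod_bij (fun ψ _ => ψ.1) ?_ ?_ ?_ ?_
    · intro ψ _
      exact mem_erase.2 ⟨ψ.2, hS _⟩
    · intro ψ _ ψ' _ h
      exact Subtype.ext h
    · intro ψ hψ
      exact ⟨⟨ψ, (mem_erase.1 hψ).1⟩, mem_univ _, rfl⟩
    · intro ψ _
      rfl
  rw [h2] at h1
  have h3 := congrArg norm h1
  rw [Complex.norm_real, Real.norm_of_nonneg (dedekindZeta_residue_pos K).le, norm_prod] at h3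
  rw [h3, Nat.cast_prod, Real.sqrt_prod _ (fun _ _ => Nat.cast_nonneg _), ← prod_mul_distrib,
    ← prod_const, ← prod_mul_distrib]
  refine prod_congr rfl fun ψ hψ => ?_
  exact norm_Lone hL1 hre hs (mem_erase.1 hψ).1

end

end Pool.Agent.Y682.XT
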