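import Pool.Agent.Y682.XT.Cnf2

/-!
# The class number formula for the cyclotomic units, III
-/

set_option autoImplicit false

open NumberField IsCyclotomicExtension.Rat H300.HW NumberField.InfinitePlace Finset
  NumberField.Units

namespace Pool.Agent.Y682.XT

open scoped Classical

section

variable {q : ℕ} [NeZero q] {L : Type} [Field L] [NumberField L] [IsCyclotomicExtension {q} ℚ L]
  {K : IntermediateField ℚ L} {φ : L →+* ℂ}

/-- the group of the cyclotomic units -/
noncomputable def CU (U : (ZMod q)ˣ → (𝓞 K)ˣ) : Subgroup (𝓞 K)ˣ :=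
  Subgroup.closure (Set.range U) ⊔ torsion K

/-- places other than the first -/
noncomputable def rho (φ : L →+* ℂ) (hre : IsRe q L K) :
    {g : GG q L K // g ≠ 1} ≃ {w : InfinitePlace K // w ≠ plG q L K φ 1} :=
  (Equiv.ofBijective (plG q L K φ) (plG_bij hre)).subtypeEquiv (fun g =>
    ⟨fun h h' => h ((plG_bij hre).1 h'), fun h h' => h (by rw [h']; rfl)⟩)

lemma rho_apply (hre : IsRe q L K) (g : {g : GG q L K // g ≠ 1}) :
    (rho φ hre g).1 = plG q L K φ g.1 := rfl

lemma exists_fin (w' : InfinitePlace K) : Nonempty ({w : InfinitePlace K // w ≠ w'} ≃ Fin (rank K)) := by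
  refine ⟨Fintype.equivOfCardEq ?_⟩
  rw [Fintype.card_subtype_compl, Fintype.card_fin, rank, Fintype.card_subtype_eq w']

lemma log_plG (hq : Odd q) (h1 : 1 < q) {R : Finset (ZMod q)ˣ} (hR : IsHalf q L K R)
    {U : (ZMod q)ˣ → (𝓞 K)ˣ} (hU : IsCyc R φ U) (b : (ZMod q)ˣ) (g : GG q L K) :
    Real.log (plG q L K φ g ((U b : 𝓞 K) : K)) =
      ff q L K (g * mkG q L K b) - ff q L K g := by
  obtain ⟨c, rfl⟩ := mkG_surj g
  rw [plG_mk, log_pl hq h1 hR hU]
  rfl

/-- units with the same logarithms differ by torsion -/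
lemma log_eq_torsion (hre : IsRe q L K) (x y : (𝓞 K)ˣ)
    (h : ∀ g : GG q L K, Real.log (plG q L K φ g ((x : 𝓞 K) : K)) =
      Real.log (plG q L K φ g ((y : 𝓞 K) : K))) : x / y ∈ torsion K := by
  rw [NumberField.Units.mem_torsion]
  intro w
  obtain ⟨g, rfl⟩ := (plG_bij (φ := φ) hre).2 w
  have h1 := h g
  have hx : 0 < plG q L K φ g ((x : 𝓞 K) : K) := by
    rw [InfinitePlace.pos_iff]
    exact NumberField.Units.coe_ne_zero x
  have hy : 0 < plG q L K φ g ((y : 𝓞 K) : K) := by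
    rw [InfinitePlace.pos_iff]
    exact NumberField.Units.coe_ne_zero y
  have h2 := Real.log_injOn_pos (Set.mem_Ioi.2 hx) (Set.mem_Ioi.2 hy) h1
  have h3 : ((x / y : (𝓞 K)ˣ) : K) * (y : K) = (x : K) := by
    rw [← NumberField.Units.coe_mul, div_mul_cancel]
  have h4 := congrArg (plG q L K φ g) h3
  rw [map_mul] at h4
  rw [h2] at h4
  exact mul_right_cancel₀ hy.ne' (h4.trans (one_mul _).symm)

/-- the family of the cyclotomic units -/
noncomputable def fam (U : (ZMod q)ˣ → (𝓞 K)ˣ) (φ : L →+* ℂ) (hre : IsRe q L K)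
    (e : {w : InfinitePlace K // w ≠ plG q L K φ 1} ≃ Fin (rank K)) (i : Fin (rank K)) : (𝓞 K)ˣ :=
  U (outG q L K ((rho φ hre).symm (e.symm i)).1)

lemma CU_eq (hq : Odd q) (h1 : 1 < q) {R : Finset (ZMod q)ˣ} (hR : IsHalf q L K R)
    {U : (ZMod q)ˣ → (𝓞 K)ˣ} (hU : IsCyc R φ U) (hre : IsRe q L K)
    (e : {w : InfinitePlace K // w ≠ plG q L K φ 1} ≃ Fin (rank K)) :
    CU U = Subgroup.closure (Set.range (fam U φ hre e)) ⊔ torsion K := by
  unfold CU
  apply le_antisymm
  · refine sup_le ?_ le_sup_right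
    rw [Subgroup.closure_le]
    rintro _ ⟨b, rfl⟩
    by_cases hb : (mkG q L K b) = 1
    · have h2 := log_eq_torsion (φ := φ) hre (U b) 1 (by
        intro g
        rw [log_plG hq h1 hR hU, hb, mul_one, sub_self]
        simp)
      rw [div_one] at h2
      exact Subgroup.mem_sup_right h2
    · set x : {g : GG q L K // g ≠ 1} := ⟨mkG q L K b, hb⟩ with hx
      set c : (ZMod q)ˣ := outG q L K x.1 with hc
      have hmk : (mkG q L K c) = mkG q L K b := by
        rw [hc]; exact mkG_outG _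
      have h2 := log_eq_torsion (φ := φ) hre (U b) (U c) (by
        intro g
        rw [log_plG hq h1 hR hU, log_plG hq h1 hR hU, hmk])
      have h3 : U c ∈ Set.range (fam U φ hre e) := by
        refine ⟨e (rho φ hre x), ?_⟩
        unfold fam
        rw [Equiv.symm_apply_apply, Equiv.symm_apply_apply]
      have h4 : U b = U c * (U b / U c) := by rw [mul_div_cancel]
      show U b ∈ (_ : Subgroup _)
      rw [h4]
      exact Subgroup.mul_mem _ (Subgroup.mem_sup_left (Subgroup.subset_closure h3))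
        (Subgroup.mem_sup_right h2)
  · refine sup_le ?_ le_sup_right
    rw [Subgroup.closure_le]
    rintro _ ⟨i, rfl⟩
    exact Subgroup.mem_sup_left (Subgroup.subset_closure ⟨_, rfl⟩)

lemma reg_fam (hdet : S_DET) (hq : Odd q) (h1 : 1 < q) {R : Finset (ZMod q)ˣ} (hR : IsHalf q L K R)
    {U : (ZMod q)ˣ → (𝓞 K)ˣ} (hU : IsCyc R φ U) (hre : IsRe q L K)
    (e : {w : InfinitePlace K // w ≠ plG q L K φ 1} ≃ Fin (rank K))
    [Fintype (GG q L K)] (S : Finset (GG q L K →* ℂˣ)) (hS : ∀ χ, χ ∈ S) :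
    regOfFamily (fam U φ hre e) =
      ∏ ψ ∈ S.erase 1, ‖∑ g, ((ψ g : ℂˣ) : ℂ) * (ff q L K g : ℂ)‖ := by
  rw [regOfFamily_eq_det _ _ e]
  have h2 := hdet (GG q L K) (ff q L K) S hS
  have h3 : (Matrix.of fun g h : {g : GG q L K // g ≠ 1} =>
      ff q L K (g.1 * h.1) - ff q L K g.1).det = (Matrix.of fun (i w : {w // w ≠ plG q L K φ 1}) =>
        (mult w.val : ℝ) * Real.log (w.val (fam U φ hre e (e i) : K))).det := by
    rw [← Matrix.det_transpose, ← Matrix.det_submatrix_equiv_self (rho φ hre)]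
    congr 1
    ext h g
    rw [Matrix.submatrix_apply, Matrix.transpose_apply, Matrix.of_apply, Matrix.of_apply]
    have hreal : IsReal (rho φ hre g).1 := real_place (φ := φ) hre _
    rw [mult_isReal ⟨_, hreal⟩, Nat.cast_one, one_mul, rho_apply]
    unfold fam
    rw [Equiv.symm_apply_apply, Equiv.symm_apply_apply, log_plG hq h1 hR hU]
    congr 2
    rw [mkG_outG]
  rw [← h3, h2]

lemma card_erase [Fintype (GG q L K)] (S : Finset (GG q L K →* ℂˣ)) (hS : ∀ χ, χ ∈ S) :
    (S.erase 1).card + 1 = Module.finrank ℚ K := by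
  have : Fintype (GG q L K →* ℂˣ) := ⟨S, hS⟩
  rw [card_erase_of_mem (hS 1), Nat.sub_add_cancel (card_pos.2 ⟨1, hS 1⟩), ← card_GG (q := q)]
  have h1 : S = univ := by ext; simp [hS]
  rw [h1, card_univ, ← Nat.card_eq_fintype_card, CommGroup.card_monoidHom_of_hasEnoughRootsOfUnity]

/-- the class number formula -/
theorem cnf (hdet : S_DET) (hL1 : S_L1) (hRES : S_RES) (hq : Odd q) (h1 : 1 < q)
    {R : Finset (ZMod q)ˣ} (hR : IsHalf q L K R)
    {U : (ZMod q)ˣ → (𝓞 K)ˣ} (hU : IsCyc R φ U) (hre : IsRe q L K)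
    (hodd : Odd (Module.finrank ℚ K)) (hs : SameP q L K)
    [Fintype (GG q L K)] (S : Finset (GG q L K →* ℂˣ)) (hS : ∀ χ, χ ∈ S) :
    (classNumber K : ℝ) * Real.sqrt (∏ ψ ∈ S.erase 1, (cf q L K ψ).conductor : ℕ) =
      (CU U).index * Real.sqrt |discr K| := by
  obtain ⟨e⟩ := exists_fin (plG q L K φ 1)
  have h2 := regOfFamily_div_regulator (fam U φ hre e)
  rw [← CU_eq hq h1 hR hU hre e, reg_fam hdet hq h1 hR hU hre e S hS] at h2
  have h3 := prod_Lone hL1 hRES hre hs S hS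
  have hreg := regulator_pos K
  rw [div_eq_iff hreg.ne'] at h2
  rw [h2, dedekindZeta_residue_def, torsionOrder_eq_two_of_odd_finrank hodd] at h3
  have hc0 : nrComplexPlaces K = 0 := by
    rw [nrComplexPlaces, Fintype.card_eq_zero_iff]
    refine ⟨fun w => ?_⟩
    exact not_isReal_iff_isComplex.2 w.2 (real_place (φ := φ) hre w.1)
  have hr : nrRealPlaces K = (S.erase 1).card + 1 := by
    rw [card_erase S hS, ← card_add_two_mul_card_eq_rank, hc0, mul_zero, add_zero]
  rw [hc0, hr] at h3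
  have hD : 0 < Real.sqrt |(discr K : ℝ)| := by
    apply Real.sqrt_pos_of_pos
    exact abs_pos.2 (Int.cast_ne_zero.2 (discr_ne_zero K))
  have h4 : (2 : ℝ) ^ (S.erase 1).card ≠ 0 := by positivity
  push_cast at h3 ⊢
  field_simp at h3
  rw [pow_succ] at h3
  apply mul_left_cancel₀ h4
  linear_combination h3 / 2

/-- the class number formula as an identity of integers -/
theorem cnf_nat (hdet : S_DET) (hL1 : S_L1) (hRES : S_RES) (hq : Odd q) (h1 : 1 < q)
    {R : Finset (ZMod q)ˣ} (hR : IsHalf q L K R)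
    {U : (ZMod q)ˣ → (𝓞 K)ˣ} (hU : IsCyc R φ U) (hre : IsRe q L K)
    (hodd : Odd (Module.finrank ℚ K)) (hs : SameP q L K)
    [Fintype (GG q L K)] (S : Finset (GG q L K →* ℂˣ)) (hS : ∀ χ, χ ∈ S) :
    classNumber K ^ 2 * ∏ ψ ∈ S.erase 1, (cf q L K ψ).conductor =
      (CU U).index ^ 2 * (discr K).natAbs := by
  have h2 := cnf hdet hL1 hRES hq h1 hR hU hre hodd hs S hS
  have h3 := congrArg (fun x : ℝ => x ^ 2) h2
  simp only [mul_pow] at h3
  rw [Real.sq_sqrt (Nat.cast_nonneg _), Real.sq_sqrt (abs_nonneg _)] at h3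
  have h4 : |(discr K : ℝ)| = ((discr K).natAbs : ℝ) := by
    rw [Nat.cast_natAbs, Int.cast_abs]
  rw [h4] at h3
  exact_mod_cast h3

end

end Pool.Agent.Y682.XT
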