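import Pool.Agent.Y682.XT.Stm

/-!
# The embeddings of a real subfield of a cyclotomic field
-/

set_option autoImplicit false

open NumberField IsCyclotomicExtension.Rat H300.HW NumberField.InfinitePlace

namespace Pool.Agent.Y682.XT

section

variable (q : ℕ) [NeZero q] (L : Type) [Field L] [NumberField L] [IsCyclotomicExtension {q} ℚ L]
  (K : IntermediateField ℚ L)

/-- the subgroup of `(ZMod q)ˣ` attached to `K` -/
noncomputable def HH : Subgroup (ZMod q)ˣ :=
  K.fixingSubgroup.comap ((galEquivZMod q L).symm : (ZMod q)ˣ →* Gal(L/ℚ))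

lemma mem_HH {c : (ZMod q)ˣ} : c ∈ HH q L K ↔ (galEquivZMod q L).symm c ∈ K.fixingSubgroup :=
  Iff.rfl

lemma index_HH : (HH q L K).index = Module.finrank ℚ K := by
  have hgal : IsGalois ℚ L := IsCyclotomicExtension.isGalois {q} ℚ L
  rw [IntermediateField.finrank_eq_fixingSubgroup_index]
  unfold HH
  exact Subgroup.index_comap_of_surjective _ (galEquivZMod q L).symm.surjective

lemma exists_phi : ∃ φ : L →+* ℂ,
    φ ((zz q L : 𝓞 L) : L) = Complex.exp (2 * Real.pi * Complex.I / q) := by
  obtain ⟨φ₀⟩ : Nonempty (L →+* ℂ) := inferInstance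
  have hz : IsPrimitiveRoot (φ₀ ((zz q L : 𝓞 L) : L)) q := by
    have h1 : IsPrimitiveRoot ((zz q L : 𝓞 L) : L) q := by
      have := zz_prim q L
      exact this.map_of_injective (f := algebraMap (𝓞 L) L) (RingOfIntegers.coe_injective)
    exact h1.map_of_injective φ₀.injective
  have he : IsPrimitiveRoot (Complex.exp (2 * Real.pi * Complex.I / q)) q :=
    Complex.isPrimitiveRoot_exp q (NeZero.ne q)
  obtain ⟨i, hi, hco, hpow⟩ := (hz.isPrimitiveRoot_iff).1 he
  refine ⟨φ₀.comp ((galEquivZMod q L).symm (ZMod.unitOfCoprime i hco) : L →+* L), ?_⟩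
  have h2 := galEquivZMod_apply_of_pow_eq q L ((galEquivZMod q L).symm (ZMod.unitOfCoprime i hco))
    (x := ((zz q L : 𝓞 L) : L)) (by
      have := (zz_prim q L).pow_eq_one
      have h3 := congrArg (fun x : 𝓞 L => (x : L)) this
      simpa using h3)
  rw [MulEquiv.apply_symm_apply] at h2
  rw [RingHom.comp_apply]
  show φ₀ ((galEquivZMod q L).symm (ZMod.unitOfCoprime i hco) ((zz q L : 𝓞 L) : L)) = _
  rw [h2, map_pow, ← hpow, ZMod.coe_unitOfCoprime, ZMod.val_natCast, Nat.mod_eq_of_lt hi]

variable (φ : L →+* ℂ)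

/-- the embedding of `K` attached to `c` -/
noncomputable def emb (c : (ZMod q)ˣ) : K →+* ℂ :=
  (φ.comp ((galEquivZMod q L).symm c : L →+* L)).comp (algebraMap K L)

lemma emb_apply (c : (ZMod q)ˣ) (x : K) :
    emb q L K φ c x = φ ((galEquivZMod q L).symm c (x : L)) := rfl

variable {q L K φ}

lemma emb_eq_iff {c c' : (ZMod q)ˣ} : emb q L K φ c = emb q L K φ c' ↔ c⁻¹ * c' ∈ HH q L K := by
  rw [mem_HH, IntermediateField.mem_fixingSubgroup_iff]
  have key : ∀ x : L, ((galEquivZMod q L).symm (c⁻¹ * c')) x = x ↔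
      (galEquivZMod q L).symm c x = (galEquivZMod q L).symm c' x := by
    intro x
    rw [map_mul, map_inv]
    constructor
    · intro h
      have h1 := congrArg ((galEquivZMod q L).symm c) h
      rw [← h1, ← AlgEquiv.mul_apply, ← mul_assoc, mul_inv_cancel, one_mul]
    · intro h
      rw [AlgEquiv.mul_apply, ← h, ← AlgEquiv.mul_apply, inv_mul_cancel, AlgEquiv.one_apply]
  constructor
  · intro h x hx
    rw [key]
    have h1 := congrArg (fun f : K →+* ℂ => f ⟨x, hx⟩) h
    exact φ.injective h1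
  · intro h
    ext x
    rw [emb_apply, emb_apply]
    rw [(key x).1 (h x x.2)]

variable (q L K) in
/-- `K` is real -/
def IsRe : Prop := (-1 : (ZMod q)ˣ) ∈ HH q L K

lemma conj_emb (hre : IsRe q L K) (c : (ZMod q)ˣ) (x : K) :
    (starRingEnd ℂ) (emb q L K φ c x) = emb q L K φ c x := by
  -- complex conjugation is `σ_{-1}`
  have hcj : ∀ y : L, (starRingEnd ℂ) (φ y) = φ ((galEquivZMod q L).symm (-1) y) := by
    set f : L →+* ℂ := φ.comp ((galEquivZMod q L).symm (-1) : L ≃ₐ[ℚ] L).toAlgHom.toRingHom with hf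
    set g : L →+* ℂ := (starRingEnd ℂ).comp φ with hg
    have h1 : f.comp (algebraMap (𝓞 L) L) = g.comp (algebraMap (𝓞 L) L) := by
      apply hom_ext q L
      set z : ℂ := φ ((zz q L : 𝓞 L) : L) with hz
      have hzn : z ^ q = 1 := by
        rw [hz, ← map_pow]
        have h2 := (zz_prim q L).pow_eq_one
        have h3 := congrArg (fun x : 𝓞 L => (x : L)) h2
        simp only [RingOfIntegers.map_mk, map_pow, map_one] at h3
        rw [show ((zz q L : 𝓞 L) : L) ^ q = 1 from h3, map_one]
      have hz0 : z ≠ 0 := by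
        intro h
        rw [h, zero_pow (NeZero.ne q)] at hzn
        exact zero_ne_one hzn
      have e1 : f (algebraMap (𝓞 L) L (zz q L)) = z ^ ((-1 : (ZMod q)ˣ) : ZMod q).val := by
        have h4 := smul_zz q L ((galEquivZMod q L).symm (-1))
        rw [MulEquiv.apply_symm_apply] at h4
        have h6 := congrArg (fun x : 𝓞 L => φ (x : L)) h4
        simp only [map_pow] at h6
        exact h6
      have e2 : z ^ ((-1 : (ZMod q)ˣ) : ZMod q).val * z = 1 := by
        rw [← pow_succ]
        have h7 : q ∣ ((-1 : (ZMod q)ˣ) : ZMod q).val + 1 := by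
          rw [← ZMod.natCast_eq_zero_iff]
          push_cast
          rw [ZMod.natCast_zmod_val]
          ring
        obtain ⟨t, ht⟩ := h7
        rw [ht, pow_mul, hzn, one_pow]
      have e3 : (starRingEnd ℂ) z * z = 1 := by
        rw [mul_comm, Complex.mul_conj, Complex.normSq_eq_norm_sq]
        have : ‖z‖ = 1 := Complex.norm_eq_one_of_pow_eq_one hzn (NeZero.ne q)
        rw [this]; simp
      show f (algebraMap (𝓞 L) L (zz q L)) = (starRingEnd ℂ) z
      rw [e1]
      exact mul_right_cancel₀ hz0 (e2.trans e3.symm)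
    have h2 : f = g := IsLocalization.ringHom_ext (nonZeroDivisors (𝓞 L)) h1
    intro y
    exact (congrArg (fun h : L →+* ℂ => h y) h2).symm
  rw [emb_apply, hcj]
  have h1 := hre
  unfold IsRe at h1
  rw [mem_HH, IntermediateField.mem_fixingSubgroup_iff] at h1
  rw [← AlgEquiv.mul_apply, ← map_mul, mul_comm, map_mul, AlgEquiv.mul_apply, h1 x x.2]

lemma isReal_emb (hre : IsRe q L K) (c : (ZMod q)ˣ) :
    ComplexEmbedding.IsReal (emb q L K φ c) := by
  rw [ComplexEmbedding.isReal_iff]
  ext x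
  exact conj_emb hre c x

variable (q L K φ) in
/-- the place attached to `c` -/
noncomputable def pl (c : (ZMod q)ˣ) : InfinitePlace K := InfinitePlace.mk (emb q L K φ c)

lemma pl_apply (c : (ZMod q)ˣ) (x : K) : pl q L K φ c x = ‖emb q L K φ c x‖ :=
  InfinitePlace.apply _ _

lemma pl_eq_iff (hre : IsRe q L K) {c c' : (ZMod q)ˣ} :
    pl q L K φ c = pl q L K φ c' ↔ c⁻¹ * c' ∈ HH q L K := by
  unfold pl
  rw [InfinitePlace.mk_eq_iff, ComplexEmbedding.isReal_iff.1 (isReal_emb hre c), or_self_iff,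
    emb_eq_iff]

variable (q L K) in
/-- the group `Gal(K/ℚ)` -/
def GG : Type := (ZMod q)ˣ ⧸ HH q L K

noncomputable instance : CommGroup (GG q L K) := QuotientGroup.Quotient.commGroup _

instance : Finite (GG q L K) := inferInstanceAs (Finite ((ZMod q)ˣ ⧸ HH q L K))

variable (q L K) in
/-- the class of `c` -/
noncomputable def mkG : (ZMod q)ˣ →* GG q L K := QuotientGroup.mk' (HH q L K)

lemma mkG_surj : Function.Surjective (mkG q L K) := QuotientGroup.mk'_surjective _

lemma mkG_eq {c c' : (ZMod q)ˣ} : mkG q L K c = mkG q L K c' ↔ c⁻¹ * c' ∈ HH q L K :=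
  QuotientGroup.eq

lemma mkG_one {c : (ZMod q)ˣ} : mkG q L K c = 1 ↔ c ∈ HH q L K :=
  QuotientGroup.eq_one_iff c

lemma card_GG : Nat.card (GG q L K) = Module.finrank ℚ K := by
  rw [← index_HH (q := q), Subgroup.index_eq_card]
  rfl

variable (q L K) in
/-- a representative -/
noncomputable def outG (g : GG q L K) : (ZMod q)ˣ := (mkG_surj (L := L) g).choose

lemma mkG_outG (g : GG q L K) : mkG q L K (outG q L K g) = g := (mkG_surj (L := L) g).choose_spec

variable (q L K φ) in
/-- the embedding attached to a class -/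
noncomputable def embG : GG q L K → (K →+* ℂ) :=
  Quotient.lift (fun c => emb q L K φ c) (by
    intro c c' h
    exact emb_eq_iff.2 (QuotientGroup.leftRel_apply.1 h))

lemma embG_mk (c : (ZMod q)ˣ) : embG q L K φ (mkG q L K c) = emb q L K φ c := rfl

lemma embG_bij : Function.Bijective (embG q L K φ) := by
  have hinj : Function.Injective (embG q L K φ) := by
    intro x y h
    obtain ⟨c, rfl⟩ := mkG_surj x
    obtain ⟨c', rfl⟩ := mkG_surj y
    rw [embG_mk, embG_mk, emb_eq_iff] at h
    exact mkG_eq.2 h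
  refine (Nat.bijective_iff_injective_and_card _).2 ⟨hinj, ?_⟩
  rw [card_GG, Nat.card_eq_fintype_card, Embeddings.card]

variable (q L K φ) in
/-- the place attached to a class -/
noncomputable def plG (x : GG q L K) : InfinitePlace K :=
  InfinitePlace.mk (embG q L K φ x)

lemma plG_mk (c : (ZMod q)ˣ) : plG q L K φ (mkG q L K c) = pl q L K φ c := rfl

lemma plG_bij (hre : IsRe q L K) : Function.Bijective (plG q L K φ) := by
  constructor
  · intro x y h
    obtain ⟨c, rfl⟩ := mkG_surj x
    obtain ⟨c', rfl⟩ := mkG_surj y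
    rw [plG_mk, plG_mk, pl_eq_iff hre] at h
    exact mkG_eq.2 h
  · intro w
    obtain ⟨x, hx⟩ := embG_bij (q := q) (L := L) (K := K) (φ := φ) |>.2 w.embedding
    refine ⟨x, ?_⟩
    unfold plG
    rw [hx, InfinitePlace.mk_embedding]

include φ in
lemma real_place (hre : IsRe q L K) (w : InfinitePlace K) : w.IsReal := by
  obtain ⟨x, rfl⟩ := (plG_bij (φ := φ) hre).2 w
  obtain ⟨c, rfl⟩ := mkG_surj x
  exact ⟨_, isReal_emb hre c, rfl⟩

end

end Pool.Agent.Y682.XT
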