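import Mathlib

/-!
# Translation invariant spaces of functions modulo two on a group of odd order
-/

set_option autoImplicit false

open Finset

namespace Pool.Agent.Y682.XT

/-- the parities in a ring of characteristic two -/
noncomputable def c2 (k : Type) [Field k] [CharP k 2] : ZMod 2 →+* k := ZMod.castHom (dvd_refl 2) k

lemma c2_one (k : Type) [Field k] [CharP k 2] : c2 k 1 = 1 := map_one _

section

variable {G : Type} [CommGroup G] [Fintype G]

lemma charSum_eq_zero {k : Type} [Field k] {ψ : G →* k} (hψ : ψ ≠ 1) : ∑ g, ψ g = 0 := by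
  obtain ⟨h, hh⟩ : ∃ h, ψ h ≠ 1 := by
    by_contra hcon
    push Not at hcon
    exact hψ (MonoidHom.ext hcon)
  have h1 : ψ h * ∑ g, ψ g = ∑ g, ψ g := by
    rw [mul_sum]
    exact Fintype.sum_equiv (Equiv.mulLeft h) _ _ (fun g => (map_mul ψ h g).symm)
  have h2 : (ψ h - 1) * ∑ g, ψ g = 0 := by rw [sub_mul, h1, one_mul, sub_self]
  exact (mul_eq_zero.1 h2).resolve_left (sub_ne_zero.2 hh)

theorem ideal_top (hodd : Odd (Fintype.card G)) (W : AddSubgroup (G → ZMod 2))
    (hone : (fun _ => 1) ∈ W) (htr : ∀ w ∈ W, ∀ h, (fun g => w (h * g)) ∈ W)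
    (hk : ∀ (k : Type) [Field k] [CharP k 2] (ψ : G →* k), ψ ≠ 1 →
      ∃ w ∈ W, ∑ g, ψ g * c2 k (w g) ≠ 0) : W = ⊤ := by
  classical
  have hsm : ∀ (r : ZMod 2) (w : G → ZMod 2), w ∈ W → (fun g => r * w g) ∈ W := by
    intro r w hw
    have : ∀ r : ZMod 2, r = 0 ∨ r = 1 := by decide
    rcases this r with rfl | rfl
    · have : (fun g => (0 : ZMod 2) * w g) = 0 := by funext g; simp
      rw [this]; exact W.zero_mem
    · simpa using hw
  let I : Ideal (MonoidAlgebra (ZMod 2) G) :=
    { carrier := {x | (fun g => x.coeff g) ∈ W}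
      add_mem' := by
        intro x y hx hy
        exact W.add_mem hx hy
      zero_mem' := W.zero_mem
      smul_mem' := by
        intro c x hx
        have key : ∀ c : MonoidAlgebra (ZMod 2) G, (fun g => (c * x).coeff g) ∈ W := by
          intro c
          induction c using MonoidAlgebra.induction_on with
          | of m =>
            have : (fun g => (MonoidAlgebra.of (ZMod 2) G m * x).coeff g) =
                fun g => x.coeff (m⁻¹ * g) := by
              funext g
              rw [MonoidAlgebra.of_apply, MonoidAlgebra.coeff_single_mul_apply, one_mul]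
            rw [this]
            exact htr _ hx _
          | add a b ha hb =>
            have : (fun g => ((a + b) * x).coeff g) =
                (fun g => (a * x).coeff g) + fun g => (b * x).coeff g := by
              funext g
              rw [add_mul]
              rfl
            rw [this]
            exact W.add_mem ha hb
          | smul r a ha =>
            have : (fun g => ((r • a) * x).coeff g) = fun g => r * (a * x).coeff g := by
              funext g
              rw [smul_mul_assoc]
              rfl
            rw [this]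
            exact hsm _ _ ha
        exact key c }
  have hI : ∀ x, x ∈ I ↔ (fun g => x.coeff g) ∈ W := fun x => Iff.rfl
  by_cases htop : I = ⊤
  · rw [eq_top_iff]
    intro w _
    have h1 : MonoidAlgebra.ofCoeff (Finsupp.equivFunOnFinite.symm w) ∈ I := by
      rw [htop]; trivial
    exact (hI _).1 h1
  · exfalso
    obtain ⟨m, hm, hIm⟩ := Ideal.exists_le_maximal I htop
    let : Field (MonoidAlgebra (ZMod 2) G ⧸ m) := Ideal.Quotient.field m
    have : CharP (MonoidAlgebra (ZMod 2) G ⧸ m) 2 :=
      charP_of_injective_algebraMap (algebraMap (ZMod 2) (MonoidAlgebra (ZMod 2) G ⧸ m)).injective 2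
    set ψ : G →* (MonoidAlgebra (ZMod 2) G ⧸ m) :=
      ((Ideal.Quotient.mk m : _ →+* _) : MonoidAlgebra (ZMod 2) G →* _).comp
        (MonoidAlgebra.of (ZMod 2) G) with hψ
    have key : ∀ w ∈ W, ∑ g, ψ g * c2 _ (w g) = 0 := by
      intro w hw
      have h1 : MonoidAlgebra.ofCoeff (Finsupp.equivFunOnFinite.symm w) ∈ m :=
        hIm ((hI _).2 hw)
      rw [← Ideal.Quotient.eq_zero_iff_mem] at h1
      rw [← h1]
      have h2 : MonoidAlgebra.ofCoeff (Finsupp.equivFunOnFinite.symm w) =
          ∑ g, MonoidAlgebra.of (ZMod 2) G g * algebraMap (ZMod 2) _ (w g) := by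
        have h4 : ∀ g, MonoidAlgebra.of (ZMod 2) G g * algebraMap (ZMod 2) _ (w g) =
            MonoidAlgebra.single g (w g) := by
          intro g
          rw [← Algebra.commutes, ← Algebra.smul_def, MonoidAlgebra.of_apply,
            MonoidAlgebra.smul_single, smul_eq_mul, mul_one]
        rw [sum_congr rfl fun g _ => h4 g]
        ext h
        rw [MonoidAlgebra.coeff_sum, Finsupp.finsetSum_apply]
        simp [Finsupp.single_apply]
      rw [h2, map_sum]
      refine sum_congr rfl fun g _ => ?_
      rw [map_mul]
      congr 1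
      have h3 : c2 (MonoidAlgebra (ZMod 2) G ⧸ m) =
          (Ideal.Quotient.mk m).comp (algebraMap (ZMod 2) (MonoidAlgebra (ZMod 2) G)) :=
        Subsingleton.elim _ _
      rw [h3]
      rfl
    by_cases h1 : ψ = 1
    · have h2 := key _ hone
      rw [h1] at h2
      simp only [MonoidHom.one_apply, c2_one, sum_const, card_univ, nsmul_eq_mul,
        mul_one] at h2
      rw [CharP.cast_eq_zero_iff (MonoidAlgebra (ZMod 2) G ⧸ m) 2] at h2
      exact (Nat.not_even_iff_odd.2 hodd) (even_iff_two_dvd.2 h2)
    · obtain ⟨w, hw, hne⟩ := hk _ ψ h1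
      exact hne (key w hw)

end

end Pool.Agent.Y682.XT
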