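import Pool.Agent.Y682.XT.Cnf3
import Pool.Agent.Y682.XT.Grp
import Pool.Agent.Y682.Hc

/-!
# The signatures of the cyclotomic units
-/

set_option autoImplicit false

open NumberField IsCyclotomicExtension.Rat H300.HW NumberField.InfinitePlace Finset
  NumberField.Units

namespace Pool.Agent.Y682.XT

open scoped Classical

/-- the parity of a residue -/
def oo {M : ℕ} (x : ZMod M) : ZMod 2 := ((x.val : ℕ) : ZMod 2)

lemma oo_neg {M : ℕ} [NeZero M] (hM : Odd M) {x : ZMod M} (hx : x ≠ 0) : oo (-x) = oo x + 1 := by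
  unfold oo
  have h0 : (-x).val = M - x.val := by rw [ZMod.neg_val, if_neg hx]
  have h1 := ZMod.val_lt x
  have h2 : (((M - x.val) + x.val : ℕ) : ZMod 2) = 1 := by
    rw [Nat.sub_add_cancel h1.le]
    exact (ZMod.natCast_eq_one_iff_odd).2 hM
  rw [h0]
  push_cast at h2
  have h4 : (((x.val : ℕ)) : ZMod 2) + ((x.val : ℕ) : ZMod 2) = 0 := CharTwo.add_self_eq_zero _
  linear_combination h2 - h4

lemma unit_ne {M : ℕ} [NeZero M] (h1 : 1 < M) (c : (ZMod M)ˣ) : (c : ZMod M) ≠ 0 := by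
  have : Nontrivial (ZMod M) := by
    have : Fact (1 < M) := ⟨h1⟩
    infer_instance
  exact c.ne_zero

/-- the sign of a real number -/
noncomputable def s2 (r : ℝ) : ZMod 2 := if 0 < r then 0 else 1

lemma s2_eq_zero {r : ℝ} : s2 r = 0 ↔ 0 < r := by
  unfold s2
  split_ifs with h
  · exact ⟨fun _ => h, fun _ => rfl⟩
  · exact ⟨fun h' => absurd h' (by decide), fun h' => absurd h' h⟩

lemma s2_mul {r s : ℝ} (hr : r ≠ 0) (hs : s ≠ 0) : s2 (r * s) = s2 r + s2 s := by
  unfold s2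
  rcases lt_or_gt_of_ne hr with h1 | h1 <;> rcases lt_or_gt_of_ne hs with h2 | h2
  · rw [if_pos (mul_pos_of_neg_of_neg h1 h2), if_neg h1.not_gt, if_neg h2.not_gt]; decide
  · rw [if_neg (mul_neg_of_neg_of_pos h1 h2).not_gt, if_neg h1.not_gt, if_pos h2]; decide
  · rw [if_neg (mul_neg_of_pos_of_neg h1 h2).not_gt, if_pos h1, if_neg h2.not_gt]; decide
  · rw [if_pos (mul_pos h1 h2), if_pos h1, if_pos h2]; decide

lemma s2_one : s2 1 = 0 := s2_eq_zero.2 one_pos

lemma s2_neg {r : ℝ} (hr : r ≠ 0) : s2 (-r) = s2 r + 1 := by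
  rw [← neg_one_mul, s2_mul (by norm_num) hr]
  have : s2 (-1) = 1 := by
    unfold s2
    rw [if_neg (by norm_num)]
  rw [this, add_comm]

lemma s2_inv {r : ℝ} : s2 r⁻¹ = s2 r := by
  unfold s2
  simp only [inv_pos]

lemma s2_div {r s : ℝ} (hr : r ≠ 0) (hs : s ≠ 0) : s2 (r / s) = s2 r + s2 s := by
  rw [div_eq_mul_inv, s2_mul hr (inv_ne_zero hs), s2_inv]

lemma s2_prod {ι : Type*} (S : Finset ι) (f : ι → ℝ) (hf : ∀ i ∈ S, f i ≠ 0) :
    s2 (∏ i ∈ S, f i) = ∑ i ∈ S, s2 (f i) := by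
  induction S using Finset.induction_on with
  | empty => rw [prod_empty, sum_empty, s2_one]
  | insert a S ha ih =>
    rw [prod_insert ha, sum_insert ha, s2_mul (hf a (mem_insert_self _ _))
      (prod_ne_zero_iff.2 fun i hi => hf i (mem_insert_of_mem hi)),
      ih fun i hi => hf i (mem_insert_of_mem hi)]

lemma s2_th {q : ℕ} [NeZero q] (h1 : 1 < q) (c : (ZMod q)ˣ) : s2 (th q (c : ZMod q)) = oo (c : ZMod q) := by
  unfold th
  have hq0 : (0 : ℝ) < q := by exact_mod_cast (by omega : 0 < q)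
  have hv : 0 < (c : ZMod q).val :=
    Nat.pos_of_ne_zero (fun h => unit_ne h1 c ((ZMod.val_eq_zero _).1 h))
  have hlt := ZMod.val_lt (c : ZMod q)
  have h2 : 0 < Real.sin (Real.pi * (c : ZMod q).val / q) := by
    apply Real.sin_pos_of_pos_of_lt_pi
    · have : (0 : ℝ) < (c : ZMod q).val := by exact_mod_cast hv
      have := Real.pi_pos
      positivity
    · rw [div_lt_iff₀ hq0]
      have : ((c : ZMod q).val : ℝ) < q := by exact_mod_cast hlt
      exact mul_lt_mul_of_pos_left this Real.pi_pos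
  have h3 : (0 : ℝ) < 2 * Real.sin (Real.pi * (c : ZMod q).val / q) := by positivity
  rw [s2_mul (pow_ne_zero _ (by norm_num)) h3.ne', s2_eq_zero.2 h3, add_zero]
  unfold oo
  rcases Nat.even_or_odd (c : ZMod q).val with h | h
  · rw [h.neg_one_pow, s2_one, (ZMod.natCast_eq_zero_iff_even).2 h]
  · rw [h.neg_one_pow, (ZMod.natCast_eq_one_iff_odd).2 h]
    unfold s2
    rw [if_neg (by norm_num)]

section

variable {q : ℕ} [NeZero q] {L : Type} [Field L] [NumberField L] [IsCyclotomicExtension {q} ℚ L]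
  {K : IntermediateField ℚ L} {φ : L →+* ℂ}

/-- independence of the half system -/
lemma hs_indep {R R' : Finset (ZMod q)ˣ} (hR : IsHalf q L K R) (hR' : IsHalf q L K R')
    {A : Type*} [AddCommMonoid A] (F : (ZMod q)ˣ → A) (hF : ∀ x, F (-x) = F x) :
    ∑ a ∈ R, F a = ∑ a ∈ R', F a := by
  have key : ∀ {R R' : Finset (ZMod q)ˣ}, IsHalf q L K R → IsHalf q L K R' → ∀ x ∈ R, x ∉ R' →
      -x ∈ R' := by
    intro R R' hR hR' x hx hx'
    have h1 := (hR'.mem x).2 ((hR.mem x).1 (Or.inl hx))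
    exact h1.resolve_left hx'
  refine sum_nbij' (fun x => if x ∈ R' then x else -x) (fun x => if x ∈ R then x else -x)
    ?_ ?_ ?_ ?_ ?_
  · intro x hx
    show (if x ∈ R' then x else -x) ∈ R'
    split_ifs with h
    · exact h
    · exact key hR hR' x hx h
  · intro x hx
    show (if x ∈ R then x else -x) ∈ R
    split_ifs with h
    · exact h
    · exact key hR' hR x hx h
  · intro x hx
    show (if (if x ∈ R' then x else -x) ∈ R then (if x ∈ R' then x else -x)
      else -(if x ∈ R' then x else -x)) = x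
    by_cases h : x ∈ R'
    · rw [if_pos h, if_pos hx]
    · rw [if_neg h, if_neg (hR.neg x hx), neg_neg]
  · intro x hx
    show (if (if x ∈ R then x else -x) ∈ R' then (if x ∈ R then x else -x)
      else -(if x ∈ R then x else -x)) = x
    by_cases h : x ∈ R
    · rw [if_pos h, if_pos hx]
    · rw [if_neg h, if_neg (hR'.neg x hx), neg_neg]
  · intro x hx
    show F x = F (if x ∈ R' then x else -x)
    split_ifs with h
    · rfl
    · exact (hF x).symm

lemma half_mul {R : Finset (ZMod q)ˣ} (hR : IsHalf q L K R) {h : (ZMod q)ˣ} (hh : h ∈ HH q L K) :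
    IsHalf q L K (R.image (fun a => h * a)) := by
  have hm : ∀ a, a ∈ R.image (fun a => h * a) ↔ h⁻¹ * a ∈ R := by
    intro a
    rw [mem_image]
    constructor
    · rintro ⟨b, hb, rfl⟩
      rwa [inv_mul_cancel_left]
    · intro ha
      exact ⟨_, ha, mul_inv_cancel_left _ _⟩
  constructor
  · intro a
    rw [hm, hm, mul_neg, hR.mem]
    constructor
    · intro h1
      have := (HH q L K).mul_mem hh h1
      rwa [mul_inv_cancel_left] at this
    · intro h1
      exact (HH q L K).mul_mem ((HH q L K).inv_mem hh) h1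
  · intro a ha
    rw [hm] at ha ⊢
    rw [mul_neg]
    exact hR.neg _ ha

/-- the signs of the cyclotomic units -/
noncomputable def DD (R : Finset (ZMod q)ˣ) (b c : (ZMod q)ˣ) : ZMod 2 :=
  ∑ a ∈ R, (oo ((c * b * a : (ZMod q)ˣ) : ZMod q) + oo ((c * a : (ZMod q)ˣ) : ZMod q))

lemma oo_unit_neg (hq : Odd q) (h1 : 1 < q) (x : (ZMod q)ˣ) :
    oo ((-x : (ZMod q)ˣ) : ZMod q) = oo (x : ZMod q) + 1 := by
  rw [Units.val_neg, oo_neg hq (unit_ne h1 x)]

lemma DD_mul (hq : Odd q) (h1 : 1 < q) {R : Finset (ZMod q)ˣ} (hR : IsHalf q L K R)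
    (b c : (ZMod q)ˣ) {h : (ZMod q)ˣ} (hh : h ∈ HH q L K) : DD R b (c * h) = DD R b c := by
  unfold DD
  have h2 : ∑ a ∈ R.image (fun a => h * a), (oo ((c * b * a : (ZMod q)ˣ) : ZMod q) +
      oo ((c * a : (ZMod q)ˣ) : ZMod q)) = ∑ a ∈ R, (oo ((c * h * b * a : (ZMod q)ˣ) : ZMod q) +
      oo ((c * h * a : (ZMod q)ˣ) : ZMod q)) := by
    rw [sum_image (fun a _ b _ h => mul_left_cancel h)]
    refine sum_congr rfl fun a _ => ?_
    rw [show c * b * (h * a) = c * h * b * a by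
      rw [mul_assoc, mul_left_comm b, ← mul_assoc, ← mul_assoc],
      show c * (h * a) = c * h * a by rw [mul_assoc]]
  rw [← h2]
  refine hs_indep (half_mul hR hh) hR _ ?_
  intro x
  rw [mul_neg, mul_neg, oo_unit_neg hq h1, oo_unit_neg hq h1]
  have : (1 : ZMod 2) + 1 = 0 := by decide
  linear_combination this

omit [NeZero q] in
lemma DD_mul_b {R : Finset (ZMod q)ˣ} (b b' c : (ZMod q)ˣ) :
    DD R (b * b') c = DD R b' (c * b) + DD R b c := by
  unfold DD
  rw [← sum_add_distrib]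
  refine sum_congr rfl fun a _ => ?_
  rw [mul_assoc c b b']
  have : oo ((c * b * a : (ZMod q)ˣ) : ZMod q) + oo ((c * b * a : (ZMod q)ˣ) : ZMod q) = 0 :=
    CharTwo.add_self_eq_zero _
  linear_combination -this

lemma sign_cyc (h1 : 1 < q) {R : Finset (ZMod q)ˣ} {U : (ZMod q)ˣ → (𝓞 K)ˣ}
    (hU : IsCyc R φ U) (b c : (ZMod q)ˣ) :
    s2 (emb q L K φ c ((U b : 𝓞 K) : K)).re = DD R b c := by
  rw [hU b c, Complex.ofReal_re, s2_prod _ _ (fun a _ => div_ne_zero (th_ne h1 _) (th_ne h1 _))]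
  unfold DD
  refine sum_congr rfl fun a _ => ?_
  rw [s2_div (th_ne h1 _) (th_ne h1 _), s2_th h1, s2_th h1]

/-- real embeddings -/
lemma isReal_embG (hre : IsRe q L K) (g : GG q L K) : ComplexEmbedding.IsReal (embG q L K φ g) := by
  obtain ⟨c, rfl⟩ := mkG_surj g
  exact isReal_emb hre c

/-- the real embedding of a class -/
noncomputable def rE (φ : L →+* ℂ) (hre : IsRe q L K) (g : GG q L K) : K →+* ℝ :=
  (isReal_embG (φ := φ) hre g).embedding

lemma rE_coe (hre : IsRe q L K) (g : GG q L K) (x : K) :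
    ((rE φ hre g x : ℝ) : ℂ) = embG q L K φ g x :=
  (isReal_embG (φ := φ) hre g).coe_embedding_apply x

lemma rE_re (hre : IsRe q L K) (g : GG q L K) (x : K) : rE φ hre g x = (embG q L K φ g x).re := by
  rw [← rE_coe hre, Complex.ofReal_re]

lemma rE_bij (hre : IsRe q L K) : Function.Bijective (rE (q := q) φ hre) := by
  constructor
  · intro g g' h
    apply (embG_bij (φ := φ)).1
    refine RingHom.ext fun x => ?_
    rw [← rE_coe hre, ← rE_coe hre, h]
  · intro r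
    obtain ⟨g, hg⟩ := (embG_bij (q := q) (L := L) (K := K) (φ := φ)).2 (Complex.ofRealHom.comp r)
    refine ⟨g, RingHom.ext fun x => ?_⟩
    apply Complex.ofReal_injective
    rw [rE_coe, hg]
    rfl

/-- the signature -/
noncomputable def sig (φ : L →+* ℂ) (hre : IsRe q L K) (u : (𝓞 K)ˣ) (g : GG q L K) : ZMod 2 :=
  s2 (rE φ hre g ((u : 𝓞 K) : K))

lemma rE_ne (hre : IsRe q L K) (g : GG q L K) (u : (𝓞 K)ˣ) : rE φ hre g ((u : 𝓞 K) : K) ≠ 0 :=
  (map_ne_zero _).2 (NumberField.Units.coe_ne_zero u)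

lemma sig_mul (hre : IsRe q L K) (u v : (𝓞 K)ˣ) : sig φ hre (u * v) = sig φ hre u + sig φ hre v := by
  funext g
  have h : (((u * v : (𝓞 K)ˣ) : 𝓞 K) : K) = ((u : 𝓞 K) : K) * ((v : 𝓞 K) : K) := by
    exact map_mul (algebraMap (𝓞 K) K) (u : 𝓞 K) (v : 𝓞 K)
  unfold sig
  rw [h, map_mul, s2_mul (rE_ne hre g u) (rE_ne hre g v)]
  rfl

variable (φ) in
/-- the signature as a homomorphism -/
noncomputable def sigH (hre : IsRe q L K) : (𝓞 K)ˣ →* Multiplicative (GG q L K → ZMod 2) where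
  toFun u := Multiplicative.ofAdd (sig φ hre u)
  map_one' := by
    have h := sig_mul (φ := φ) hre (1 : (𝓞 K)ˣ) 1
    rw [mul_one] at h
    have h2 : sig φ hre (1 : (𝓞 K)ˣ) = 0 := by
      have := h
      rwa [eq_comm, add_eq_left] at this
    rw [h2]; rfl
  map_mul' u v := by rw [sig_mul]; rfl

lemma sig_one (hre : IsRe q L K) : sig φ hre (1 : (𝓞 K)ˣ) = 0 := by
  have h := map_one (sigH φ hre)
  exact h

lemma sig_inv (hre : IsRe q L K) (u : (𝓞 K)ˣ) : sig φ hre u⁻¹ = sig φ hre u := by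
  have h := sig_mul (φ := φ) hre u u⁻¹
  rw [mul_inv_cancel, sig_one] at h
  have h2 : sig φ hre u + sig φ hre u = 0 := by
    funext g
    exact CharTwo.add_self_eq_zero _
  have h3 : sig φ hre u + sig φ hre u⁻¹ = sig φ hre u + sig φ hre u := by rw [← h, h2]
  exact add_left_cancel h3

lemma sig_U (h1 : 1 < q) (hre : IsRe q L K) {R : Finset (ZMod q)ˣ} {U : (ZMod q)ˣ → (𝓞 K)ˣ}
    (hU : IsCyc R φ U) (b c : (ZMod q)ˣ) : sig φ hre (U b) (mkG q L K c) = DD R b c := by
  unfold sig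
  rw [rE_re, embG_mk, sign_cyc h1 hU]

lemma sig_neg_one (hre : IsRe q L K) : sig φ hre (-1 : (𝓞 K)ˣ) = fun _ => 1 := by
  funext g
  unfold sig
  rw [show (((-1 : (𝓞 K)ˣ) : 𝓞 K) : K) = -1 by simp, map_neg, map_one, s2_neg one_ne_zero, s2_one,
    zero_add]

/-- the signatures of the cyclotomic units -/
noncomputable def WW (φ : L →+* ℂ) (hre : IsRe q L K) (U : (ZMod q)ˣ → (𝓞 K)ˣ) :
    AddSubgroup (GG q L K → ZMod 2) where
  carrier := {w | ∃ u ∈ CU U, sig φ hre u = w}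
  zero_mem' := ⟨1, Subgroup.one_mem _, sig_one hre⟩
  add_mem' := by
    rintro _ _ ⟨u, hu, rfl⟩ ⟨v, hv, rfl⟩
    exact ⟨u * v, Subgroup.mul_mem _ hu hv, sig_mul hre u v⟩
  neg_mem' := by
    rintro _ ⟨u, hu, rfl⟩
    refine ⟨u, hu, ?_⟩
    funext g
    have : ∀ x : ZMod 2, x = -x := by decide
    exact this _

lemma mem_CU (U : (ZMod q)ˣ → (𝓞 K)ˣ) (b : (ZMod q)ˣ) : U b ∈ CU U :=
  Subgroup.mem_sup_left (Subgroup.subset_closure ⟨b, rfl⟩)

lemma neg_mem_CU (U : (ZMod q)ˣ → (𝓞 K)ˣ) : (-1 : (𝓞 K)ˣ) ∈ CU U :=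
  Subgroup.mem_sup_right neg_one_mem_torsion

/-- induction over the signatures of cyclotomic units -/
lemma WW_ind (h1 : 1 < q) (hodd : Odd (Module.finrank ℚ K)) (hre : IsRe q L K)
    {R : Finset (ZMod q)ˣ} {U : (ZMod q)ˣ → (𝓞 K)ˣ}
    (hU : IsCyc R φ U) (P : AddSubgroup (GG q L K → ZMod 2)) (hone : (fun _ => 1) ∈ P)
    (hb : ∀ b, sig φ hre (U b) ∈ P) : WW φ hre U ≤ P := by
  rintro _ ⟨u, hu, rfl⟩
  set T : Subgroup (𝓞 K)ˣ :=
    { carrier := {u | sig φ hre u ∈ P}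
      one_mem' := by
        show sig φ hre (1 : (𝓞 K)ˣ) ∈ P
        rw [sig_one]; exact P.zero_mem
      mul_mem' := by
        intro a b ha hb
        show sig φ hre (a * b) ∈ P
        rw [sig_mul]; exact P.add_mem ha hb
      inv_mem' := by
        intro a ha
        show sig φ hre a⁻¹ ∈ P
        rw [sig_inv]; exact ha } with hT
  have h2 : CU U ≤ T := by
    refine sup_le ?_ ?_
    · rw [Subgroup.closure_le]
      rintro _ ⟨b, rfl⟩
      exact hb b
    · intro x hx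
      rcases torsion_eq_one_or_neg_one_of_odd_finrank hodd ⟨x, hx⟩ with h | h
      · have h' : x = 1 := h
        rw [h']; exact T.one_mem
      · have h' : x = -1 := h
        rw [h']
        show sig φ hre (-1 : (𝓞 K)ˣ) ∈ P
        rw [sig_neg_one]; exact hone
  exact h2 hu

lemma WW_one (hre : IsRe q L K) (U : (ZMod q)ˣ → (𝓞 K)ˣ) : (fun _ => 1) ∈ WW φ hre U :=
  ⟨-1, neg_mem_CU U, sig_neg_one hre⟩

/-- translations -/
lemma WW_tr (h1 : 1 < q) (hodd : Odd (Module.finrank ℚ K)) (hre : IsRe q L K)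
    {R : Finset (ZMod q)ˣ} {U : (ZMod q)ˣ → (𝓞 K)ˣ} (hU : IsCyc R φ U)
    (h : GG q L K) : ∀ w ∈ WW φ hre U, (fun g => w (h * g)) ∈ WW φ hre U := by
  set P : AddSubgroup (GG q L K → ZMod 2) :=
    (WW φ hre U).comap
      ({ toFun := fun w g => w (h * g), map_zero' := rfl, map_add' := fun _ _ => rfl } :
        (GG q L K → ZMod 2) →+ (GG q L K → ZMod 2)) with hP
  have h2 : WW φ hre U ≤ P := by
    refine WW_ind h1 hodd hre hU P ?_ ?_
    · exact WW_one hre U
    · intro b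
      obtain ⟨c, rfl⟩ := mkG_surj h
      show (fun g => sig φ hre (U b) (mkG q L K c * g)) ∈ WW φ hre U
      refine ⟨U (c * b) * U c, Subgroup.mul_mem _ (mem_CU U _) (mem_CU U _), ?_⟩
      funext g
      obtain ⟨d, rfl⟩ := mkG_surj g
      rw [sig_mul, Pi.add_apply, sig_U h1 hre hU, sig_U h1 hre hU, ← map_mul, sig_U h1 hre hU,
        DD_mul_b, mul_comm c d]
      have : DD R c d + DD R c d = 0 := CharTwo.add_self_eq_zero _
      linear_combination this
  exact fun w hw => h2 hw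

/-- the condition on the characters modulo two -/
def Sg (q : ℕ) [NeZero q] (L : Type) [Field L] [NumberField L] [IsCyclotomicExtension {q} ℚ L]
    (K : IntermediateField ℚ L) (R : Finset (ZMod q)ˣ) : Prop :=
  ∀ (_ : Fintype (GG q L K)) (k : Type) [Field k] [CharP k 2] (ψ : GG q L K →* k), ψ ≠ 1 →
    ∃ b : (ZMod q)ˣ, ∑ g, ψ g * c2 k (DD R b (outG q L K g)) ≠ 0

lemma sum_sig (h1 : 1 < q) (hre : IsRe q L K) {R : Finset (ZMod q)ˣ}
    {U : (ZMod q)ˣ → (𝓞 K)ˣ} (hU : IsCyc R φ U) [Fintype (GG q L K)] (k : Type) [Field k]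
    [CharP k 2] (ψ : GG q L K →* k) (b : (ZMod q)ˣ) :
    ∑ g, ψ g * c2 k (sig φ hre (U b) g) = ∑ g, ψ g * c2 k (DD R b (outG q L K g)) := by
  refine sum_congr rfl fun g _ => ?_
  rw [← sig_U h1 hre hU, mkG_outG]

lemma card_odd (hodd : Odd (Module.finrank ℚ K)) [Fintype (GG q L K)] :
    Odd (Fintype.card (GG q L K)) := by
  rw [← Nat.card_eq_fintype_card, card_GG]; exact hodd

theorem WW_top_of (h1 : 1 < q) (hodd : Odd (Module.finrank ℚ K)) (hre : IsRe q L K)
    {R : Finset (ZMod q)ˣ} {U : (ZMod q)ˣ → (𝓞 K)ˣ}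
    (hU : IsCyc R φ U) (hS : Sg q L K R) : WW φ hre U = ⊤ := by
  have : Fintype (GG q L K) := Fintype.ofFinite _
  refine ideal_top (card_odd hodd) _ (WW_one hre U)
    (fun w hw h => WW_tr h1 hodd hre hU h w hw) ?_
  intro k _ _ ψ hψ
  obtain ⟨b, hb⟩ := hS this k ψ hψ
  refine ⟨_, ⟨U b, mem_CU U b, rfl⟩, ?_⟩
  rw [sum_sig h1 hre hU]
  exact hb

theorem of_WW_top (h1 : 1 < q) (hodd : Odd (Module.finrank ℚ K)) (hre : IsRe q L K)
    {R : Finset (ZMod q)ˣ} {U : (ZMod q)ˣ → (𝓞 K)ˣ}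
    (hU : IsCyc R φ U) (hW : WW φ hre U = ⊤) : Sg q L K R := by
  intro _ k _ _ ψ hψ
  by_contra hcon
  push Not at hcon
  set F : (GG q L K → ZMod 2) →+ k :=
    { toFun := fun w => ∑ g, ψ g * c2 k (w g)
      map_zero' := by simp
      map_add' := by
        intro w w'
        rw [← sum_add_distrib]
        refine sum_congr rfl fun g _ => ?_
        rw [Pi.add_apply, map_add, mul_add] } with hF
  have h2 : WW φ hre U ≤ F.ker := by
    refine WW_ind h1 hodd hre hU _ ?_ ?_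
    · show ∑ g, ψ g * c2 k 1 = 0
      simp only [c2_one, mul_one]
      exact charSum_eq_zero hψ
    · intro b
      show ∑ g, ψ g * c2 k (sig φ hre (U b) g) = 0
      rw [sum_sig h1 hre hU]
      exact hcon b
  rw [hW] at h2
  have h3 : (Pi.single 1 1 : GG q L K → ZMod 2) ∈ F.ker := h2 trivial
  have h4 : ∑ g, ψ g * c2 k ((Pi.single 1 1 : GG q L K → ZMod 2) g) = 0 := h3
  rw [sum_eq_single 1] at h4
  · rw [Pi.single_eq_same, c2_one, map_one, mul_one] at h4
    exact one_ne_zero h4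
  · intro g _ hg
    rw [Pi.single_eq_of_ne hg, map_zero, mul_zero]
  · intro h; exact absurd (mem_univ _) h

end

end Pool.Agent.Y682.XT
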