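import Pool.Agent.Y682.XT.Hsm
import Pool.Agent.Y687.K2.Quart2
import Pool.Agent.Y687.K2.Par
import Pool.Agent.Y700.Sym

/-!
# The modular symbol of `X_0(14)` modulo two and the signs of the cyclotomic units
-/

set_option autoImplicit false

open Finset

namespace Pool.Agent.Y682.XT

open scoped Classical

open Pool.Agent.Y687 (EE Symb2 Good good_all sum_even Pos mem_Pos T_sum EE_sum eps)

open Pool.Agent.W97.MT (ap E14 II)

section

variable {M : ℕ} [NeZero M]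

lemma oo_eq (x : ZMod M) : Pool.Agent.Y687.oo x = oo x := rfl

/-- the Dedekind symbol modulo two -/
theorem EE_par' (hM2 : M % 2 = 1) {a n : ℤ} {b c : ZMod M} (hb : (a : ZMod M) * b = 1)
    (hc : 7 * (a : ZMod M) * c = 1) (hn : EE a M = n) :
    (n : ZMod 2) = ∑ z ∈ Pos M, oo z + ∑ z ∈ Pos M, oo z * (oo (b * z) + oo (c * z)) := by
  have h1 := EE_sum hM2 hn
  rw [sum_even hM2 _ (by simp) (by
    intro x
    rcases eq_or_ne x 0 with rfl | hx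
    · simp
    · rw [mul_neg, mul_neg, Pool.Agent.Y687.vma_neg hM2, Pool.Agent.Y687.vma_neg hM2,
        Pool.Agent.Y687.val_neg' hx, Nat.cast_sub (ZMod.val_lt x).le]
      ring)] at h1
  obtain ⟨ε, hε, t, ht⟩ : ∃ ε : ℤ, (ε = 1 ∨ ε = -1) ∧ ∃ t : ℤ, (M : ℤ) = 2 - ε + 4 * t := by
    rcases (by omega : M % 4 = 1 ∨ M % 4 = 3) with h | h
    · exact ⟨1, Or.inl rfl, ((M : ℤ) - 1) / 4, by omega⟩
    · exact ⟨-1, Or.inr rfl, ((M : ℤ) - 3) / 4, by omega⟩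
  -- modulo four
  have h2 : (4 : ℤ) ∣ ∑ x ∈ univ.filter (fun x : ZMod M => x.val % 2 = 1),
      ((2 * (x.val : ℤ) - M) * (((a : ZMod M) * x).valMinAbs - 7 * (7 * (a : ZMod M) * x).valMinAbs)
        - ε * (((a : ZMod M) * x).valMinAbs + (7 * (a : ZMod M) * x).valMinAbs)) := by
    refine dvd_sum fun x hx => ?_
    rw [mem_filter] at hx
    generalize ((a : ZMod M) * x).valMinAbs = u
    generalize (7 * (a : ZMod M) * x).valMinAbs = v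
    obtain ⟨k, hk⟩ : ∃ k : ℤ, 2 * (x.val : ℤ) - M = ε + 4 * k := by
      refine ⟨(2 * (x.val : ℤ) - M - ε) / 4, ?_⟩
      have := hx.2
      rcases hε with rfl | rfl <;> omega
    rw [hk]
    exact ⟨k * u - 7 * k * v - 2 * ε * v, by ring⟩
  rw [sum_sub_distrib, ← mul_sum, sum_add_distrib] at h2
  rw [T_sum hM2 hb, T_sum hM2 hc] at h2
  obtain ⟨k, hk⟩ := h2
  have he : ∀ y : ZMod M, eps y = 2 * (((y.val % 2 : ℕ)) : ℤ) - 1 := by
    intro y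
    unfold eps
    split_ifs with h
    · rw [h]; norm_num
    · have : y.val % 2 = 0 := by omega
      rw [this]; norm_num
  have h3 : ∀ d : ZMod M, ∑ z ∈ Pos M, eps (d * z) * (z.val : ℤ) =
      2 * ∑ z ∈ Pos M, (((d * z).val % 2 : ℕ) : ℤ) * (z.val : ℤ) - ∑ z ∈ Pos M, (z.val : ℤ) := by
    intro d
    rw [mul_sum, ← sum_sub_distrib]
    refine sum_congr rfl fun z _ => ?_
    rw [he]
    ring
  rw [h3, h3] at hk
  have h4 : ∃ j : ℤ, n = ∑ z ∈ Pos M, (z.val : ℤ) +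
      (∑ z ∈ Pos M, (((b * z).val % 2 : ℕ) : ℤ) * (z.val : ℤ) +
        ∑ z ∈ Pos M, (((c * z).val % 2 : ℕ) : ℤ) * (z.val : ℤ)) + 2 * j := by
    generalize (∑ z ∈ Pos M, (((b * z).val % 2 : ℕ) : ℤ) * (z.val : ℤ)) = B at hk ⊢
    generalize (∑ z ∈ Pos M, (((c * z).val % 2 : ℕ) : ℤ) * (z.val : ℤ)) = C at hk ⊢
    generalize (∑ z ∈ Pos M, (z.val : ℤ)) = Z at hk ⊢
    generalize (∑ x ∈ univ.filter (fun x : ZMod M => x.val % 2 = 1),
      (2 * (x.val : ℤ) - M) * (((a : ZMod M) * x).valMinAbs - 7 * (7 * (a : ZMod M) * x).valMinAbs))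
      = W at hk h1
    have h5 : W = 4 * k + ε * (2 * B + 2 * C - 2 * Z) := by linear_combination hk
    rw [h5] at h1
    have h6 : (M : ℤ) ^ 2 * n = -2 * a * M - (2 * k + ε * (B + C - Z)) := by
      have : (4 : ℤ) * ((M : ℤ) ^ 2 * n) = 4 * (-2 * a * M - (2 * k + ε * (B + C - Z))) := by
        linear_combination h1
      exact mul_left_cancel₀ (by norm_num) this
    rcases hε with rfl | rfl
    · refine ⟨-a * M - k - B - C - (4 * t + 8 * t ^ 2) * n, ?_⟩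
      have h7 : (M : ℤ) ^ 2 = 1 + 2 * (4 * t + 8 * t ^ 2) := by rw [ht]; ring
      linear_combination h6 - n * h7
    · refine ⟨-a * M - k - Z - (4 + 12 * t + 8 * t ^ 2) * n, ?_⟩
      have h7 : (M : ℤ) ^ 2 = 1 + 2 * (4 + 12 * t + 8 * t ^ 2) := by rw [ht]; ring
      linear_combination h6 - n * h7
  obtain ⟨j, hj⟩ := h4
  rw [hj]
  push_cast
  have h20 : (2 : ZMod 2) = 0 := by decide
  rw [h20, zero_mul, add_zero]
  congr 1
  rw [← sum_add_distrib]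
  refine sum_congr rfl fun z hz => ?_
  have h10 : ∀ y : ZMod M, (((y.val % 2 : ℕ)) : ZMod 2) = oo y := by
    intro y
    unfold oo
    exact ZMod.natCast_mod _ _
  have h11 : ∀ y : ZMod M, ((((y.val : ℕ) : ℤ) % 2 : ℤ) : ZMod 2) = oo y := by
    intro y
    rw [← h10 y]
    norm_cast
  simp only [h11]
  unfold oo
  ring

variable {k : Type} [Field k] [CharP k 2]

/-- every proper divisor of `M` is not a level of `ψ` -/
def Prm (ψ : (ZMod M)ˣ →* k) : Prop := ∀ (f : ℕ) (h : f ∣ M), f ≠ M →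
  ∃ κ : (ZMod M)ˣ, ZMod.unitsMap h κ = 1 ∧ ψ κ ≠ 1

/-- units that fix a zero divisor -/
lemma exists_fix {ψ : (ZMod M)ˣ →* k} (hψ : Prm ψ) {z : ZMod M} (hz : ¬ IsUnit z) :
    ∃ κ : (ZMod M)ˣ, (κ : ZMod M) * z = z ∧ ψ κ ≠ 1 := by
  have hM0 : 0 < M := Nat.pos_of_ne_zero (NeZero.ne M)
  set g := Nat.gcd z.val M with hg
  have hgM : g ∣ M := Nat.gcd_dvd_right _ _
  have hgz : g ∣ z.val := Nat.gcd_dvd_left _ _
  have hg0 : 0 < g := Nat.pos_of_dvd_of_pos hgM hM0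
  have hg1 : g ≠ 1 := by
    intro h
    apply hz
    have h1 : ((z.val : ℕ) : ZMod M) = z := ZMod.natCast_zmod_val z
    rw [← h1]
    exact (ZMod.isUnit_iff_coprime _ _).2 h
  have hf : M / g ∣ M := Nat.div_dvd_of_dvd hgM
  have hfne : M / g ≠ M := by
    have : M / g < M := Nat.div_lt_self hM0 (by omega)
    omega
  obtain ⟨κ, hκ, hne⟩ := hψ (M / g) hf hfne
  refine ⟨κ, ?_, hne⟩
  have : NeZero (M / g) := ⟨(Nat.div_pos (Nat.le_of_dvd hM0 hgM) hg0).ne'⟩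
  have h1 : (((κ : ZMod M).val : ℕ) : ZMod (M / g)) = 1 := by
    have h2 := congrArg Units.val hκ
    rw [ZMod.unitsMap_val, Units.val_one, ZMod.cast_eq_val] at h2
    exact h2
  have h3 : ((((κ : ZMod M).val : ℤ) - 1 : ℤ) : ZMod (M / g)) = 0 := by
    push_cast
    rw [h1, sub_self]
  rw [ZMod.intCast_zmod_eq_zero_iff_dvd] at h3
  obtain ⟨t, ht⟩ := h3
  obtain ⟨s, hs⟩ := hgz
  have h4 : ((κ : ZMod M) - 1) * z = 0 := by
    have e1 : ((κ : ZMod M) - 1) = ((((κ : ZMod M).val : ℤ) - 1 : ℤ) : ZMod M) := by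
      push_cast
      rw [ZMod.natCast_zmod_val]
    have e2 : z = (((z.val : ℕ) : ℤ) : ZMod M) := by
      push_cast
      rw [ZMod.natCast_zmod_val]
    rw [e1, e2, ← Int.cast_mul, ZMod.intCast_zmod_eq_zero_iff_dvd, ht, hs]
    have e3 : ((M / g : ℕ) : ℤ) * (g : ℤ) = M := by
      rw [← Nat.cast_mul, Nat.div_mul_cancel hgM]
    refine ⟨t * s, ?_⟩
    push_cast
    push_cast at e3
    linear_combination (t * s) * e3
  linear_combination h4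

/-- the inner sums -/
noncomputable def IZ (ψ : (ZMod M)ˣ →* k) (s : (ZMod M)ˣ) (z : ZMod M) : k :=
  ∑ u ∈ PU M, ψ u * c2 k (oo (((u⁻¹ : (ZMod M)ˣ) : ZMod M) * z) +
    oo (((u⁻¹ * s : (ZMod M)ˣ) : ZMod M) * z))

lemma ne_unit_mul {z : ZMod M} (hz : z ≠ 0) (u : (ZMod M)ˣ) : (u : ZMod M) * z ≠ 0 := by
  intro h
  apply hz
  have := congrArg (fun x => ((u⁻¹ : (ZMod M)ˣ) : ZMod M) * x) h
  simpa using this

lemma IZ_even (hM : Odd M) {ψ : (ZMod M)ˣ →* k} (hψ : ∀ x, ψ (-x) = ψ x)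
    (s : (ZMod M)ˣ) {z : ZMod M} (hz : z ≠ 0) (u : (ZMod M)ˣ) :
    ψ (-u) * c2 k (oo ((((-u)⁻¹ : (ZMod M)ˣ) : ZMod M) * z) +
      oo ((((-u)⁻¹ * s : (ZMod M)ˣ) : ZMod M) * z)) =
    ψ u * c2 k (oo (((u⁻¹ : (ZMod M)ˣ) : ZMod M) * z) +
      oo (((u⁻¹ * s : (ZMod M)ˣ) : ZMod M) * z)) := by
  rw [hψ]
  congr 2
  have e1 : (-u)⁻¹ = -u⁻¹ := inv_neg
  rw [e1, neg_mul, Units.val_neg, Units.val_neg, neg_mul, neg_mul,
    oo_neg hM (ne_unit_mul hz _), oo_neg hM (ne_unit_mul hz _)]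
  have : (1 : ZMod 2) + 1 = 0 := by decide
  linear_combination this

lemma IZ_unit (hM : Odd M) (h1 : 1 < M) {ψ : (ZMod M)ˣ →* k} (hψ : ∀ x, ψ (-x) = ψ x)
    (s z : (ZMod M)ˣ) {ψ' : (ZMod M)ˣ →* k} (hψ' : ∀ x, ψ' x = ψ x⁻¹) :
    IZ ψ s (z : ZMod M) = ψ z * TT ψ' s := by
  unfold IZ TT
  rw [← (isH_PU hM h1).sum_equiv ((Equiv.inv (ZMod M)ˣ).trans (Equiv.mulLeft z))
    (fun x => by
      show z * (-x)⁻¹ = -(z * x⁻¹)
      have e1 : (-x)⁻¹ = -x⁻¹ := inv_neg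
      rw [e1, mul_neg]) _ (fun u => IZ_even hM hψ s (unit_ne h1 z) u), mul_sum]
  refine sum_congr rfl fun w _ => ?_
  show ψ (z * w⁻¹) * c2 k (oo ((((z * w⁻¹)⁻¹ : (ZMod M)ˣ) : ZMod M) * (z : ZMod M)) +
    oo ((((z * w⁻¹)⁻¹ * s : (ZMod M)ˣ) : ZMod M) * (z : ZMod M))) = _
  rw [map_mul, hψ', mul_assoc, ← Units.val_mul, ← Units.val_mul]
  congr 3
  rw [add_comm]
  congr 2
  · congr 1
    rw [mul_inv, inv_inv]
    calc z⁻¹ * w * s * z = w * s * (z⁻¹ * z) := by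
          rw [mul_comm z⁻¹ w, mul_assoc w z⁻¹ s, mul_comm z⁻¹ s, ← mul_assoc, mul_assoc]
      _ = w * s := by rw [inv_mul_cancel, mul_one]
  · congr 1
    rw [mul_inv, inv_inv, mul_comm z⁻¹ w, mul_assoc, inv_mul_cancel, mul_one]

lemma IZ_nonunit (hM : Odd M) (h1 : 1 < M) {ψ : (ZMod M)ˣ →* k} (hψ : ∀ x, ψ (-x) = ψ x)
    (hp : Prm ψ) (s : (ZMod M)ˣ) {z : ZMod M} (hz0 : z ≠ 0) (hz : ¬ IsUnit z) : IZ ψ s z = 0 := by
  obtain ⟨κ, hκ, hne⟩ := exists_fix hp hz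
  have hκ' : ((κ⁻¹ : (ZMod M)ˣ) : ZMod M) * z = z := by
    conv_lhs => rw [← hκ]
    rw [← mul_assoc, ← Units.val_mul, inv_mul_cancel, Units.val_one, one_mul]
  have h2 : IZ ψ s z = ψ κ * IZ ψ s z := by
    conv_lhs => unfold IZ
    rw [← (isH_PU hM h1).sum_equiv (Equiv.mulLeft κ) (fun x => mul_neg κ x) _
      (fun u => IZ_even hM hψ s hz0 u)]
    unfold IZ
    rw [mul_sum]
    refine sum_congr rfl fun u _ => ?_
    show ψ (κ * u) * c2 k (oo ((((κ * u)⁻¹ : (ZMod M)ˣ) : ZMod M) * z) +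
      oo ((((κ * u)⁻¹ * s : (ZMod M)ˣ) : ZMod M) * z)) = _
    have e1 : (((κ * u)⁻¹ : (ZMod M)ˣ) : ZMod M) * z = ((u⁻¹ : (ZMod M)ˣ) : ZMod M) * z := by
      rw [mul_inv, mul_comm κ⁻¹, Units.val_mul, mul_assoc, hκ']
    have e2 : (((κ * u)⁻¹ * s : (ZMod M)ˣ) : ZMod M) * z =
        ((u⁻¹ * s : (ZMod M)ˣ) : ZMod M) * z := by
      rw [mul_inv, mul_comm κ⁻¹, mul_assoc, mul_comm κ⁻¹, ← mul_assoc, Units.val_mul, mul_assoc,
        hκ']
    rw [map_mul, mul_assoc, e1, e2]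
  have h3 : (ψ κ - 1) * IZ ψ s z = 0 := by rw [sub_mul, ← h2, one_mul, sub_self]
  exact (mul_eq_zero.1 h3).resolve_left (sub_ne_zero.2 hne)

end

end Pool.Agent.Y682.XT
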