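import Pool.Agent.Y682.XT.Sym

/-!
# The twisted sums of the modular symbols modulo two
-/

set_option autoImplicit false

open Finset

namespace Pool.Agent.Y682.XT

open scoped Classical

open Pool.Agent.Y687 (EE Symb2 Good good_all Pos mem_Pos)

open Pool.Agent.W97.MT (ap E14 II)

section

variable {M : ℕ} [NeZero M] {k : Type} [Field k] [CharP k 2]

/-- the twisted sum of the symbols modulo two -/
theorem symb_sum {s : ℚ → ℤ} {a : ℕ → ℤ} (H : Symb2 s a) (hM : Odd M) (h1 : 1 < M)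
    (hco : M.Coprime 14) {ψ ψ' : (ZMod M)ˣ →* k} (hψ : ∀ x, ψ (-x) = ψ x) (hp : Prm ψ)
    (hne : ∃ x, ψ x ≠ 1)
    (hψ' : ∀ x, ψ' x = ψ x⁻¹) {t2 t7 : (ZMod M)ˣ} (ht2 : (t2 : ZMod M) = 2)
    (ht7 : (t7 : ZMod M) = 7) :
    ∑ u ∈ PU M, ψ u * ((s (((u : ZMod M).val : ℚ) / M) : ℤ) : k) = TT ψ t2 * TT ψ' t7⁻¹ := by
  have hMz : ((M : ℕ) : ℤ) ≠ 0 := by exact_mod_cast NeZero.ne M
  -- each symbol
  have key : ∀ u : (ZMod M)ˣ, ((s (((u : ZMod M).val : ℚ) / M) : ℤ) : k) =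
      c2 k ((s 0 : ℤ) : ZMod 2) + c2 k (∑ z ∈ Pos M, oo z) + ∑ z ∈ Pos M, c2 k (oo z) *
        c2 k (oo (((u⁻¹ : (ZMod M)ˣ) : ZMod M) * z) +
          oo (((u⁻¹ * t7⁻¹ : (ZMod M)ˣ) : ZMod M) * z)) := by
    intro u
    have hcop : IsCoprime (14 * ((u : ZMod M).val : ℤ)) ((M : ℕ) : ℤ) := by
      have e1 : Nat.Coprime (14 * (u : ZMod M).val) M :=
        Nat.Coprime.mul_left hco.symm (ZMod.val_coe_unit_coprime u)
      exact_mod_cast Nat.isCoprime_iff_coprime.2 e1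
    obtain ⟨n, hn, hev⟩ := good_all H _ ((u : ZMod M).val : ℤ) ((M : ℕ) : ℤ) rfl hMz hcop
    have hu : ((((u : ZMod M).val : ℤ)) : ZMod M) = (u : ZMod M) := by
      push_cast
      rw [ZMod.natCast_zmod_val]
    have h2 := EE_par' (Nat.odd_iff.1 hM) (a := ((u : ZMod M).val : ℤ)) (n := n)
      (b := ((u⁻¹ : (ZMod M)ˣ) : ZMod M)) (c := ((u⁻¹ * t7⁻¹ : (ZMod M)ˣ) : ZMod M))
      (by rw [hu]; exact Units.mul_inv u)
      (by
        rw [hu, ← ht7, ← Units.val_mul, ← Units.val_mul, ← Units.val_one]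
        congr 1
        rw [mul_comm t7 u, mul_assoc, mul_comm u⁻¹, ← mul_assoc t7, mul_inv_cancel, one_mul,
          mul_inv_cancel]) hn
    have h3 : ((s (((u : ZMod M).val : ℚ) / M) : ℤ) : ZMod 2) = ((s 0 : ℤ) : ZMod 2) + (n : ZMod 2) := by
      obtain ⟨r, hr⟩ := hev
      push_cast at hr
      have h4 : s (((u : ZMod M).val : ℚ) / M) = s 0 + n + (r + r) := by linear_combination hr
      rw [h4]
      push_cast
      have : (r : ZMod 2) + (r : ZMod 2) = 0 := CharTwo.add_self_eq_zero _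
      linear_combination this
    have h5 : ((s (((u : ZMod M).val : ℚ) / M) : ℤ) : k) =
        c2 k ((s (((u : ZMod M).val : ℚ) / M) : ℤ) : ZMod 2) := (map_intCast _ _).symm
    rw [h5, h3, map_add, h2, map_add, map_sum (c2 k) (fun z => oo z * _), ← add_assoc]
    congr 1
    refine sum_congr rfl fun z _ => ?_
    rw [map_mul]
  have h2 : ∑ u ∈ PU M, ψ u * ((s (((u : ZMod M).val : ℚ) / M) : ℤ) : k) =
      (∑ u ∈ PU M, ψ u) * (c2 k ((s 0 : ℤ) : ZMod 2) + c2 k (∑ z ∈ Pos M, oo z)) +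
        ∑ z ∈ Pos M, c2 k (oo z) * IZ ψ t7⁻¹ z := by
    have e1 : ∀ u : (ZMod M)ˣ, ψ u * ((s (((u : ZMod M).val : ℚ) / M) : ℤ) : k) =
        ψ u * (c2 k ((s 0 : ℤ) : ZMod 2) + c2 k (∑ z ∈ Pos M, oo z)) +
        ∑ z ∈ Pos M, c2 k (oo z) * (ψ u *
        c2 k (oo (((u⁻¹ : (ZMod M)ˣ) : ZMod M) * z) +
          oo (((u⁻¹ * t7⁻¹ : (ZMod M)ˣ) : ZMod M) * z))) := by
      intro u
      rw [key u, mul_add (ψ u), mul_sum]
      congr 1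
      refine sum_congr rfl fun z _ => ?_
      ring
    rw [sum_congr rfl fun u _ => e1 u, sum_add_distrib, sum_mul]
    congr 1
    rw [sum_comm]
    refine sum_congr rfl fun z _ => ?_
    unfold IZ
    rw [mul_sum]
  obtain ⟨x, hx⟩ := hne
  rw [h2, psi_sum hM h1 hψ hx, zero_mul, zero_add, TT_two ht2, sum_mul]
  -- the sum over the units
  rw [← sum_filter_add_sum_filter_not (Pos M) (fun z => IsUnit z)]
  have h3 : ∑ z ∈ (Pos M).filter (fun z => ¬ IsUnit z), c2 k (oo z) * IZ ψ t7⁻¹ z = 0 := by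
    refine sum_eq_zero fun z hz => ?_
    rw [mem_filter, mem_Pos] at hz
    rw [IZ_nonunit hM h1 hψ hp _ hz.1.1 hz.2, mul_zero]
  rw [h3, add_zero]
  symm
  refine sum_bij (fun (z : (ZMod M)ˣ) _ => (z : ZMod M)) ?_ ?_ ?_ ?_
  · intro z hz
    rw [mem_PU] at hz
    rw [mem_filter, mem_Pos]
    exact ⟨⟨unit_ne h1 z, hz.le⟩, z.isUnit⟩
  · intro z _ w _ h
    exact Units.ext h
  · intro z hz
    rw [mem_filter, mem_Pos] at hz
    obtain ⟨⟨-, h4⟩, u, rfl⟩ := hz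
    refine ⟨u, ?_, rfl⟩
    rw [mem_PU]
    obtain ⟨r, hr⟩ := hM
    omega
  · intro z _
    rw [IZ_unit hM h1 hψ _ _ hψ']
    ring

/-- the twisted sum of the symbols does not vanish modulo two -/
theorem symb_ne {s : ℚ → ℤ} {a : ℕ → ℤ} (H : Symb2 s a) (hM : Odd M) (h1 : 1 < M)
    (hco : M.Coprime 14) {ψ ψ' : (ZMod M)ˣ →* k} (hψ : ∀ x, ψ (-x) = ψ x) (hp : Prm ψ)
    (hψ' : ∀ x, ψ' x = ψ x⁻¹) {t2 t7 : (ZMod M)ˣ} (ht2 : (t2 : ZMod M) = 2)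
    (ht7 : (t7 : ZMod M) = 7) (h2 : ψ t2 ≠ 1) (h7 : ψ t7 ≠ 1) (hT : ∃ b, TT ψ b ≠ 0)
    (hT' : ∃ b, TT ψ' b ≠ 0) :
    ∑ u ∈ PU M, ψ u * ((s (((u : ZMod M).val : ℚ) / M) : ℤ) : k) ≠ 0 := by
  rw [symb_sum H hM h1 hco hψ hp ⟨t2, h2⟩ hψ' ht2 ht7]
  obtain ⟨b, hb⟩ := hT
  obtain ⟨b', hb'⟩ := hT'
  have hψ'e : ∀ x, ψ' (-x) = ψ' x := by
    intro x
    have e1 : (-x)⁻¹ = -x⁻¹ := inv_neg
    rw [hψ', hψ', e1, hψ]
  refine mul_ne_zero (TT_ne hM h1 hψ hb h2) (TT_ne hM h1 hψ'e hb' ?_)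
  rw [hψ', inv_inv]
  exact h7

end

/-- the symbol together with the period lattice -/
theorem exists_symb3 : ∃ (s : ℚ → ℤ) (L : PeriodPair) (Op Om : ℝ), 0 < Op ∧ 0 < Om ∧
    L.g₂ = -215 / 12 ∧ L.g₃ = 5291 / 216 ∧
    (∀ w : ℂ, w ∈ L.lattice ↔ ∃ a b : ℤ, 2 ∣ a - b ∧ w = a * Op + b * Om * Complex.I) ∧
    Symb2 s (fun q => ap E14 q) ∧ ∀ r : ℚ, (3 : ℝ) * (II r).re = s r * Op := by
  obtain ⟨s, L, Op, Om, hOp, hOm, g2, g3, hL, hs, hv⟩ := Pool.Agent.Y700.exists_symb'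
  refine ⟨s, L, Op, Om, hOp, hOm, g2, g3, hL, ⟨hs, fun hdet _ _ hc =>
    Pool.Agent.Y687.symb_aff hOp hv hdet hc, Pool.Agent.Y687.ap3, ?_⟩, hv⟩
  exact (Pool.Agent.Y687.II_facts 5 (by norm_num) (by norm_num) (by norm_num)).2.2.2

end Pool.Agent.Y682.XT
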